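import Mathlib

set_option autoImplicit false

namespace Pool.Agent.Helper47.MA

open Set

/-- The standard basis vectors of the plane. -/
def e1 : ℝ × ℝ := (1, 0)
/-- The standard basis vectors of the plane. -/
def e2 : ℝ × ℝ := (0, 1)

/-- The second derivative of `u` at `z` in the directions `a` and `b`. -/
noncomputable def D2 (u : ℝ × ℝ → ℝ) (z a b : ℝ × ℝ) : ℝ :=
  fderiv ℝ (fun w => fderiv ℝ u w a) z b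

/-- The Monge-Ampere operator `u_xx u_yy - u_xy ^ 2`. -/
noncomputable def MAop (u : ℝ × ℝ → ℝ) (z : ℝ × ℝ) : ℝ :=
  D2 u z e1 e1 * D2 u z e2 e2 - (D2 u z e1 e2) ^ 2

/-- The local obstruction: a right-hand side that is as small as we please, supported in the ball
of radius ten, and such that no solution has almost the Hessian of `y ^ 2 / 2`. -/
def NLStatement : Prop :=
  ∀ (N : ℕ) (δ : ℝ), 0 < δ → ∃ K : ℝ × ℝ → ℝ, ContDiff ℝ (↑(⊤ : ℕ∞)) K ∧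
    (∀ z, 10 ≤ ‖z‖ → K z = 0) ∧ (∃ z, K z < 0) ∧
    (∀ n ≤ N, ∀ z, ‖iteratedFDeriv ℝ n K z‖ ≤ δ) ∧
    ¬ ∃ u : ℝ × ℝ → ℝ, ContDiffOn ℝ 2 u (Ioo (-3) 3 ×ˢ Ioo (-1) 1) ∧
      ∀ z ∈ Ioo (-3 : ℝ) 3 ×ˢ Ioo (-1 : ℝ) 1, |D2 u z e2 e2 - 1| ≤ 1 / 1000 ∧
        |D2 u z e1 e2| ≤ 1 / 1000 ∧ MAop u z = K z

/-- The domain of the normalised solutions in the variables `(x, q)`. -/
def Om (h : ℝ) : Set (ℝ × ℝ) := Ioo (-9 / 4) (9 / 4) ×ˢ Ioo (-(13 / 10 * h)) (13 / 10 * h)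

/-- A normalised solution in the variables `(x, q)`: `Y_x = Yx`, `Y_q = Yq`,
`p_x = k(x, Y) Y_q`, `p_q = -Y_x`, `psi_x = -p`, `psi_q = Y`. -/
structure Sol (k : ℝ → ℝ → ℝ) (V h : ℝ) (Y p ψ Yx Yq : ℝ × ℝ → ℝ) : Prop where
  hY : ∀ z ∈ Om h, HasFDerivAt Y
    (Yx z • ContinuousLinearMap.fst ℝ ℝ ℝ + Yq z • ContinuousLinearMap.snd ℝ ℝ ℝ) z
  hp : ∀ z ∈ Om h, HasFDerivAt p
    ((k z.1 (Y z) * Yq z) • ContinuousLinearMap.fst ℝ ℝ ℝ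
      + (-(Yx z)) • ContinuousLinearMap.snd ℝ ℝ ℝ) z
  hψ : ∀ z ∈ Om h, HasFDerivAt ψ
    ((-(p z)) • ContinuousLinearMap.fst ℝ ℝ ℝ + (Y z) • ContinuousLinearMap.snd ℝ ℝ ℝ) z
  cx : ContinuousOn Yx (Om h)
  cq : ContinuousOn Yq (Om h)
  bq : ∀ z ∈ Om h, |Yq z - 1| ≤ 11 / 10000
  bx : ∀ z ∈ Om h, |Yx z| ≤ V
  b0 : ∀ x ∈ Icc (-2 : ℝ) 2, |Y (x, 0)| ≤ 2 / 100 * h
  p0 : p (-3 / 2, 0) = 0
  ψ0 : ψ (-3 / 2, 0) = 0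

end Pool.Agent.Helper47.MA
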