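import Mathlib

set_option autoImplicit false

namespace Pool.Agent.Helper47.MA

open Set Real

/-- A smooth bump: one for `|t| ≤ 1/2`, zero for `|t| ≥ 1`. -/
noncomputable def bmp (t : ℝ) : ℝ := Real.smoothTransition (4 / 3 * (1 - t ^ 2))

theorem bmp_contDiff {n : ℕ∞} : ContDiff ℝ n bmp := by
  unfold bmp
  apply Real.smoothTransition.contDiff.comp
  fun_prop

theorem bmp_continuous : Continuous bmp := (bmp_contDiff (n := 0)).continuous

theorem bmp_nonneg (t : ℝ) : 0 ≤ bmp t := Real.smoothTransition.nonneg _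

theorem bmp_le_one (t : ℝ) : bmp t ≤ 1 := Real.smoothTransition.le_one _

theorem bmp_one {t : ℝ} (h : |t| ≤ 1 / 2) : bmp t = 1 := by
  apply Real.smoothTransition.one_of_one_le
  have := abs_le.1 h
  nlinarith [sq_nonneg t, this.1, this.2]

theorem bmp_zero {t : ℝ} (h : 1 ≤ |t|) : bmp t = 0 := by
  apply Real.smoothTransition.zero_of_nonpos
  have h1 : 1 ≤ t ^ 2 := by
    rw [← sq_abs]
    nlinarith
  nlinarith

/-- The profile of a well: `1 - t ^ 2` for `|t| ≤ 1/4`, zero for `|t| ≥ 1/2`. -/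
noncomputable def wl (t : ℝ) : ℝ := (1 - t ^ 2) * bmp (2 * t)

theorem wl_eq {t : ℝ} (h : |t| ≤ 1 / 4) : wl t = 1 - t ^ 2 := by
  unfold wl
  rw [bmp_one, mul_one]
  rw [abs_mul]
  norm_num
  linarith

theorem wl_zero {t : ℝ} (h : 1 / 2 ≤ |t|) : wl t = 0 := by
  unfold wl
  rw [bmp_zero, mul_zero]
  rw [abs_mul]
  norm_num
  linarith

theorem wl_nonneg (t : ℝ) : 0 ≤ wl t := by
  rcases le_total (1 / 2) |t| with h | h
  · rw [wl_zero h]
  · apply mul_nonneg _ (bmp_nonneg _)
    have := abs_le.1 h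
    nlinarith [this.1, this.2]

theorem wl_le_one (t : ℝ) : wl t ≤ 1 := by
  rcases le_total (1 / 2) |t| with h | h
  · rw [wl_zero h]
    norm_num
  · have := abs_le.1 h
    unfold wl
    have h1 : 1 - t ^ 2 ≤ 1 := by nlinarith [sq_nonneg t]
    have h2 : 0 ≤ 1 - t ^ 2 := by nlinarith [this.1, this.2]
    calc (1 - t ^ 2) * bmp (2 * t) ≤ 1 * 1 :=
          mul_le_mul h1 (bmp_le_one _) (bmp_nonneg _) (by norm_num)
      _ = 1 := by norm_num

/-- The elliptic part of the pattern, with wells at the points `j / (2 D)`. -/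
noncomputable def alp (D : ℕ) (x : ℝ) : ℝ := 1 - ∑ j : Fin D, wl (2 * D * x - (j : ℕ))

theorem alp_single {D : ℕ} {x : ℝ} (i : Fin D) (h : |2 * D * x - (i : ℕ)| ≤ 1 / 2) :
    alp D x = 1 - wl (2 * D * x - (i : ℕ)) := by
  unfold alp
  rw [Finset.sum_eq_single i]
  · intro j _ hj
    apply wl_zero
    have h1 : (1 : ℝ) ≤ |((i : ℕ) : ℝ) - ((j : ℕ) : ℝ)| := by
      have h2 : ((i : ℕ) : ℤ) - ((j : ℕ) : ℤ) ≠ 0 := by
        intro h3
        apply hj
        apply Fin.ext
        omega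
      have h4 := Int.one_le_abs h2
      exact_mod_cast h4
    have h5 : ((i : ℕ) : ℝ) - ((j : ℕ) : ℝ) = (2 * D * x - (j : ℕ)) - (2 * D * x - (i : ℕ)) := by
      ring
    rw [h5] at h1
    have h6 := abs_sub (2 * D * x - ((j : ℕ) : ℝ)) (2 * D * x - ((i : ℕ) : ℝ))
    linarith
  · intro h
    exact absurd (Finset.mem_univ i) h

theorem alp_none {D : ℕ} {x : ℝ} (h : ∀ i : Fin D, 1 / 2 < |2 * D * x - (i : ℕ)|) :
    alp D x = 1 := by
  unfold alp
  rw [Finset.sum_eq_zero]
  · ring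
  · intro j _
    exact wl_zero (h j).le

theorem alp_nonneg (D : ℕ) (x : ℝ) : 0 ≤ alp D x := by
  by_cases h : ∃ i : Fin D, |2 * D * x - (i : ℕ)| ≤ 1 / 2
  · obtain ⟨i, hi⟩ := h
    rw [alp_single i hi]
    have := wl_le_one (2 * D * x - (i : ℕ))
    linarith
  · push Not at h
    rw [alp_none h]
    norm_num

theorem alp_le_one (D : ℕ) (x : ℝ) : alp D x ≤ 1 := by
  unfold alp
  have : 0 ≤ ∑ j : Fin D, wl (2 * D * x - (j : ℕ)) := Finset.sum_nonneg (fun j _ => wl_nonneg _)
  linarith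

theorem alp_wall {D : ℕ} {x : ℝ} (hx : 1 ≤ |x|) : alp D x = 1 := by
  apply alp_none
  intro i
  have hD : ((i : ℕ) : ℝ) + 1 ≤ D := by exact_mod_cast i.2
  have hi : (0 : ℝ) ≤ ((i : ℕ) : ℝ) := Nat.cast_nonneg _
  rcases le_abs.1 hx with h | h
  · have : 2 * (D : ℝ) * 1 ≤ 2 * D * x := mul_le_mul_of_nonneg_left h (by linarith)
    rw [abs_of_nonneg (by linarith)]
    linarith
  · have : 2 * (D : ℝ) * 1 ≤ 2 * D * (-x) := mul_le_mul_of_nonneg_left h (by linarith)
    rw [abs_of_nonpos (by linarith)]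
    linarith

theorem alp_guide {D : ℕ} (j : Fin D) {x : ℝ} (h : |2 * D * x - (j : ℕ)| ≤ 1 / 4) :
    alp D x = (2 * D * x - (j : ℕ)) ^ 2 := by
  rw [alp_single j (h.trans (by norm_num)), wl_eq h]
  ring

theorem wl_contDiff {n : ℕ∞} : ContDiff ℝ n wl := by
  unfold wl
  apply ContDiff.mul
  · fun_prop
  · apply bmp_contDiff.comp
    fun_prop

theorem alp_contDiff {n : ℕ∞} (D : ℕ) : ContDiff ℝ n (alp D) := by
  unfold alp
  apply ContDiff.sub contDiff_const
  apply ContDiff.sum
  intro j _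
  apply wl_contDiff.comp
  fun_prop

/-- The pencil factor: `1 / (1 + x / 200)` for `|x| ≤ 6`. -/
noncomputable def tau (x : ℝ) : ℝ := (1 + x * bmp (x / 12) / 200)⁻¹

theorem tau_den_pos (x : ℝ) : 1 / 2 < 1 + x * bmp (x / 12) / 200 := by
  have h : |x * bmp (x / 12)| ≤ 12 := by
    rcases le_total 1 |x / 12| with h | h
    · rw [bmp_zero h]
      norm_num
    · rw [abs_mul, abs_of_nonneg (bmp_nonneg _)]
      have h1 : |x| ≤ 12 := by
        rw [abs_div] at h
        norm_num at h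
        linarith
      calc |x| * bmp (x / 12) ≤ 12 * 1 :=
            mul_le_mul h1 (bmp_le_one _) (bmp_nonneg _) (by norm_num)
        _ = 12 := by norm_num
  have := abs_le.1 h
  linarith [this.1]

theorem tau_contDiff {n : ℕ∞} : ContDiff ℝ n tau := by
  unfold tau
  apply ContDiff.inv
  · apply ContDiff.add contDiff_const
    apply ContDiff.div_const
    apply ContDiff.mul contDiff_id
    apply bmp_contDiff.comp
    fun_prop
  · intro x
    have := tau_den_pos x
    linarith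

theorem tau_eq {x : ℝ} (hx : |x| ≤ 6) : tau x = (1 + x / 200)⁻¹ := by
  unfold tau
  rw [bmp_one, mul_one]
  rw [abs_div]
  norm_num
  linarith

theorem tau_pos (x : ℝ) : 0 < tau x := by
  unfold tau
  have := tau_den_pos x
  positivity

theorem tau_bounds {x : ℝ} (hx : |x| ≤ 3 / 2) : 992 / 1000 ≤ tau x ∧ tau x ≤ 1008 / 1000 := by
  rw [tau_eq (hx.trans (by norm_num))]
  have h := abs_le.1 hx
  have h0 : 0 < 1 + x / 200 := by linarith [h.1]
  constructor
  · rw [le_inv_comm₀ (by norm_num) h0]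
    linarith [h.2]
  · rw [inv_le_comm₀ h0 (by norm_num)]
    have : ((1008 : ℝ) / 1000)⁻¹ = 1000 / 1008 := by norm_num
    rw [this]
    linarith [h.1]

/-- The periodic plateau. -/
noncomputable def mper (s : ℝ) : ℝ := Real.smoothTransition (1 + 3 / 2 * Real.cos (π * s))

theorem mper_continuous : Continuous mper := by
  unfold mper
  apply Real.smoothTransition.continuous.comp
  fun_prop

theorem mper_nonneg (s : ℝ) : 0 ≤ mper s := Real.smoothTransition.nonneg _
theorem mper_le_one (s : ℝ) : mper s ≤ 1 := Real.smoothTransition.le_one _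

theorem mper_neg (s : ℝ) : mper (-s) = mper s := by
  unfold mper
  rw [mul_neg, Real.cos_neg]

theorem mper_one {s : ℝ} (h : |s| ≤ 1 / 2) : mper s = 1 := by
  apply Real.smoothTransition.one_of_one_le
  have h1 : 0 ≤ Real.cos (π * s) := by
    apply Real.cos_nonneg_of_neg_pi_div_two_le_of_le
    · have := (abs_le.1 h).1
      nlinarith [Real.pi_pos]
    · have := (abs_le.1 h).2
      nlinarith [Real.pi_pos]
  linarith

theorem cos_le_of_mid {s : ℝ} (h1 : 3 / 4 ≤ s) (h2 : s ≤ 5 / 4) : Real.cos (π * s) ≤ -(2 / 3) := by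
  have h3 : Real.cos (π * s) = -Real.cos (π * s - π) := by
    rw [Real.cos_sub_pi]
    ring
  rw [h3]
  have h4 : Real.cos (π / 4) ≤ Real.cos (π * s - π) := by
    rw [← Real.cos_abs (π * s - π)]
    apply Real.cos_le_cos_of_nonneg_of_le_pi (abs_nonneg _)
    · linarith [Real.pi_pos]
    · rw [abs_le]
      constructor <;> nlinarith [Real.pi_pos]
  rw [Real.cos_pi_div_four] at h4
  have h5 : (4 / 3 : ℝ) ≤ Real.sqrt 2 := by
    apply Real.le_sqrt_of_sq_le
    norm_num
  linarith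

theorem mper_zero {s : ℝ} (h1 : 3 / 4 ≤ s) (h2 : s ≤ 5 / 4) : mper s = 0 := by
  apply Real.smoothTransition.zero_of_nonpos
  have := cos_le_of_mid h1 h2
  linarith

theorem mper_anti {s t : ℝ} (h0 : 0 ≤ s) (hst : s ≤ t) (h1 : t ≤ 1) : mper t ≤ mper s := by
  apply Real.smoothTransition.monotone
  have := Real.cos_le_cos_of_nonneg_of_le_pi (x := π * s) (y := π * t)
    (mul_nonneg Real.pi_pos.le h0) (by nlinarith [Real.pi_pos]) (by nlinarith [Real.pi_pos])
  linarith

/-- The primitive of the periodic plateau. -/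
noncomputable def Mi (s : ℝ) : ℝ := ∫ t in (0 : ℝ)..s, mper t

theorem Mi_hasDerivAt (s : ℝ) : HasDerivAt Mi (mper s) s := by
  apply intervalIntegral.integral_hasDerivAt_right
  · exact mper_continuous.intervalIntegrable _ _
  · exact mper_continuous.stronglyMeasurableAtFilter _ _
  · exact mper_continuous.continuousAt

theorem Mi_eq {s : ℝ} (h : |s| ≤ 1 / 2) : Mi s = s := by
  unfold Mi
  have : ∫ t in (0 : ℝ)..s, mper t = ∫ t in (0 : ℝ)..s, (1 : ℝ) := by
    apply intervalIntegral.integral_congr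
    intro t ht
    apply mper_one
    have h1 : |t - 0| ≤ |s - 0| := by
      have := Set.abs_sub_left_of_mem_uIcc ht
      simpa using this
    simp only [sub_zero] at h1
    linarith
  rw [this]
  simp

theorem Mi_const {s t : ℝ} (h1 : 3 / 4 ≤ s) (h2 : s ≤ 5 / 4) (h3 : 3 / 4 ≤ t) (h4 : t ≤ 5 / 4) :
    Mi s = Mi t := by
  unfold Mi
  have h5 : (∫ u in (0 : ℝ)..s, mper u) - ∫ u in (0 : ℝ)..t, mper u = ∫ u in t..s, mper u :=
    intervalIntegral.integral_interval_sub_left (mper_continuous.intervalIntegrable _ _)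
      (mper_continuous.intervalIntegrable _ _)
  have h6 : ∫ u in t..s, mper u = ∫ u in t..s, (0 : ℝ) := by
    apply intervalIntegral.integral_congr
    intro u hu
    have hu2 : u ∈ Icc (3 / 4 : ℝ) (5 / 4) := (uIcc_subset_Icc ⟨h3, h4⟩ ⟨h1, h2⟩) hu
    exact mper_zero hu2.1 hu2.2
  rw [h6] at h5
  simp at h5
  linarith

/-- The profile of a bump in the variable `s`. -/
noncomputable def bs (r s : ℝ) : ℝ := Real.smoothTransition (2 - (1 - Real.cos (π * s)) / r ^ 2)

/-- The derivative of the profile of a bump. -/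
noncomputable def bs' (r s : ℝ) : ℝ :=
  deriv Real.smoothTransition (2 - (1 - Real.cos (π * s)) / r ^ 2) *
    (-(π * Real.sin (π * s)) / r ^ 2)

theorem bs_hasDerivAt (r s : ℝ) : HasDerivAt (bs r) (bs' r s) s := by
  have h1 : HasDerivAt Real.smoothTransition
      (deriv Real.smoothTransition (2 - (1 - Real.cos (π * s)) / r ^ 2))
      (2 - (1 - Real.cos (π * s)) / r ^ 2) := by
    apply DifferentiableAt.hasDerivAt
    exact (Real.smoothTransition.contDiff (n := 1)).differentiable (by norm_num) _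
  have h2 : HasDerivAt (fun s : ℝ => 2 - (1 - Real.cos (π * s)) / r ^ 2)
      (-(π * Real.sin (π * s)) / r ^ 2) s := by
    have h3 : HasDerivAt (fun s : ℝ => π * s) π s := by
      simpa using (hasDerivAt_id s).const_mul π
    have h4 := (((h3.cos).const_sub 1).div_const (r ^ 2)).const_sub 2
    exact h4.congr_deriv (by ring)
  exact h1.comp s h2

theorem bs_nonneg (r s : ℝ) : 0 ≤ bs r s := Real.smoothTransition.nonneg _
theorem bs_le_one (r s : ℝ) : bs r s ≤ 1 := Real.smoothTransition.le_one _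

theorem deriv_st_zero {x : ℝ} (hx : x ≤ 0) : deriv Real.smoothTransition x = 0 := by
  apply IsLocalMin.deriv_eq_zero
  apply Filter.Eventually.of_forall
  intro y
  rw [Real.smoothTransition.zero_of_nonpos hx]
  exact Real.smoothTransition.nonneg y

theorem two_sq_le {s : ℝ} (h : |s| ≤ 1) : 2 * s ^ 2 ≤ 1 - Real.cos (π * s) := by
  have h0 : |π * s| ≤ π := by
    rw [abs_mul, abs_of_pos Real.pi_pos]
    nlinarith [Real.pi_pos]
  have h1 := Real.cos_le_one_sub_mul_cos_sq h0
  have h2 : 2 / π ^ 2 * (π * s) ^ 2 = 2 * s ^ 2 := by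
    have := Real.pi_ne_zero
    field_simp
  rw [h2] at h1
  linarith

theorem le_five_sq (s : ℝ) : 1 - Real.cos (π * s) ≤ 5 * s ^ 2 := by
  have h1 := Real.one_sub_sq_div_two_le_cos (x := π * s)
  have h2 : (π * s) ^ 2 ≤ 10 * s ^ 2 := by
    rw [mul_pow]
    apply mul_le_mul_of_nonneg_right _ (sq_nonneg s)
    have := Real.pi_lt_d2
    have := Real.pi_pos
    nlinarith
  linarith

theorem bs_arg_nonpos {r s : ℝ} (hr : 0 < r) (hr1 : r ≤ 1 / 2) (h1 : r ≤ |s|) (h2 : |s| ≤ 5 / 4) :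
    2 - (1 - Real.cos (π * s)) / r ^ 2 ≤ 0 := by
  have hr2 : 0 < r ^ 2 := by positivity
  have h3 : 2 * r ^ 2 ≤ 1 - Real.cos (π * s) := by
    rcases le_total |s| 1 with h | h
    · have h4 := two_sq_le h
      have h5 : r ^ 2 ≤ s ^ 2 := by
        rw [← sq_abs s]
        exact pow_le_pow_left₀ hr.le h1 2
      linarith
    · have h4 := cos_le_of_mid (s := |s|) (by linarith) h2
      have h5 : Real.cos (π * |s|) = Real.cos (π * s) := by
        rcases abs_choice s with h6 | h6
        · rw [h6]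
        · rw [h6, mul_neg, Real.cos_neg]
      rw [h5] at h4
      nlinarith
  have h4 : 2 ≤ (1 - Real.cos (π * s)) / r ^ 2 := by
    rw [le_div_iff₀ hr2]
    exact h3
  linarith

theorem bs'_zero {r s : ℝ} (hr : 0 < r) (hr1 : r ≤ 1 / 2) (h1 : r ≤ |s|) (h2 : |s| ≤ 5 / 4) :
    bs' r s = 0 := by
  unfold bs'
  rw [deriv_st_zero (bs_arg_nonpos hr hr1 h1 h2), zero_mul]

theorem bs_zero {r s : ℝ} (hr : 0 < r) (hr1 : r ≤ 1 / 2) (h1 : r ≤ |s|) (h2 : |s| ≤ 5 / 4) :
    bs r s = 0 :=
  Real.smoothTransition.zero_of_nonpos (bs_arg_nonpos hr hr1 h1 h2)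

theorem bs_one {r s : ℝ} (hr : 0 < r) (h1 : |s| ≤ r / 3) : bs r s = 1 := by
  apply Real.smoothTransition.one_of_one_le
  have h2 := le_five_sq s
  have h3 : s ^ 2 ≤ r ^ 2 / 9 := by
    rw [← sq_abs s]
    have := pow_le_pow_left₀ (abs_nonneg s) h1 2
    linarith
  have hr2 : 0 < r ^ 2 := by positivity
  have h4 : (1 - Real.cos (π * s)) / r ^ 2 ≤ 1 := by
    rw [div_le_iff₀ hr2]
    linarith
  linarith

theorem bs_continuous (r : ℝ) : Continuous (bs r) := by
  unfold bs
  apply Real.smoothTransition.continuous.comp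
  fun_prop

theorem st_deriv_continuous : Continuous (deriv Real.smoothTransition) :=
  (Real.smoothTransition.contDiff (n := 1)).continuous_deriv (by norm_num)

theorem bs'_continuous (r : ℝ) : Continuous (bs' r) := by
  unfold bs'
  apply Continuous.mul
  · apply st_deriv_continuous.comp
    fun_prop
  · fun_prop

/-- The bump at the guide `j`. -/
noncomputable def Fb (D : ℕ) (h r ρ : ℝ) (j : Fin D) (x y : ℝ) : ℝ :=
  ρ * bmp (2 * (x - (j : ℕ) / (2 * D)) / r) * bs r (tau x * y / h)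

/-- The derivative in `y` of the bump at the guide `j`. -/
noncomputable def fb (D : ℕ) (h r ρ : ℝ) (j : Fin D) (x y : ℝ) : ℝ :=
  ρ * bmp (2 * (x - (j : ℕ) / (2 * D)) / r) * (bs' r (tau x * y / h) * (tau x / h))

theorem Fb_hasDerivAt (D : ℕ) (h r ρ : ℝ) (j : Fin D) (x y : ℝ) :
    HasDerivAt (Fb D h r ρ j x) (fb D h r ρ j x y) y := by
  have h1 : HasDerivAt (fun y : ℝ => tau x * y / h) (tau x / h) y := by
    have := ((hasDerivAt_id y).const_mul (tau x)).div_const h
    simpa using this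
  exact ((bs_hasDerivAt r (tau x * y / h)).comp y h1).const_mul _

/-- The pattern without bumps. -/
noncomputable def k0 (D : ℕ) (h μ x y : ℝ) : ℝ := alp D x - μ * bmp x * mper (tau x * y / h)

/-- The primitive in `y` of the pattern without bumps. -/
noncomputable def KK (D : ℕ) (h μ x y : ℝ) : ℝ :=
  alp D x * y - μ * bmp x * (h / tau x) * Mi (tau x * y / h)

theorem KK_hasDerivAt (D : ℕ) {h : ℝ} (hh : h ≠ 0) (μ x y : ℝ) :
    HasDerivAt (KK D h μ x) (k0 D h μ x y) y := by
  have h1 : HasDerivAt (fun y : ℝ => tau x * y / h) (tau x / h) y := by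
    have := ((hasDerivAt_id y).const_mul (tau x)).div_const h
    simpa using this
  have h2 := ((Mi_hasDerivAt (tau x * y / h)).comp y h1).const_mul (μ * bmp x * (h / tau x))
  have h3 : HasDerivAt (fun y : ℝ => alp D x * y) (alp D x) y := by
    simpa using (hasDerivAt_id y).const_mul (alp D x)
  have h4 := h3.sub h2
  refine h4.congr_deriv ?_
  unfold k0
  have := (tau_pos x).ne'
  field_simp

/-- The pattern. -/
noncomputable def kk (D : ℕ) (h μ r ρ : ℝ) (θ : Fin D → Bool) (x y : ℝ) : ℝ :=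
  k0 D h μ x y + ∑ j : Fin D, (if θ j then 1 else 0) * fb D h r ρ j x y

theorem kk_eq_k0 {D : ℕ} {h μ r ρ : ℝ} (hr : 0 < r) (hr1 : r ≤ 1 / 2) (θ : Fin D → Bool)
    {x y : ℝ} (h1 : r ≤ |tau x * y / h|) (h2 : |tau x * y / h| ≤ 5 / 4) :
    kk D h μ r ρ θ x y = k0 D h μ x y := by
  unfold kk
  rw [Finset.sum_eq_zero, add_zero]
  intro j _
  unfold fb
  rw [bs'_zero hr hr1 h1 h2]
  ring

theorem kk_wall {D : ℕ} {h μ r ρ : ℝ} (hr : 0 < r) (hr1 : r ≤ 1 / 2) (θ : Fin D → Bool)
    {x y : ℝ} (hx : 1 ≤ |x|) : kk D h μ r ρ θ x y = 1 := by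
  unfold kk k0
  rw [alp_wall hx, bmp_zero hx, Finset.sum_eq_zero]
  · ring
  · intro j _
    unfold fb
    rw [bmp_zero]
    · ring
    · have hj : ((j : ℕ) : ℝ) + 1 ≤ D := by exact_mod_cast j.2
      have hj0 : (0 : ℝ) ≤ ((j : ℕ) : ℝ) := Nat.cast_nonneg _
      have hD : (0 : ℝ) < D := by linarith
      have h1 : ((j : ℕ) : ℝ) / (2 * D) ≤ 1 / 2 := by
        rw [div_le_iff₀ (by linarith)]
        linarith
      have h2 : 0 ≤ ((j : ℕ) : ℝ) / (2 * D) := by positivity
      have h3 : 1 / 2 ≤ |x - ((j : ℕ) : ℝ) / (2 * D)| := by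
        rcases le_abs.1 hx with h | h
        · rw [abs_of_nonneg (by linarith)]
          linarith
        · rw [abs_of_nonpos (by linarith)]
          linarith
      rw [abs_div, abs_mul, abs_of_pos hr, abs_of_pos (by norm_num : (0 : ℝ) < 2),
        le_div_iff₀ hr]
      linarith

theorem k0_even (D : ℕ) (h μ x y : ℝ) : k0 D h μ x (-y) = k0 D h μ x y := by
  unfold k0
  have : tau x * -y / h = -(tau x * y / h) := by ring
  rw [this, mper_neg]

/-- Near the guide `j` only the bump `j` is present. -/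
theorem kk_guide {D : ℕ} {h μ r ρ : ℝ} (hr : 0 < r) (hrD : r * D ≤ 1 / 4) (θ : Fin D → Bool)
    (j : Fin D) {x y : ℝ} (hx : |2 * D * x - (j : ℕ)| ≤ 1 / 4) :
    kk D h μ r ρ θ x y = k0 D h μ x y + (if θ j then 1 else 0) * fb D h r ρ j x y := by
  unfold kk
  rw [Finset.sum_eq_single j]
  · intro i _ hi
    have hD : (0 : ℝ) < D := by
      have : 0 < D := lt_of_le_of_lt (Nat.zero_le _) j.2
      exact_mod_cast this
    unfold fb
    rw [bmp_zero]
    · ring
    · have h1 : (1 : ℝ) ≤ |((j : ℕ) : ℝ) - ((i : ℕ) : ℝ)| := by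
        have h2 : ((j : ℕ) : ℤ) - ((i : ℕ) : ℤ) ≠ 0 := by
          intro h3
          apply hi
          apply Fin.ext
          omega
        have h4 := Int.one_le_abs h2
        exact_mod_cast h4
      have h5 : ((j : ℕ) : ℝ) - ((i : ℕ) : ℝ) =
          (2 * D * x - (i : ℕ)) - (2 * D * x - (j : ℕ)) := by ring
      rw [h5] at h1
      have h6 := abs_sub (2 * D * x - ((i : ℕ) : ℝ)) (2 * D * x - ((j : ℕ) : ℝ))
      have h7 : 3 / 4 ≤ |2 * D * x - ((i : ℕ) : ℝ)| := by linarith
      have h8 : 2 * D * x - ((i : ℕ) : ℝ) = 2 * D * (x - (i : ℕ) / (2 * D)) := by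
        field_simp
      rw [h8, abs_mul, abs_of_pos (by linarith : (0 : ℝ) < 2 * D)] at h7
      rw [abs_div, abs_mul, abs_of_pos hr, abs_of_pos (by norm_num : (0 : ℝ) < 2),
        le_div_iff₀ hr]
      have h9 : r * D ≤ D * |x - (i : ℕ) / (2 * D)| := by
        linarith
      have h10 : r ≤ |x - (i : ℕ) / (2 * D)| := by
        have : D * r ≤ D * |x - (i : ℕ) / (2 * D)| := by linarith
        exact le_of_mul_le_mul_left this hD
      have := abs_nonneg (x - (i : ℕ) / (2 * D))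
      linarith
  · intro h
    exact absurd (Finset.mem_univ j) h

theorem k0_abs_le {D : ℕ} {h μ : ℝ} (hμ : 0 ≤ μ) (hμ1 : μ ≤ 1) (x y : ℝ) :
    |k0 D h μ x y| ≤ 1 := by
  unfold k0
  have h1 := alp_nonneg D x
  have h2 := alp_le_one D x
  have h3 : 0 ≤ μ * bmp x * mper (tau x * y / h) :=
    mul_nonneg (mul_nonneg hμ (bmp_nonneg _)) (mper_nonneg _)
  have h4 : μ * bmp x * mper (tau x * y / h) ≤ 1 := by
    have h5 : μ * bmp x ≤ 1 := by
      calc μ * bmp x ≤ 1 * 1 := mul_le_mul hμ1 (bmp_le_one _) (bmp_nonneg _) (by norm_num)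
        _ = 1 := by norm_num
    calc μ * bmp x * mper (tau x * y / h) ≤ 1 * 1 :=
          mul_le_mul h5 (mper_le_one _) (mper_nonneg _) (by norm_num)
      _ = 1 := by norm_num
  rw [abs_le]
  constructor <;> linarith

theorem k0_continuous (D : ℕ) (h μ : ℝ) : Continuous (fun z : ℝ × ℝ => k0 D h μ z.1 z.2) := by
  unfold k0
  have h1 : Continuous tau := (tau_contDiff (n := 0)).continuous
  have h2 : Continuous (alp D) := (alp_contDiff (n := 0) D).continuous
  have h3 := bmp_continuous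
  have h4 := mper_continuous
  fun_prop

theorem KK_continuous (D : ℕ) (h μ : ℝ) : Continuous (fun z : ℝ × ℝ => KK D h μ z.1 z.2) := by
  unfold KK
  have h1 : Continuous tau := (tau_contDiff (n := 0)).continuous
  have h2 : Continuous (alp D) := (alp_contDiff (n := 0) D).continuous
  have h3 := bmp_continuous
  have h4 : Continuous Mi := continuous_iff_continuousAt.2 (fun s => (Mi_hasDerivAt s).continuousAt)
  have h5 : ∀ z : ℝ × ℝ, tau z.1 ≠ 0 := fun z => (tau_pos z.1).ne'
  fun_prop (disch := assumption)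

theorem Fb_continuous (D : ℕ) (h r ρ : ℝ) (j : Fin D) :
    Continuous (fun z : ℝ × ℝ => Fb D h r ρ j z.1 z.2) := by
  unfold Fb
  have h1 : Continuous tau := (tau_contDiff (n := 0)).continuous
  have h3 := bmp_continuous
  have h4 := bs_continuous r
  fun_prop

theorem fb_continuous (D : ℕ) (h r ρ : ℝ) (j : Fin D) :
    Continuous (fun z : ℝ × ℝ => fb D h r ρ j z.1 z.2) := by
  unfold fb
  have h1 : Continuous tau := (tau_contDiff (n := 0)).continuous
  have h3 := bmp_continuous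
  have h4 := bs'_continuous r
  fun_prop

end Pool.Agent.Helper47.MA
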