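import Mathlib
import Pool.Agent.Helper47.MA.Defs
import Pool.Agent.Helper47.MA.Pattern

set_option autoImplicit false

namespace Pool.Agent.Helper47.MA

/-- For suitable parameters there is a code `θ` such that the pattern with code `θ` has no
normalised solution. -/
def ThetaStatement : Prop :=
  ∀ κ b : ℕ, 2 ≤ κ → 4 * κ + 1 ≤ b → ∃ H D0 L : ℕ, 1 ≤ H ∧ 1 ≤ D0 ∧ ∀ ℓ ≥ L,
    ∃ θ : Fin (D0 * ℓ ^ 3) → Bool, ¬ ∃ Y p ψ Yx Yq : ℝ × ℝ → ℝ,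
      Sol (kk (D0 * ℓ ^ 3) ((H : ℝ) * ℓ) ((1 / 2) ^ (κ * ℓ)) ((1 / 2) ^ (2 * κ * ℓ))
        ((1 / 2) ^ (b * ℓ)) θ) (2 ^ ℓ) ((H : ℝ) * ℓ) Y p ψ Yx Yq

end Pool.Agent.Helper47.MA
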