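import Mathlib

set_option autoImplicit false

namespace Pool.Agent.Helper47.MA

open Set MeasureTheory Filter Topology

/-- Continuity of an integral with a parameter. -/
theorem continuousOn_param_integral {a b : ℝ} (hab : a ≤ b) {J : Set ℝ} (hJ : IsOpen J)
    (f : ℝ × ℝ → ℝ) (hc : ContinuousOn f (Icc a b ×ˢ J)) :
    ContinuousOn (fun q => ∫ x in a..b, f (x, q)) J := by
  intro q0 hq0
  apply ContinuousAt.continuousWithinAt
  obtain ⟨ε, hε, hball⟩ := Metric.isOpen_iff.1 hJ q0 hq0
  have hK : IsCompact (Icc a b ×ˢ Metric.closedBall q0 (ε / 2)) :=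
    isCompact_Icc.prod (isCompact_closedBall q0 (ε / 2))
  have hsub : Icc a b ×ˢ Metric.closedBall q0 (ε / 2) ⊆ Icc a b ×ˢ J := by
    apply prod_mono (subset_refl _)
    exact (Metric.closedBall_subset_ball (by linarith)).trans hball
  obtain ⟨C, hC⟩ := hK.exists_bound_of_continuousOn (hc.mono hsub)
  have hnear : ∀ᶠ q in 𝓝 q0, q ∈ Metric.closedBall q0 (ε / 2) :=
    Metric.closedBall_mem_nhds q0 (by linarith)
  apply intervalIntegral.continuousAt_of_dominated_interval (bound := fun _ => C)
  · filter_upwards [hnear] with q hq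
    apply ContinuousOn.aestronglyMeasurable _ measurableSet_uIoc
    have h1 : ContinuousOn (fun x => f (x, q)) (Icc a b) := by
      apply hc.comp (by fun_prop)
      intro x hx
      exact (hsub ⟨hx, hq⟩)
    apply h1.mono
    rw [uIoc_of_le hab]
    exact Ioc_subset_Icc_self
  · filter_upwards [hnear] with q hq
    apply ae_of_all
    intro x hx
    rw [uIoc_of_le hab] at hx
    exact hC (x, q) ⟨Ioc_subset_Icc_self hx, hq⟩
  · exact intervalIntegrable_const
  · apply ae_of_all
    intro x hx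
    rw [uIoc_of_le hab] at hx
    have h1 : ContinuousOn (fun q => f (x, q)) J := by
      apply hc.comp (by fun_prop)
      intro q hq
      exact ⟨Ioc_subset_Icc_self hx, hq⟩
    exact h1.continuousAt (hJ.mem_nhds hq0)

/-- Differentiation under the integral sign. -/
theorem leib {a b : ℝ} (hab : a ≤ b) {J : Set ℝ} (hJ : IsOpen J) (f f' : ℝ × ℝ → ℝ)
    (hf : ContinuousOn f (Icc a b ×ˢ J))
    (hd : ∀ x ∈ Icc a b, ∀ q ∈ J, HasDerivAt (fun q => f (x, q)) (f' (x, q)) q)
    (hc : ContinuousOn f' (Icc a b ×ˢ J)) {q0 : ℝ} (hq0 : q0 ∈ J) :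
    HasDerivAt (fun q => ∫ x in a..b, f (x, q)) (∫ x in a..b, f' (x, q0)) q0 := by
  obtain ⟨ε, hε, hball⟩ := Metric.isOpen_iff.1 hJ q0 hq0
  have hK : IsCompact (Icc a b ×ˢ Metric.closedBall q0 (ε / 2)) :=
    isCompact_Icc.prod (isCompact_closedBall q0 (ε / 2))
  have hsub : Icc a b ×ˢ Metric.closedBall q0 (ε / 2) ⊆ Icc a b ×ˢ J := by
    apply prod_mono (subset_refl _)
    exact (Metric.closedBall_subset_ball (by linarith)).trans hball
  obtain ⟨C, hC⟩ := hK.exists_bound_of_continuousOn (hc.mono hsub)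
  have hs : ∀ g : ℝ × ℝ → ℝ, ContinuousOn g (Icc a b ×ˢ J) → ∀ q ∈ J,
      ContinuousOn (fun x => g (x, q)) (Icc a b) := by
    intro g hg q hq
    apply hg.comp (by fun_prop)
    intro x hx
    exact ⟨hx, hq⟩
  have hmeas : ∀ g : ℝ × ℝ → ℝ, ContinuousOn g (Icc a b ×ˢ J) → ∀ q ∈ J,
      AEStronglyMeasurable (fun x => g (x, q)) (volume.restrict (uIoc a b)) := by
    intro g hg q hq
    apply ContinuousOn.aestronglyMeasurable _ measurableSet_uIoc
    apply (hs g hg q hq).mono
    rw [uIoc_of_le hab]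
    exact Ioc_subset_Icc_self
  have hb : Metric.ball q0 (ε / 2) ∈ 𝓝 q0 := Metric.ball_mem_nhds q0 (by linarith)
  have hbJ : ∀ q ∈ Metric.ball q0 (ε / 2), q ∈ J := by
    intro q hq
    exact hball (Metric.ball_subset_ball (by linarith) hq)
  have := intervalIntegral.hasDerivAt_integral_of_dominated_loc_of_deriv_le (μ := volume)
    (F := fun q x => f (x, q)) (F' := fun q x => f' (x, q)) (bound := fun _ => C) hb
    (by filter_upwards [hJ.mem_nhds hq0] with q hq using hmeas f hf q hq)
    (by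
      apply ContinuousOn.intervalIntegrable
      rw [uIcc_of_le hab]
      exact hs f hf q0 hq0)
    (hmeas f' hc q0 hq0)
    (by
      apply ae_of_all
      intro x hx q hq
      rw [uIoc_of_le hab] at hx
      exact hC (x, q) ⟨Ioc_subset_Icc_self hx, Metric.ball_subset_closedBall hq⟩)
    intervalIntegrable_const
    (by
      apply ae_of_all
      intro x hx q hq
      rw [uIoc_of_le hab] at hx
      exact hd x (Ioc_subset_Icc_self hx) q (hbJ q hq))
  exact this.2

/-- Slices of a continuous function are integrable. -/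
theorem ii_slice {a b : ℝ} (hab : a ≤ b) {J : Set ℝ} {f : ℝ × ℝ → ℝ}
    (hc : ContinuousOn f (Icc a b ×ˢ J)) {q : ℝ} (hq : q ∈ J) :
    IntervalIntegrable (fun x => f (x, q)) volume a b := by
  apply ContinuousOn.intervalIntegrable
  rw [uIcc_of_le hab]
  apply hc.comp (by fun_prop)
  intro x hx
  exact ⟨hx, hq⟩

/-- Second differences of a function with second derivative at least `m`. -/
theorem second_diff {Q Q1 Q2 : ℝ → ℝ} {a t m : ℝ} (ht : 0 ≤ t)
    (h0 : ContinuousOn Q (Icc a (a + 2 * t)))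
    (h1 : ∀ x ∈ Ioo a (a + 2 * t), HasDerivAt Q (Q1 x) x)
    (h2 : ∀ x ∈ Ioo a (a + 2 * t), HasDerivAt Q1 (Q2 x) x)
    (hm : ∀ x ∈ Ioo a (a + 2 * t), m ≤ Q2 x) :
    m * t ^ 2 ≤ Q a - 2 * Q (a + t) + Q (a + 2 * t) := by
  rcases ht.eq_or_lt with rfl | ht
  · simp
    linarith
  -- Q1 increments
  have hinc : ∀ x ∈ Ioo a (a + 2 * t), ∀ y ∈ Ioo a (a + 2 * t), x < y →
      m * (y - x) ≤ Q1 y - Q1 x := by
    intro x hx y hy hxy
    obtain ⟨c, hc, hc2⟩ := exists_hasDerivAt_eq_slope Q1 Q2 hxy
      (fun z hz => (h2 z ⟨hx.1.trans_le hz.1, hz.2.trans_lt hy.2⟩).continuousAt.continuousWithinAt)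
      (fun z hz => h2 z ⟨hx.1.trans hz.1, hz.2.trans hy.2⟩)
    have h3 := hm c ⟨hx.1.trans hc.1, hc.2.trans hy.2⟩
    rw [hc2, le_div_iff₀ (by linarith)] at h3
    exact h3
  -- R(s) = Q(a + t + s) - Q(a + s)
  have hR : ∀ s ∈ Ioo 0 t, HasDerivAt (fun s => Q (a + t + s) - Q (a + s))
      (Q1 (a + t + s) - Q1 (a + s)) s := by
    intro s hs
    have e1 : HasDerivAt (fun s : ℝ => a + t + s) 1 s := by
      simpa using (hasDerivAt_id s).const_add (a + t)
    have e2 : HasDerivAt (fun s : ℝ => a + s) 1 s := by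
      simpa using (hasDerivAt_id s).const_add a
    have e3 := (h1 (a + t + s) ⟨by linarith [hs.1], by linarith [hs.2]⟩).comp s e1
    have e4 := (h1 (a + s) ⟨by linarith [hs.1], by linarith [hs.2]⟩).comp s e2
    exact (e3.sub e4).congr_deriv (by ring)
  obtain ⟨c, hc, hc2⟩ := exists_hasDerivAt_eq_slope (fun s => Q (a + t + s) - Q (a + s))
    (fun s => Q1 (a + t + s) - Q1 (a + s)) ht
    (by
      apply ContinuousOn.sub
      · apply h0.comp (by fun_prop)
        intro s hs
        exact ⟨by linarith [hs.1], by linarith [hs.2]⟩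
      · apply h0.comp (by fun_prop)
        intro s hs
        exact ⟨by linarith [hs.1], by linarith [hs.2]⟩) hR
  have h3 := hinc (a + c) ⟨by linarith [hc.1], by linarith [hc.2]⟩ (a + t + c)
    ⟨by linarith [hc.1], by linarith [hc.2]⟩ (by linarith)
  have h4 : Q1 (a + t + c) - Q1 (a + c) = (Q (a + t + t) - Q (a + t) - (Q (a + t) - Q a)) / t := by
    rw [hc2]
    simp
  have h5 : m * (a + t + c - (a + c)) = m * t := by ring
  rw [h5, h4, le_div_iff₀ ht] at h3
  have h6 : a + t + t = a + 2 * t := by ring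
  rw [h6] at h3
  nlinarith [h3]

/-- The primitive of a function continuous on a closed interval. -/
theorem hasDerivAt_primitive {c d : ℝ} {N : ℝ → ℝ} (hN : ContinuousOn N (Icc c d)) {q : ℝ}
    (hq : q ∈ Ioo c d) : HasDerivAt (fun q => ∫ s in c..q, N s) (N q) q := by
  apply intervalIntegral.integral_hasDerivAt_right
  · apply ContinuousOn.intervalIntegrable
    rw [uIcc_of_le hq.1.le]
    exact hN.mono (Icc_subset_Icc le_rfl hq.2.le)
  · exact (hN.mono Ioo_subset_Icc_self).stronglyMeasurableAtFilter isOpen_Ioo q hq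
  · exact hN.continuousAt (Icc_mem_nhds hq.1 hq.2)

/-- One step of the decay estimate. -/
theorem decay_step {c d η : ℝ} (hcd : c + 12 ≤ d) {g G G' N : ℝ → ℝ}
    (hg : ContinuousOn g (Icc c d)) (hG' : ContinuousOn G' (Icc c d))
    (g0 : ∀ q ∈ Icc c d, 0 ≤ g q)
    (hN : ∀ q ∈ Icc c d, HasDerivAt N (4 * G q) q)
    (hG : ∀ q ∈ Icc c d, HasDerivAt G (G' q) q)
    (hle : ∀ q ∈ Icc c d, g q ≤ G' q + η)
    (hNb : ∀ q ∈ Icc c d, |N q| ≤ 18 * g q + η) (hη : 0 ≤ η) :
    ∫ q in (c + 6)..(d - 6), g q ≤ 1 / 2 * (∫ q in c..d, g q) + 2 * η * (d - c) := by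
  have hNc : ContinuousOn N (Icc c d) := fun q hq => (hN q hq).continuousAt.continuousWithinAt
  have ii : ∀ {f : ℝ → ℝ}, ContinuousOn f (Icc c d) → ∀ {x y : ℝ}, x ∈ Icc c d → y ∈ Icc c d →
      IntervalIntegrable f volume x y := by
    intro f hf x y hx hy
    apply ContinuousOn.intervalIntegrable
    apply hf.mono
    exact uIcc_subset_Icc hx hy
  set M : ℝ → ℝ := fun q => ∫ s in c..q, N s with hM
  have hMc : ContinuousOn M (Icc c d) := by
    have h1 := intervalIntegral.continuousOn_primitive_interval (μ := volume) (f := N) (a := c)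
      (b := d) (by
        rw [uIcc_of_le (by linarith)]
        exact hNc.integrableOn_Icc)
    rwa [uIcc_of_le (by linarith)] at h1
  set X : ℝ := ∫ q in (c + 6)..(d - 6), g q with hX
  have key := second_diff (Q := fun s => M (d - s) - M (c + s)) (Q1 := fun s => -N (d - s) - N (c + s))
    (Q2 := fun s => 4 * G (d - s) - 4 * G (c + s)) (a := 0) (t := 3) (m := 4 * (X - η * (d - c)))
    (by norm_num)
    (by
      apply ContinuousOn.sub
      · apply hMc.comp (by fun_prop)
        intro s hs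
        exact ⟨by linarith [hs.2], by linarith [hs.1]⟩
      · apply hMc.comp (by fun_prop)
        intro s hs
        exact ⟨by linarith [hs.1], by linarith [hs.2]⟩)
    (by
      intro s hs
      have e1 : HasDerivAt (fun s : ℝ => d - s) (-1) s := by
        simpa using (hasDerivAt_id s).const_sub d
      have e2 : HasDerivAt (fun s : ℝ => c + s) 1 s := by
        simpa using (hasDerivAt_id s).const_add c
      have e3 := (hasDerivAt_primitive hNc (q := d - s)
        ⟨by linarith [hs.2], by linarith [hs.1]⟩).comp s e1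
      have e4 := (hasDerivAt_primitive hNc (q := c + s)
        ⟨by linarith [hs.1], by linarith [hs.2]⟩).comp s e2
      exact (e3.sub e4).congr_deriv (by ring))
    (by
      intro s hs
      have e1 : HasDerivAt (fun s : ℝ => d - s) (-1) s := by
        simpa using (hasDerivAt_id s).const_sub d
      have e2 : HasDerivAt (fun s : ℝ => c + s) 1 s := by
        simpa using (hasDerivAt_id s).const_add c
      have e3 := (hN (d - s) ⟨by linarith [hs.2], by linarith [hs.1]⟩).comp s e1
      have e4 := (hN (c + s) ⟨by linarith [hs.1], by linarith [hs.2]⟩).comp s e2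
      exact (e3.neg.sub e4).congr_deriv (by ring))
    (by
      intro s hs
      have hs1 : c + s ∈ Icc c d := ⟨by linarith [hs.1], by linarith [hs.2]⟩
      have hs2 : d - s ∈ Icc c d := ⟨by linarith [hs.2], by linarith [hs.1]⟩
      have hs3 : c + 6 ∈ Icc c d := ⟨by linarith, by linarith⟩
      have hs4 : d - 6 ∈ Icc c d := ⟨by linarith, by linarith⟩
      have hle1 : c + s ≤ d - s := by linarith [hs.2]
      have h1 : G (d - s) - G (c + s) = ∫ q in (c + s)..(d - s), G' q := by
        rw [intervalIntegral.integral_eq_sub_of_hasDerivAt]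
        · intro q hq
          rw [uIcc_of_le hle1] at hq
          exact hG q ⟨hs1.1.trans hq.1, hq.2.trans hs2.2⟩
        · exact ii hG' hs1 hs2
      have h2 : ∫ q in (c + s)..(d - s), (g q - η) ≤ ∫ q in (c + s)..(d - s), G' q := by
        apply intervalIntegral.integral_mono_on hle1 ((ii hg hs1 hs2).sub intervalIntegrable_const)
          (ii hG' hs1 hs2)
        intro q hq
        have := hle q ⟨hs1.1.trans hq.1, hq.2.trans hs2.2⟩
        linarith
      rw [intervalIntegral.integral_sub (ii hg hs1 hs2) intervalIntegrable_const,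
        intervalIntegral.integral_const, smul_eq_mul] at h2
      have h3 : X ≤ ∫ q in (c + s)..(d - s), g q := by
        rw [hX]
        apply intervalIntegral.integral_mono_interval (by linarith [hs.2]) (by linarith)
          (by linarith [hs.2]) _ (ii hg hs1 hs2)
        filter_upwards [ae_restrict_mem measurableSet_Ioc] with q hq
        exact g0 q ⟨hs1.1.trans hq.1.le, hq.2.trans hs2.2⟩
      have h4 : (d - s - (c + s)) * η ≤ η * (d - c) := by nlinarith [hs.1]
      linarith)
  simp only [sub_zero, add_zero, zero_add] at key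
  -- evaluate the second difference
  have hcc : c ∈ Icc c d := ⟨le_rfl, by linarith⟩
  have hdd : d ∈ Icc c d := ⟨by linarith, le_rfl⟩
  have m1 : c + 3 ∈ Icc c d := ⟨by linarith, by linarith⟩
  have m2 : c + 6 ∈ Icc c d := ⟨by linarith, by linarith⟩
  have m3 : d - 6 ∈ Icc c d := ⟨by linarith, by linarith⟩
  have m4 : d - 3 ∈ Icc c d := ⟨by linarith, by linarith⟩
  have hMsub : ∀ x ∈ Icc c d, ∀ y ∈ Icc c d, M y - M x = ∫ s in x..y, N s := by
    intro x hx y hy
    rw [hM]
    simp only
    rw [intervalIntegral.integral_interval_sub_left (ii hNc hcc hy) (ii hNc hcc hx)]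
  have habs : ∀ x ∈ Icc c d, ∀ y ∈ Icc c d, x ≤ y → |∫ s in x..y, N s| ≤ ∫ s in x..y, |N s| := by
    intro x hx y hy hxy
    exact intervalIntegral.abs_integral_le_integral_abs hxy
  have k1 := hMsub (c) hcc (c + 3) m1
  have k2 := hMsub (c + 3) m1 (c + 6) m2
  have k3 := hMsub (d - 6) m3 (d - 3) m4
  have k4 := hMsub (d - 3) m4 d hdd
  have a1 := abs_le.1 (habs (c) hcc (c + 3) m1 (by linarith))
  have a2 := abs_le.1 (habs (c + 3) m1 (c + 6) m2 (by linarith))
  have a3 := abs_le.1 (habs (d - 6) m3 (d - 3) m4 (by linarith))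
  have a4 := abs_le.1 (habs (d - 3) m4 d hdd (by linarith))
  have hNa : ContinuousOn (fun q => |N q|) (Icc c d) := hNc.abs
  have tot : (∫ s in c..(c + 3), |N s|) + (∫ s in (c + 3)..(c + 6), |N s|) +
      (∫ s in (c + 6)..(d - 6), |N s|) + (∫ s in (d - 6)..(d - 3), |N s|) +
      (∫ s in (d - 3)..d, |N s|) = ∫ s in c..d, |N s| := by
    rw [intervalIntegral.integral_add_adjacent_intervals (ii hNa hcc m1) (ii hNa m1 m2),
      intervalIntegral.integral_add_adjacent_intervals (ii hNa hcc m2) (ii hNa m2 m3),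
      intervalIntegral.integral_add_adjacent_intervals (ii hNa hcc m3) (ii hNa m3 m4),
      intervalIntegral.integral_add_adjacent_intervals (ii hNa hcc m4) (ii hNa m4 hdd)]
  have mid : 0 ≤ ∫ s in (c + 6)..(d - 6), |N s| :=
    intervalIntegral.integral_nonneg (by linarith) (fun _ _ => abs_nonneg _)
  have hint : ∫ s in c..d, |N s| ≤ 18 * (∫ s in c..d, g s) + η * (d - c) := by
    have h1 : ∫ s in c..d, |N s| ≤ ∫ s in c..d, (18 * g s + η) := by
      apply intervalIntegral.integral_mono_on (by linarith) (ii hNa hcc hdd)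
        (((ii hg hcc hdd).const_mul 18).add intervalIntegrable_const) hNb
    rw [intervalIntegral.integral_add ((ii hg hcc hdd).const_mul 18) intervalIntegrable_const,
      intervalIntegral.integral_const, intervalIntegral.integral_const_mul, smul_eq_mul] at h1
    linarith
  have h23 : (2 : ℝ) * 3 = 6 := by norm_num
  rw [h23] at key
  have hη2 : 0 ≤ η * (d - c) := mul_nonneg hη (by linarith)
  nlinarith

/-- The decay estimate. -/
theorem decay (k : ℕ) : ∀ {c d η : ℝ}, c + 12 * k ≤ d → ∀ {g G G' N : ℝ → ℝ},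
    ContinuousOn g (Icc c d) → ContinuousOn G' (Icc c d) →
    (∀ q ∈ Icc c d, 0 ≤ g q) →
    (∀ q ∈ Icc c d, HasDerivAt N (4 * G q) q) →
    (∀ q ∈ Icc c d, HasDerivAt G (G' q) q) →
    (∀ q ∈ Icc c d, g q ≤ G' q + η) →
    (∀ q ∈ Icc c d, |N q| ≤ 18 * g q + η) → 0 ≤ η →
    ∫ q in (c + 6 * k)..(d - 6 * k), g q ≤
      (1 / 2) ^ k * (∫ q in c..d, g q) + 4 * η * (d - c) := by
  induction k with
  | zero =>
    intro c d η hcd g G G' N hg hG' g0 hN hG hle hNb hη
    simp only [Nat.cast_zero, mul_zero, add_zero, sub_zero, pow_zero, one_mul] at hcd ⊢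
    have : 0 ≤ 4 * η * (d - c) := by
      apply mul_nonneg (by linarith) (by linarith)
    linarith
  | succ k ih =>
    intro c d η hcd g G G' N hg hG' g0 hN hG hle hNb hη
    push_cast at hcd ⊢
    have hk : (0 : ℝ) ≤ k := Nat.cast_nonneg k
    have hsub : Icc (c + 6 * (k : ℝ)) (d - 6 * k) ⊆ Icc c d :=
      Icc_subset_Icc (by linarith) (by linarith)
    have h1 := ih (c := c) (d := d) (η := η) (by linarith) hg hG' g0 hN hG hle hNb hη
    have h2 := decay_step (c := c + 6 * (k : ℝ)) (d := d - 6 * k) (η := η) (by linarith)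
      (hg.mono hsub) (hG'.mono hsub)
      (fun q hq => g0 q (hsub hq)) (fun q hq => hN q (hsub hq)) (fun q hq => hG q (hsub hq))
      (fun q hq => hle q (hsub hq)) (fun q hq => hNb q (hsub hq)) hη
    have e1 : c + 6 * (k : ℝ) + 6 = c + 6 * (k + 1) := by ring
    have e2 : d - 6 * (k : ℝ) - 6 = d - 6 * (k + 1) := by ring
    rw [e1, e2] at h2
    have h3 : 2 * η * (d - 6 * k - (c + 6 * k)) ≤ 2 * η * (d - c) :=
      mul_le_mul_of_nonneg_left (by linarith) (by linarith)
    rw [pow_succ]
    nlinarith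

end Pool.Agent.Helper47.MA
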