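import Mathlib
import Pool.Agent.Helper47.MA.Calc

set_option autoImplicit false

namespace Pool.Agent.Helper47.MA

open Set MeasureTheory Filter Topology

/-- The interval of integration. -/
def XI : Set ℝ := Icc (-3 / 2) (3 / 2)

/-- The data of the difference of two solutions, for `q` in `J`. -/
structure DD (J : Set ℝ) (w P D A Aq Dx Dq : ℝ × ℝ → ℝ) : Prop where
  wx : ∀ x ∈ XI, ∀ q ∈ J, HasDerivAt (fun x => w (x, q)) (-(P (x, q))) x
  wq : ∀ x ∈ XI, ∀ q ∈ J, HasDerivAt (fun q => w (x, q)) (D (x, q)) q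
  px : ∀ x ∈ XI, ∀ q ∈ J, HasDerivAt (fun x => P (x, q)) (Aq (x, q)) x
  pq : ∀ x ∈ XI, ∀ q ∈ J, HasDerivAt (fun q => P (x, q)) (-(Dx (x, q))) q
  dx : ∀ x ∈ XI, ∀ q ∈ J, HasDerivAt (fun x => D (x, q)) (Dx (x, q)) x
  dq : ∀ x ∈ XI, ∀ q ∈ J, HasDerivAt (fun q => D (x, q)) (Dq (x, q)) q
  aq : ∀ x ∈ XI, ∀ q ∈ J, HasDerivAt (fun q => A (x, q)) (Aq (x, q)) q
  cw : ContinuousOn w (XI ×ˢ J)
  cP : ContinuousOn P (XI ×ˢ J)
  cD : ContinuousOn D (XI ×ˢ J)
  cA : ContinuousOn A (XI ×ˢ J)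
  cAq : ContinuousOn Aq (XI ×ˢ J)
  cDx : ContinuousOn Dx (XI ×ˢ J)
  cDq : ContinuousOn Dq (XI ×ˢ J)

theorem lr : (-3 / 2 : ℝ) ≤ 3 / 2 := by norm_num

theorem l_mem : (-3 / 2 : ℝ) ∈ XI := ⟨le_rfl, by norm_num⟩
theorem r_mem : (3 / 2 : ℝ) ∈ XI := ⟨by norm_num, le_rfl⟩

theorem ftcx {J : Set ℝ} {f f' : ℝ × ℝ → ℝ}
    (hf : ∀ x ∈ XI, ∀ q ∈ J, HasDerivAt (fun x => f (x, q)) (f' (x, q)) x)
    (hc : ContinuousOn f' (XI ×ˢ J)) {q : ℝ} (hq : q ∈ J) :
    ∫ x in (-3 / 2)..(3 / 2), f' (x, q) = f (3 / 2, q) - f (-3 / 2, q) := by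
  rw [intervalIntegral.integral_eq_sub_of_hasDerivAt (f := fun x => f (x, q))]
  · intro x hx
    rw [uIcc_of_le lr] at hx
    exact hf x hx q hq
  · exact ii_slice lr hc hq

/-- Derivative of `G`. -/
theorem DD.hG {J : Set ℝ} (hJ : IsOpen J) {w P D A Aq Dx Dq : ℝ × ℝ → ℝ}
    (h : DD J w P D A Aq Dx Dq) {q : ℝ} (hq : q ∈ J) :
    HasDerivAt (fun q => ∫ x in (-3 / 2)..(3 / 2), 1 / 2 * (A (x, q) * w (x, q)))
      ((∫ x in (-3 / 2)..(3 / 2), 1 / 2 * (A (x, q) * D (x, q) + P (x, q) ^ 2)) +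
        1 / 2 * (P (3 / 2, q) * w (3 / 2, q) - P (-3 / 2, q) * w (-3 / 2, q))) q := by
  have h1 := leib lr hJ (fun z => 1 / 2 * (A z * w z)) (fun z => 1 / 2 * (Aq z * w z + A z * D z))
    (continuousOn_const.mul (h.cA.mul h.cw))
    (fun x hx q hq => ((h.aq x hx q hq).mul (h.wq x hx q hq)).const_mul (1 / 2))
    (continuousOn_const.mul ((h.cAq.mul h.cw).add (h.cA.mul h.cD))) hq
  refine h1.congr_deriv ?_
  have h2 := ftcx (f := fun z => P z * w z) (f' := fun z => Aq z * w z + P z * (-(P z)))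
    (fun x hx q hq => (h.px x hx q hq).mul (h.wx x hx q hq))
    ((h.cAq.mul h.cw).add (h.cP.mul h.cP.neg)) hq
  have h3 : (∫ x in (-3 / 2)..(3 / 2), 1 / 2 * (Aq (x, q) * w (x, q) + A (x, q) * D (x, q)))
      - (∫ x in (-3 / 2)..(3 / 2), 1 / 2 * (A (x, q) * D (x, q) + P (x, q) ^ 2)) =
      1 / 2 * ∫ x in (-3 / 2)..(3 / 2), (Aq (x, q) * w (x, q) + P (x, q) * (-(P (x, q)))) := by
    rw [← intervalIntegral.integral_sub, ← intervalIntegral.integral_const_mul]
    · congr 1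
      funext x
      ring
    · exact ii_slice (f := fun z => 1 / 2 * (Aq z * w z + A z * D z)) lr
        (continuousOn_const.mul ((h.cAq.mul h.cw).add (h.cA.mul h.cD))) hq
    · exact ii_slice (f := fun z => 1 / 2 * (A z * D z + P z ^ 2)) lr
        (continuousOn_const.mul ((h.cA.mul h.cD).add (h.cP.pow 2))) hq
  rw [h2] at h3
  linarith

/-- Derivative of `F`. -/
theorem DD.hF {J : Set ℝ} (hJ : IsOpen J) {w P D A Aq Dx Dq : ℝ × ℝ → ℝ}
    (h : DD J w P D A Aq Dx Dq) {q : ℝ} (hq : q ∈ J) :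
    HasDerivAt (fun q => ∫ x in (-3 / 2)..(3 / 2), 1 / 2 * (A (x, q) * D (x, q) - P (x, q) ^ 2))
      ((∫ x in (-3 / 2)..(3 / 2), 1 / 2 * (A (x, q) * Dq (x, q) - Aq (x, q) * D (x, q))) +
        (P (3 / 2, q) * D (3 / 2, q) - P (-3 / 2, q) * D (-3 / 2, q))) q := by
  have h1 := leib lr hJ (fun z => 1 / 2 * (A z * D z - P z ^ 2))
    (fun z => 1 / 2 * (Aq z * D z + A z * Dq z + 2 * (P z * Dx z)))
    (continuousOn_const.mul ((h.cA.mul h.cD).sub (h.cP.pow 2)))
    (fun x hx q hq => ((((h.aq x hx q hq).mul (h.dq x hx q hq)).sub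
      ((h.pq x hx q hq).pow 2)).const_mul (1 / 2)).congr_deriv (by
        push_cast
        ring))
    (continuousOn_const.mul (((h.cAq.mul h.cD).add (h.cA.mul h.cDq)).add
      (continuousOn_const.mul (h.cP.mul h.cDx)))) hq
  refine h1.congr_deriv ?_
  have h2 := ftcx (f := fun z => P z * D z) (f' := fun z => Aq z * D z + P z * Dx z)
    (fun x hx q hq => (h.px x hx q hq).mul (h.dx x hx q hq))
    ((h.cAq.mul h.cD).add (h.cP.mul h.cDx)) hq
  have h3 : (∫ x in (-3 / 2)..(3 / 2), 1 / 2 * (Aq (x, q) * D (x, q) + A (x, q) * Dq (x, q) +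
      2 * (P (x, q) * Dx (x, q))))
      - (∫ x in (-3 / 2)..(3 / 2), 1 / 2 * (A (x, q) * Dq (x, q) - Aq (x, q) * D (x, q))) =
      ∫ x in (-3 / 2)..(3 / 2), (Aq (x, q) * D (x, q) + P (x, q) * Dx (x, q)) := by
    rw [← intervalIntegral.integral_sub]
    · congr 1
      funext x
      ring
    · exact ii_slice (f := fun z => 1 / 2 * (Aq z * D z + A z * Dq z + 2 * (P z * Dx z))) lr
        (continuousOn_const.mul (((h.cAq.mul h.cD).add (h.cA.mul h.cDq)).add
          (continuousOn_const.mul (h.cP.mul h.cDx)))) hq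
    · exact ii_slice (f := fun z => 1 / 2 * (A z * Dq z - Aq z * D z)) lr
        (continuousOn_const.mul ((h.cA.mul h.cDq).sub (h.cAq.mul h.cD))) hq
  rw [h2] at h3
  linarith

/-- Derivative of `N`. -/
theorem DD.hN {J J' : Set ℝ} (hJ : IsOpen J) {w P D A Aq Dx Dq : ℝ × ℝ → ℝ}
    (h : DD J w P D A Aq Dx Dq) {c : ℝ → ℝ} (hc : ContinuousOn c XI)
    (hJ' : J' ⊆ J) (hA : ∀ x ∈ XI, ∀ q ∈ J', A (x, q) = c x * D (x, q)) {q : ℝ} (hq : q ∈ J') :
    HasDerivAt (fun q => ∫ x in (-3 / 2)..(3 / 2), c x * w (x, q) ^ 2)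
      (4 * ∫ x in (-3 / 2)..(3 / 2), 1 / 2 * (A (x, q) * w (x, q))) q := by
  have hc2 : ContinuousOn (fun z : ℝ × ℝ => c z.1) (XI ×ˢ J) :=
    hc.comp continuousOn_fst (fun z hz => hz.1)
  have h1 := leib lr hJ (fun z => c z.1 * w z ^ 2) (fun z => c z.1 * (2 * w z * D z))
    (hc2.mul (h.cw.pow 2))
    (fun x hx q hq => (((h.wq x hx q hq).pow 2).const_mul (c x)).congr_deriv (by
      push_cast
      ring))
    (hc2.mul ((continuousOn_const.mul h.cw).mul h.cD)) (hJ' hq)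
  refine h1.congr_deriv ?_
  rw [← intervalIntegral.integral_const_mul]
  apply intervalIntegral.integral_congr
  intro x hx
  rw [uIcc_of_le lr] at hx
  simp only
  rw [hA x hx q hq]
  ring

/-- The inequality of Cauchy and Schwarz with the constant function. -/
theorem sq_integral_le {a b : ℝ} (hab : a ≤ b) {f : ℝ → ℝ} (hf : ContinuousOn f (Icc a b)) :
    (∫ x in a..b, f x) ^ 2 ≤ (b - a) * ∫ x in a..b, f x ^ 2 := by
  have ii1 : IntervalIntegrable f volume a b := by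
    apply ContinuousOn.intervalIntegrable
    rwa [uIcc_of_le hab]
  have ii2 : IntervalIntegrable (fun x => f x ^ 2) volume a b := by
    apply ContinuousOn.intervalIntegrable
    rw [uIcc_of_le hab]
    exact hf.pow 2
  rcases hab.eq_or_lt with rfl | hlt
  · simp
  set m : ℝ := (∫ x in a..b, f x) / (b - a) with hm
  have h1 : 0 ≤ ∫ x in a..b, (f x - m) ^ 2 :=
    intervalIntegral.integral_nonneg hab (fun _ _ => sq_nonneg _)
  have h2 : ∫ x in a..b, (f x - m) ^ 2 =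
      (∫ x in a..b, f x ^ 2) - 2 * m * (∫ x in a..b, f x) + m ^ 2 * (b - a) := by
    have h3 : (fun x => (f x - m) ^ 2) = fun x => f x ^ 2 - 2 * m * f x + m ^ 2 := by
      funext x
      ring
    rw [h3, intervalIntegral.integral_add (ii2.sub (ii1.const_mul _)) intervalIntegrable_const,
      intervalIntegral.integral_sub ii2 (ii1.const_mul _), intervalIntegral.integral_const_mul,
      intervalIntegral.integral_const, smul_eq_mul]
    ring
  have h4 : m * (b - a) = ∫ x in a..b, f x := by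
    rw [hm]
    field_simp [sub_ne_zero.2 hlt.ne']
  rw [h2] at h1
  have h5 : (∫ x in a..b, f x) ^ 2 = (b - a) * (m * ∫ x in a..b, f x) := by
    rw [← h4]
    ring
  rw [h5]
  apply mul_le_mul_of_nonneg_left _ (by linarith)
  have h6 : m ^ 2 * (b - a) = m * ∫ x in a..b, f x := by
    rw [← h4]
    ring
  rw [h6] at h1
  linarith

/-- The Poincare inequality. -/
theorem DD.poincare {J : Set ℝ} {w P D A Aq Dx Dq : ℝ × ℝ → ℝ}
    (h : DD J w P D A Aq Dx Dq) {q : ℝ} (hq : q ∈ J) :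
    ∫ x in (-3 / 2)..(3 / 2), w (x, q) ^ 2 ≤
      6 * w (-3 / 2, q) ^ 2 + 9 * ∫ x in (-3 / 2)..(3 / 2), P (x, q) ^ 2 := by
  have cP : ContinuousOn (fun x => P (x, q)) XI := by
    apply h.cP.comp (by fun_prop)
    intro x hx
    exact ⟨hx, hq⟩
  have cw : ContinuousOn (fun x => w (x, q)) XI := by
    apply h.cw.comp (by fun_prop)
    intro x hx
    exact ⟨hx, hq⟩
  set e : ℝ := ∫ x in (-3 / 2)..(3 / 2), P (x, q) ^ 2 with he
  have hpt : ∀ x ∈ XI, w (x, q) ^ 2 ≤ 2 * w (-3 / 2, q) ^ 2 + 2 * (x + 3 / 2) * e := by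
    intro x hx
    have hx1 : (-3 / 2 : ℝ) ≤ x := hx.1
    have h1 : ∫ y in (-3 / 2)..x, -(P (y, q)) = w (x, q) - w (-3 / 2, q) := by
      rw [intervalIntegral.integral_eq_sub_of_hasDerivAt (f := fun x => w (x, q))]
      · intro y hy
        rw [uIcc_of_le hx1] at hy
        exact h.wx y ⟨hy.1, hy.2.trans hx.2⟩ q hq
      · apply ContinuousOn.intervalIntegrable
        rw [uIcc_of_le hx1]
        exact (cP.mono (Icc_subset_Icc le_rfl hx.2)).neg
    have h2 := sq_integral_le hx1 (f := fun y => -(P (y, q)))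
      (cP.mono (Icc_subset_Icc le_rfl hx.2)).neg
    rw [h1] at h2
    have h3 : ∫ y in (-3 / 2)..x, (-(P (y, q))) ^ 2 ≤ e := by
      rw [he]
      simp only [neg_sq]
      apply intervalIntegral.integral_mono_interval le_rfl hx1 hx.2
      · exact ae_of_all _ (fun _ => sq_nonneg _)
      · apply ContinuousOn.intervalIntegrable
        rw [uIcc_of_le lr]
        exact cP.pow 2
    have h4 : (x - -3 / 2) * ∫ y in (-3 / 2)..x, (-(P (y, q))) ^ 2 ≤ (x + 3 / 2) * e := by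
      have : x - -3 / 2 = x + 3 / 2 := by ring
      rw [this]
      exact mul_le_mul_of_nonneg_left h3 (by linarith)
    nlinarith [sq_nonneg (w (x, q) - 2 * w (-3 / 2, q))]
  have h1 : ∫ x in (-3 / 2)..(3 / 2), w (x, q) ^ 2 ≤
      ∫ x in (-3 / 2)..(3 / 2), (2 * w (-3 / 2, q) ^ 2 + 2 * (x + 3 / 2) * e) := by
    apply intervalIntegral.integral_mono_on lr
    · apply ContinuousOn.intervalIntegrable
      rw [uIcc_of_le lr]
      exact cw.pow 2
    · apply Continuous.intervalIntegrable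
      fun_prop
    · exact hpt
  have h2 : ∫ x in (-3 / 2 : ℝ)..(3 / 2), (2 * w (-3 / 2, q) ^ 2 + 2 * (x + 3 / 2) * e) =
      6 * w (-3 / 2, q) ^ 2 + 9 * e := by
    have h3 : (fun x : ℝ => 2 * w (-3 / 2, q) ^ 2 + 2 * (x + 3 / 2) * e) =
        fun x : ℝ => (2 * w (-3 / 2, q) ^ 2 + 3 * e) + (2 * e) * x := by
      funext x
      ring
    rw [h3, intervalIntegral.integral_add intervalIntegrable_const
      (Continuous.intervalIntegrable (by fun_prop) _ _), intervalIntegral.integral_const,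
      intervalIntegral.integral_const_mul, integral_id, smul_eq_mul]
    ring
  rw [h2] at h1
  exact h1

end Pool.Agent.Helper47.MA
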