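import Mathlib
import Pool.Agent.Helper47.MA.Energy

set_option autoImplicit false

namespace Pool.Agent.Helper47.MA

open Set MeasureTheory Filter Topology

/-- A bound for the integral of a function over the interval. -/
theorem int_le_of_le {f : ℝ → ℝ} {C : ℝ} (hf : ContinuousOn f XI) (h : ∀ x ∈ XI, f x ≤ C) :
    ∫ x in (-3 / 2)..(3 / 2), f x ≤ 3 * C := by
  have h1 : ∫ x in (-3 / 2)..(3 / 2), f x ≤ ∫ x in (-3 / 2 : ℝ)..(3 / 2), C := by
    apply intervalIntegral.integral_mono_on lr _ intervalIntegrable_const h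
    apply ContinuousOn.intervalIntegrable
    rwa [uIcc_of_le lr]
  rw [intervalIntegral.integral_const, smul_eq_mul] at h1
  linarith

theorem int_mono {f g : ℝ → ℝ} (hf : ContinuousOn f XI) (hg : ContinuousOn g XI)
    (h : ∀ x ∈ XI, f x ≤ g x) :
    ∫ x in (-3 / 2)..(3 / 2), f x ≤ ∫ x in (-3 / 2)..(3 / 2), g x := by
  apply intervalIntegral.integral_mono_on lr _ _ h
  · apply ContinuousOn.intervalIntegrable
    rwa [uIcc_of_le lr]
  · apply ContinuousOn.intervalIntegrable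
    rwa [uIcc_of_le lr]

theorem slice_c {J : Set ℝ} {f : ℝ × ℝ → ℝ} (hf : ContinuousOn f (XI ×ˢ J)) {q : ℝ} (hq : q ∈ J) :
    ContinuousOn (fun x => f (x, q)) XI := by
  apply hf.comp (by fun_prop)
  intro x hx
  exact ⟨hx, hq⟩

theorem abs_mul_le_mul {a b A B : ℝ} (ha : |a| ≤ A) (hb : |b| ≤ B) : |a * b| ≤ A * B := by
  rw [abs_mul]
  exact mul_le_mul ha hb (abs_nonneg _) ((abs_nonneg _).trans ha)

set_option maxHeartbeats 1000000 in
/-- The main energy estimate. -/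
theorem energy {h δ B : ℝ} {k : ℕ} (hh : 1000 ≤ h) (hk : 6 * (k : ℝ) ≤ 85 / 1000 * h)
    (hδ : 0 ≤ δ) (hδ1 : δ ≤ 1) (hB : 1 ≤ B) {J : Set ℝ} (hJ : IsOpen J)
    (hsub : Icc (4 / 100 * h) (115 / 100 * h) ⊆ J)
    {w P D A Aq Dx Dq : ℝ × ℝ → ℝ} (H : DD J w P D A Aq Dx Dq)
    {a c : ℝ → ℝ} (ha : ContinuousOn a XI) (hc : ContinuousOn c XI)
    (ha0 : ∀ x ∈ XI, 0 ≤ a x) (ha1 : ∀ x ∈ XI, a x ≤ 1) (hc1 : ∀ x ∈ XI, |c x| ≤ 1)
    (top : ∀ x ∈ XI, ∀ q ∈ Icc (82 / 100 * h) (115 / 100 * h), A (x, q) = a x * D (x, q))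
    (slab : ∀ x ∈ XI, ∀ q ∈ Icc (4 / 100 * h) (45 / 100 * h), A (x, q) = c x * D (x, q))
    (mono : ∀ x ∈ XI, ∀ q ∈ Icc (4 / 100 * h) (95 / 100 * h),
      A (x, q) * Dq (x, q) ≤ Aq (x, q) * D (x, q))
    (bP : ∀ x ∈ XI, ∀ q ∈ Icc (4 / 100 * h) (115 / 100 * h), |P (x, q)| ≤ B)
    (bD : ∀ x ∈ XI, ∀ q ∈ Icc (4 / 100 * h) (115 / 100 * h), |D (x, q)| ≤ B)
    (bw : ∀ x ∈ XI, ∀ q ∈ Icc (4 / 100 * h) (115 / 100 * h), |w (x, q)| ≤ B)
    (lP : ∀ q ∈ Icc (4 / 100 * h) (115 / 100 * h), |P (-3 / 2, q)| ≤ δ)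
    (rP : ∀ q ∈ Icc (4 / 100 * h) (115 / 100 * h), |P (3 / 2, q)| ≤ δ)
    (lw : ∀ q ∈ Icc (4 / 100 * h) (115 / 100 * h), |w (-3 / 2, q)| ≤ δ) :
    ∫ q in (h / 8)..(h / 4), ∫ x in (-3 / 2)..(3 / 2), P (x, q) ^ 2 ≤
      1000 * h ^ 2 * B ^ 2 * ((1 / 2) ^ k + δ) := by
  have hδB : 0 ≤ δ * B := mul_nonneg hδ (by linarith)
  have hδ2 : δ ^ 2 ≤ δ * B := by nlinarith
  -- names
  set G : ℝ → ℝ := fun q => ∫ x in (-3 / 2)..(3 / 2), 1 / 2 * (A (x, q) * w (x, q)) with hGdef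
  set F : ℝ → ℝ := fun q => ∫ x in (-3 / 2)..(3 / 2), 1 / 2 * (A (x, q) * D (x, q) - P (x, q) ^ 2)
    with hFdef
  set S : ℝ → ℝ := fun q => ∫ x in (-3 / 2)..(3 / 2), 1 / 2 * (A (x, q) * D (x, q) + P (x, q) ^ 2)
    with hSdef
  set L : ℝ → ℝ := fun q => 1 / 2 * (P (3 / 2, q) * w (3 / 2, q) - P (-3 / 2, q) * w (-3 / 2, q))
    with hLdef
  set e : ℝ → ℝ := fun q => ∫ x in (-3 / 2)..(3 / 2), P (x, q) ^ 2 with hedef
  set g : ℝ → ℝ := fun q => ∫ x in (-3 / 2)..(3 / 2), 1 / 2 * (a x * D (x, q) ^ 2 + P (x, q) ^ 2)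
    with hgdef
  have ca2 : ContinuousOn (fun z : ℝ × ℝ => a z.1) (XI ×ˢ J) :=
    ha.comp continuousOn_fst (fun z hz => hz.1)
  have cg : ContinuousOn (fun z : ℝ × ℝ => 1 / 2 * (a z.1 * D z ^ 2 + P z ^ 2)) (XI ×ˢ J) :=
    continuousOn_const.mul ((ca2.mul (H.cD.pow 2)).add (H.cP.pow 2))
  have cS : ContinuousOn (fun z : ℝ × ℝ => 1 / 2 * (A z * D z + P z ^ 2)) (XI ×ˢ J) :=
    continuousOn_const.mul ((H.cA.mul H.cD).add (H.cP.pow 2))
  have cF : ContinuousOn (fun z : ℝ × ℝ => 1 / 2 * (A z * D z - P z ^ 2)) (XI ×ˢ J) :=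
    continuousOn_const.mul ((H.cA.mul H.cD).sub (H.cP.pow 2))
  have cP2 : ContinuousOn (fun z : ℝ × ℝ => P z ^ 2) (XI ×ˢ J) := H.cP.pow 2
  have cw2 : ContinuousOn (fun z : ℝ × ℝ => w z ^ 2) (XI ×ˢ J) := H.cw.pow 2
  have Cg : ContinuousOn g J := continuousOn_param_integral lr hJ _ cg
  have CS : ContinuousOn S J := continuousOn_param_integral lr hJ _ cS
  have CFF : ContinuousOn F J := continuousOn_param_integral lr hJ _ cF
  have Ce : ContinuousOn e J := continuousOn_param_integral lr hJ _ cP2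
  have lslice : ∀ {f : ℝ × ℝ → ℝ}, ContinuousOn f (XI ×ˢ J) → ∀ {x : ℝ}, x ∈ XI →
      ContinuousOn (fun q => f (x, q)) J := by
    intro f hf x hx
    apply hf.comp (by fun_prop)
    intro q hq
    exact ⟨hx, hq⟩
  have CL : ContinuousOn L J := continuousOn_const.mul
    (((lslice H.cP r_mem).mul (lslice H.cw r_mem)).sub ((lslice H.cP l_mem).mul (lslice H.cw l_mem)))
  have hGd : ∀ q ∈ J, HasDerivAt G (S q + L q) q := fun q hq => H.hG hJ hq
  have hFd : ∀ q ∈ J, HasDerivAt F _ q := fun q hq => H.hF hJ hq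
  have hLb : ∀ q ∈ Icc (4 / 100 * h) (115 / 100 * h), |L q| ≤ δ * B := by
    intro q hq
    have h1 := abs_mul_le_mul (rP q hq) (bw _ r_mem q hq)
    have h2 := abs_mul_le_mul (lP q hq) (bw _ l_mem q hq)
    rw [hLdef]
    simp only
    rw [abs_le] at h1 h2 ⊢
    constructor <;> linarith [h1.1, h1.2, h2.1, h2.2]
  have hpoin : ∀ q ∈ Icc (4 / 100 * h) (115 / 100 * h),
      ∫ x in (-3 / 2)..(3 / 2), w (x, q) ^ 2 ≤ 6 * δ ^ 2 + 9 * e q := by
    intro q hq
    have h1 : ∫ x in (-3 / 2)..(3 / 2), w (x, q) ^ 2 ≤ 6 * w (-3 / 2, q) ^ 2 + 9 * e q :=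
      H.poincare (hsub hq)
    have h2 : w (-3 / 2, q) ^ 2 ≤ δ ^ 2 := by
      rw [← sq_abs (w (-3 / 2, q))]
      exact pow_le_pow_left₀ (abs_nonneg _) (lw q hq) 2
    linarith
  have hN : ∀ (b : ℝ → ℝ), ContinuousOn b XI → (∀ x ∈ XI, |b x| ≤ 1) →
      ∀ q ∈ Icc (4 / 100 * h) (115 / 100 * h),
      |∫ x in (-3 / 2)..(3 / 2), b x * w (x, q) ^ 2| ≤ 6 * δ ^ 2 + 9 * e q := by
    intro b hb hb1 q hq
    refine le_trans ?_ (hpoin q hq)
    refine (intervalIntegral.abs_integral_le_integral_abs lr).trans ?_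
    have hs := slice_c H.cw (hsub hq)
    apply int_mono ((hb.mul (hs.pow 2)).abs) (hs.pow 2)
    intro x hx
    change |b x * w (x, q) ^ 2| ≤ w (x, q) ^ 2
    rw [abs_mul, abs_of_nonneg (sq_nonneg (w (x, q)))]
    have := hb1 x hx
    nlinarith [sq_nonneg (w (x, q))]
  have ha1' : ∀ x ∈ XI, |a x| ≤ 1 := fun x hx => by
    rw [abs_of_nonneg (ha0 x hx)]
    exact ha1 x hx
  -- pointwise bounds for g and e
  have he3 : ∀ q ∈ Icc (4 / 100 * h) (115 / 100 * h), e q ≤ 3 * B ^ 2 := by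
    intro q hq
    apply int_le_of_le (slice_c cP2 (hsub hq))
    intro x hx
    rw [← sq_abs]
    exact pow_le_pow_left₀ (abs_nonneg _) (bP x hx q hq) 2
  have e0 : ∀ q, 0 ≤ e q := fun q => intervalIntegral.integral_nonneg lr (fun _ _ => sq_nonneg _)
  have heg : ∀ q ∈ Icc (4 / 100 * h) (115 / 100 * h), e q ≤ 2 * g q := by
    intro q hq
    rw [hedef, hgdef]
    simp only
    rw [← intervalIntegral.integral_const_mul]
    apply int_mono (slice_c cP2 (hsub hq)) (continuousOn_const.mul (slice_c cg (hsub hq)))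
    intro x hx
    have := mul_nonneg (ha0 x hx) (sq_nonneg (D (x, q)))
    change P (x, q) ^ 2 ≤ 2 * (1 / 2 * (a x * D (x, q) ^ 2 + P (x, q) ^ 2))
    linarith
  have hg3 : ∀ q ∈ Icc (4 / 100 * h) (115 / 100 * h), g q ≤ 3 * B ^ 2 := by
    intro q hq
    apply int_le_of_le (slice_c cg (hsub hq))
    intro x hx
    have h1 : P (x, q) ^ 2 ≤ B ^ 2 := by
      rw [← sq_abs]
      exact pow_le_pow_left₀ (abs_nonneg _) (bP x hx q hq) 2
    have h2 : D (x, q) ^ 2 ≤ B ^ 2 := by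
      rw [← sq_abs]
      exact pow_le_pow_left₀ (abs_nonneg _) (bD x hx q hq) 2
    have h3 : a x * D (x, q) ^ 2 ≤ 1 * B ^ 2 :=
      mul_le_mul (ha1 x hx) h2 (sq_nonneg _) (by norm_num)
    simp only
    linarith
  have g0 : ∀ q ∈ Icc (4 / 100 * h) (115 / 100 * h), 0 ≤ g q := by
    intro q hq
    have := heg q hq
    have := e0 q
    linarith
  have hk0 : (0 : ℝ) ≤ k := Nat.cast_nonneg k
  set ε : ℝ := (1 / 2) ^ k with hε
  have hε0 : 0 < ε := by positivity
  -- the top region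
  have subtop : Icc (82 / 100 * h) (115 / 100 * h) ⊆ Icc (4 / 100 * h) (115 / 100 * h) :=
    Icc_subset_Icc (by linarith) le_rfl
  have hStop : ∀ q ∈ Icc (82 / 100 * h) (115 / 100 * h), S q = g q := by
    intro q hq
    apply intervalIntegral.integral_congr
    intro x hx
    rw [uIcc_of_le lr] at hx
    simp only
    rw [top x hx q hq]
    ring
  have dtop := decay k (c := 82 / 100 * h) (d := 115 / 100 * h) (η := 7 * (δ * B))
    (by linarith) (g := g) (G := G) (G' := fun q => S q + L q)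
    (N := fun q => ∫ x in (-3 / 2)..(3 / 2), a x * w (x, q) ^ 2)
    (Cg.mono (subtop.trans hsub)) ((CS.add CL).mono (subtop.trans hsub))
    (fun q hq => g0 q (subtop hq))
    (fun q hq => H.hN hJ ha (subtop.trans hsub) top hq)
    (fun q hq => hGd q (hsub (subtop hq)))
    (fun q hq => by
      have h1 := (abs_le.1 (hLb q (subtop hq))).1
      rw [hStop q hq]
      linarith)
    (fun q hq => by
      have h1 := hN a ha ha1' q (subtop hq)
      have h2 := heg q (subtop hq)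
      linarith) (by linarith)
  -- the mean value in the top region
  have ii : ∀ {f : ℝ → ℝ}, ContinuousOn f J → ∀ {x y : ℝ},
      x ∈ Icc (4 / 100 * h) (115 / 100 * h) → y ∈ Icc (4 / 100 * h) (115 / 100 * h) →
      IntervalIntegrable f volume x y := by
    intro f hf x y hx hy
    apply ContinuousOn.intervalIntegrable
    apply hf.mono
    exact (uIcc_subset_Icc hx hy).trans hsub
  have htop1 : ∫ q in (82 / 100 * h)..(115 / 100 * h), g q ≤ h * B ^ 2 := by
    have h1 : ∫ q in (82 / 100 * h)..(115 / 100 * h), g q ≤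
        ∫ q in (82 / 100 * h)..(115 / 100 * h), (3 * B ^ 2) := by
      apply intervalIntegral.integral_mono_on (by linarith)
        (ii Cg ⟨by linarith, by linarith⟩ ⟨by linarith, by linarith⟩) intervalIntegrable_const
      intro q hq
      exact hg3 q (subtop hq)
    rw [intervalIntegral.integral_const, smul_eq_mul] at h1
    nlinarith [sq_nonneg B]
  have htop2 : ∫ q in (92 / 100 * h)..(95 / 100 * h), g q ≤
      ∫ q in (82 / 100 * h + 6 * k)..(115 / 100 * h - 6 * k), g q := by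
    apply intervalIntegral.integral_mono_interval (by linarith) (by linarith) (by linarith)
    · filter_upwards [ae_restrict_mem measurableSet_Ioc] with q hq
      exact g0 q ⟨by linarith [hq.1], by linarith [hq.2]⟩
    · exact ii Cg ⟨by linarith, by linarith⟩ ⟨by linarith, by linarith⟩
  have cgt : ContinuousOn g (Icc (92 / 100 * h) (95 / 100 * h)) := by
    apply Cg.mono
    exact (Icc_subset_Icc (by linarith) (by linarith)).trans hsub
  obtain ⟨q1, hq1, hq1e⟩ := exists_hasDerivAt_eq_slope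
    (fun q => ∫ s in (92 / 100 * h)..q, g s) g (a := 92 / 100 * h) (b := 95 / 100 * h)
    (by linarith)
    (by
      have h1 := intervalIntegral.continuousOn_primitive_interval (μ := volume) (f := g)
        (a := 92 / 100 * h) (b := 95 / 100 * h) (by
          rw [uIcc_of_le (by linarith)]
          exact cgt.integrableOn_Icc)
      rwa [uIcc_of_le (by linarith)] at h1)
    (fun q hq => hasDerivAt_primitive cgt hq)
  have hgq1 : g q1 ≤ 34 * ε * B ^ 2 + 308 * (δ * B) := by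
    rw [hq1e]
    simp only [intervalIntegral.integral_same, sub_zero]
    rw [div_le_iff₀ (by linarith)]
    have h1 : ε * (∫ q in (82 / 100 * h)..(115 / 100 * h), g q) ≤ ε * (h * B ^ 2) :=
      mul_le_mul_of_nonneg_left htop1 hε0.le
    have h2 : (0:ℝ) ≤ ε * B ^ 2 := by positivity
    have h3 : 0 ≤ ε * B ^ 2 * h := mul_nonneg h2 (by linarith)
    have h4 : 0 ≤ δ * B * h := mul_nonneg hδB (by linarith)
    nlinarith
  have hq1i : q1 ∈ Icc (82 / 100 * h) (115 / 100 * h) :=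
    ⟨by linarith [hq1.1], by linarith [hq1.2]⟩
  -- F at q1
  have hFq1 : -(g q1) ≤ F q1 := by
    have h1 : -(g q1) = ∫ x in (-3 / 2)..(3 / 2),
        -(1 / 2 * (a x * D (x, q1) ^ 2 + P (x, q1) ^ 2)) := by
      rw [intervalIntegral.integral_neg]
    rw [h1]
    apply int_mono (slice_c cg (hsub (subtop hq1i))).neg (slice_c cF (hsub (subtop hq1i)))
    intro x hx
    have h2 := mul_nonneg (ha0 x hx) (sq_nonneg (D (x, q1)))
    change -(1 / 2 * (a x * D (x, q1) ^ 2 + P (x, q1) ^ 2)) ≤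
      1 / 2 * (A (x, q1) * D (x, q1) - P (x, q1) ^ 2)
    rw [top x hx q1 hq1i]
    nlinarith
  -- F on the way down
  have hFlow : ∀ q ∈ Icc (4 / 100 * h) (45 / 100 * h), -(g q1) - 2 * (δ * B) * h ≤ F q := by
    intro q hq
    have hlt : q < q1 := by linarith [hq.2, hq1.1]
    obtain ⟨ξ, hξ, hξe⟩ := exists_hasDerivAt_eq_slope F _ hlt
      (CFF.mono (fun s hs => hsub ⟨hq.1.trans hs.1, by linarith [hs.2, hq1.2]⟩))
      (fun s hs => hFd s (hsub ⟨by linarith [hs.1, hq.1], by linarith [hs.2, hq1.2]⟩))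
    have hξi : ξ ∈ Icc (4 / 100 * h) (115 / 100 * h) :=
      ⟨by linarith [hξ.1, hq.1], by linarith [hξ.2, hq1.2]⟩
    have hξi2 : ξ ∈ Icc (4 / 100 * h) (95 / 100 * h) :=
      ⟨by linarith [hξ.1, hq.1], by linarith [hξ.2, hq1.2]⟩
    have h1 : (∫ x in (-3 / 2)..(3 / 2),
        1 / 2 * (A (x, ξ) * Dq (x, ξ) - Aq (x, ξ) * D (x, ξ))) ≤ 0 := by
      have h2 := int_le_of_le (C := 0)
        (slice_c (f := fun z => 1 / 2 * (A z * Dq z - Aq z * D z))
          (continuousOn_const.mul ((H.cA.mul H.cDq).sub (H.cAq.mul H.cD))) (hsub hξi))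
        (fun x hx => by
          have := mono x hx ξ hξi2
          linarith)
      simpa using h2
    have h2 := abs_mul_le_mul (rP ξ hξi) (bD _ r_mem ξ hξi)
    have h3 := abs_mul_le_mul (lP ξ hξi) (bD _ l_mem ξ hξi)
    rw [abs_le] at h2 h3
    have h4 : (F q1 - F q) / (q1 - q) ≤ 2 * (δ * B) := by
      rw [← hξe]
      linarith [h2.1, h2.2, h3.1, h3.2]
    rw [div_le_iff₀ (by linarith)] at h4
    have h5 : 2 * (δ * B) * (q1 - q) ≤ 2 * (δ * B) * h :=
      mul_le_mul_of_nonneg_left (by linarith [hq1.2, hq.1]) (by linarith)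
    linarith
  -- the slab
  set η : ℝ := g q1 + 2 * (δ * B) * h + 7 * (δ * B) with hη
  have hη0 : 0 ≤ η := by
    have h1 := g0 q1 (subtop hq1i)
    have h2 : 0 ≤ 2 * (δ * B) * h := by
      apply mul_nonneg (by linarith) (by linarith)
    linarith
  have subs : Icc (4 / 100 * h) (45 / 100 * h) ⊆ Icc (4 / 100 * h) (115 / 100 * h) :=
    Icc_subset_Icc le_rfl (by linarith)
  have hSF : ∀ q ∈ Icc (4 / 100 * h) (45 / 100 * h), e q = S q - F q := by
    intro q hq
    rw [hSdef, hFdef, hedef]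
    simp only
    rw [← intervalIntegral.integral_sub (ii_slice lr cS (hsub (subs hq)))
      (ii_slice lr cF (hsub (subs hq)))]
    congr 1
    funext x
    ring
  have dslab := decay k (c := 4 / 100 * h) (d := 45 / 100 * h) (η := η)
    (by linarith) (g := e) (G := G) (G' := fun q => S q + L q)
    (N := fun q => ∫ x in (-3 / 2)..(3 / 2), c x * w (x, q) ^ 2)
    (Ce.mono (subs.trans hsub)) ((CS.add CL).mono (subs.trans hsub))
    (fun q _ => e0 q)
    (fun q hq => H.hN hJ hc (subs.trans hsub) slab hq)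
    (fun q hq => hGd q (hsub (subs hq)))
    (fun q hq => by
      have h1 := (abs_le.1 (hLb q (subs hq))).1
      have h2 := hFlow q hq
      rw [hSF q hq]
      linarith)
    (fun q hq => by
      have h1 := hN c hc hc1 q (subs hq)
      have h2 := e0 q
      have h3 := g0 q1 (subtop hq1i)
      have h4 : 0 ≤ 2 * (δ * B) * h := by
        apply mul_nonneg (by linarith) (by linarith)
      linarith) hη0
  have hslab1 : ∫ q in (4 / 100 * h)..(45 / 100 * h), e q ≤ 2 * h * B ^ 2 := by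
    have h1 : ∫ q in (4 / 100 * h)..(45 / 100 * h), e q ≤
        ∫ q in (4 / 100 * h)..(45 / 100 * h), (3 * B ^ 2) := by
      apply intervalIntegral.integral_mono_on (by linarith)
        (ii Ce ⟨by linarith, by linarith⟩ ⟨by linarith, by linarith⟩) intervalIntegrable_const
      intro q hq
      exact he3 q (subs hq)
    rw [intervalIntegral.integral_const, smul_eq_mul] at h1
    nlinarith [sq_nonneg B]
  have hslab2 : ∫ q in (h / 8)..(h / 4), e q ≤
      ∫ q in (4 / 100 * h + 6 * k)..(45 / 100 * h - 6 * k), e q := by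
    apply intervalIntegral.integral_mono_interval (by linarith) (by linarith) (by linarith)
    · exact ae_of_all _ (fun q => e0 q)
    · exact ii Ce ⟨by linarith, by linarith⟩ ⟨by linarith, by linarith⟩
  have h1 : ε * (∫ q in (4 / 100 * h)..(45 / 100 * h), e q) ≤ ε * (2 * h * B ^ 2) :=
    mul_le_mul_of_nonneg_left hslab1 hε0.le
  have h2 : (0:ℝ) ≤ ε * B ^ 2 := by positivity
  have h3 : ∫ q in (h / 8)..(h / 4), e q ≤ ε * (2 * h * B ^ 2) + 164 / 100 * h * η := by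
    have : 4 * η * (45 / 100 * h - 4 / 100 * h) = 164 / 100 * h * η := by ring
    linarith
  have h4 : η ≤ 34 * ε * B ^ 2 + 315 * (δ * B) + 2 * (δ * B) * h := by
    rw [hη]
    linarith
  have h5 : η ≤ 34 * ε * B ^ 2 + 3 * (δ * B) * h := by nlinarith
  have h6 : 164 / 100 * h * η ≤ 164 / 100 * h * (34 * ε * B ^ 2 + 3 * (δ * B) * h) :=
    mul_le_mul_of_nonneg_left h5 (by linarith)
  have h7 : ε * B ^ 2 * h ≤ ε * B ^ 2 * h ^ 2 :=
    mul_le_mul_of_nonneg_left (by nlinarith) h2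
  have h8 : δ * B * h ^ 2 ≤ δ * B ^ 2 * h ^ 2 := by
    apply mul_le_mul_of_nonneg_right _ (sq_nonneg h)
    apply mul_le_mul_of_nonneg_left _ hδ
    nlinarith
  have h9 : 0 ≤ ε * B ^ 2 * h ^ 2 := mul_nonneg h2 (sq_nonneg h)
  have h10 : 0 ≤ δ * B ^ 2 * h ^ 2 := mul_nonneg (mul_nonneg hδ (sq_nonneg B)) (sq_nonneg h)
  have h11 : 1000 * h ^ 2 * B ^ 2 * (ε + δ) = 1000 * (ε * B ^ 2 * h ^ 2) +
      1000 * (δ * B ^ 2 * h ^ 2) := by ring
  rw [h11]
  nlinarith

end Pool.Agent.Helper47.MA
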