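import Mathlib
import Pool.Agent.Helper47.MA.EnergyMain
import Pool.Agent.Helper47.MA.Pattern

set_option autoImplicit false

namespace Pool.Agent.Helper47.MA

open Set MeasureTheory Filter Topology

/-- A half solution, away from the bumps. -/
structure HS (D : ℕ) (h μ : ℝ) (J : Set ℝ) (Y p ψ Yx Yq : ℝ × ℝ → ℝ) : Prop where
  ψx : ∀ x ∈ XI, ∀ q ∈ J, HasDerivAt (fun x => ψ (x, q)) (-(p (x, q))) x
  ψq : ∀ x ∈ XI, ∀ q ∈ J, HasDerivAt (fun q => ψ (x, q)) (Y (x, q)) q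
  px : ∀ x ∈ XI, ∀ q ∈ J, HasDerivAt (fun x => p (x, q)) (k0 D h μ x (Y (x, q)) * Yq (x, q)) x
  pq : ∀ x ∈ XI, ∀ q ∈ J, HasDerivAt (fun q => p (x, q)) (-(Yx (x, q))) q
  yx : ∀ x ∈ XI, ∀ q ∈ J, HasDerivAt (fun x => Y (x, q)) (Yx (x, q)) x
  yq : ∀ x ∈ XI, ∀ q ∈ J, HasDerivAt (fun q => Y (x, q)) (Yq (x, q)) q
  cψ : ContinuousOn ψ (XI ×ˢ J)
  cp : ContinuousOn p (XI ×ˢ J)
  cY : ContinuousOn Y (XI ×ˢ J)
  cYx : ContinuousOn Yx (XI ×ˢ J)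
  cYq : ContinuousOn Yq (XI ×ˢ J)
  bq : ∀ x ∈ XI, ∀ q ∈ J, 0 < Yq (x, q)
  near : ∀ x ∈ XI, ∀ q ∈ J, |Y (x, q) - q| ≤ 22 / 1000 * h

theorem cont_comp_fst {J : Set ℝ} {Y : ℝ × ℝ → ℝ} (cY : ContinuousOn Y (XI ×ˢ J))
    {f : ℝ × ℝ → ℝ} (hf : Continuous f) :
    ContinuousOn (fun z : ℝ × ℝ => f (z.1, Y z)) (XI ×ˢ J) :=
  hf.comp_continuousOn (continuousOn_fst.prodMk cY)

/-- The difference of two half solutions. -/
theorem HS.dd {D : ℕ} {h μ : ℝ} (hh : 0 < h) {J : Set ℝ} {Y1 p1 ψ1 Yx1 Yq1 Y2 p2 ψ2 Yx2 Yq2 : ℝ × ℝ → ℝ}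
    (s1 : HS D h μ J Y1 p1 ψ1 Yx1 Yq1) (s2 : HS D h μ J Y2 p2 ψ2 Yx2 Yq2) :
    DD J (fun z => ψ1 z - ψ2 z) (fun z => p1 z - p2 z) (fun z => Y1 z - Y2 z)
      (fun z => KK D h μ z.1 (Y1 z) - KK D h μ z.1 (Y2 z))
      (fun z => k0 D h μ z.1 (Y1 z) * Yq1 z - k0 D h μ z.1 (Y2 z) * Yq2 z)
      (fun z => Yx1 z - Yx2 z) (fun z => Yq1 z - Yq2 z) where
  wx := fun x hx q hq => ((s1.ψx x hx q hq).sub (s2.ψx x hx q hq)).congr_deriv (by ring)
  wq := fun x hx q hq => (s1.ψq x hx q hq).sub (s2.ψq x hx q hq)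
  px := fun x hx q hq => (s1.px x hx q hq).sub (s2.px x hx q hq)
  pq := fun x hx q hq => ((s1.pq x hx q hq).sub (s2.pq x hx q hq)).congr_deriv (by ring)
  dx := fun x hx q hq => (s1.yx x hx q hq).sub (s2.yx x hx q hq)
  dq := fun x hx q hq => (s1.yq x hx q hq).sub (s2.yq x hx q hq)
  aq := fun x hx q hq => by
    have e1 : HasDerivAt (fun q => KK D h μ x (Y1 (x, q)))
        (k0 D h μ x (Y1 (x, q)) * Yq1 (x, q)) q := by
      have e0 := KK_hasDerivAt D hh.ne' μ x (Y1 (x, q))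
      exact e0.comp q (s1.yq x hx q hq)
    have e2 : HasDerivAt (fun q => KK D h μ x (Y2 (x, q)))
        (k0 D h μ x (Y2 (x, q)) * Yq2 (x, q)) q := by
      have e0 := KK_hasDerivAt D hh.ne' μ x (Y2 (x, q))
      exact e0.comp q (s2.yq x hx q hq)
    exact e1.sub e2
  cw := s1.cψ.sub s2.cψ
  cP := s1.cp.sub s2.cp
  cD := s1.cY.sub s2.cY
  cA := (cont_comp_fst s1.cY (KK_continuous D h μ)).sub (cont_comp_fst s2.cY (KK_continuous D h μ))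
  cAq := ((cont_comp_fst s1.cY (k0_continuous D h μ)).mul s1.cYq).sub
    ((cont_comp_fst s2.cY (k0_continuous D h μ)).mul s2.cYq)
  cDx := s1.cYx.sub s2.cYx
  cDq := s1.cYq.sub s2.cYq

theorem XI_abs {x : ℝ} (hx : x ∈ XI) : |x| ≤ 3 / 2 := by
  rw [abs_le]
  exact ⟨by have := hx.1; linarith, hx.2⟩

/-- The scaled variable lies in an interval. -/
theorem scaled_mem {h x q y a b : ℝ} (hh : 0 < h) (hx : x ∈ XI) (ha : 22 / 1000 ≤ a)
    (hq1 : a * h ≤ q) (hq2 : q ≤ b * h) (hy : |y - q| ≤ 22 / 1000 * h) :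
    992 / 1000 * (a - 22 / 1000) ≤ tau x * y / h ∧ tau x * y / h ≤ 1008 / 1000 * (b + 22 / 1000) := by
  have ht := tau_bounds (XI_abs hx)
  have hy2 := abs_le.1 hy
  have y1 : (a - 22 / 1000) * h ≤ y := by linarith [hy2.1]
  have y2 : y ≤ (b + 22 / 1000) * h := by linarith [hy2.2]
  have y0 : 0 ≤ (a - 22 / 1000) * h := mul_nonneg (by linarith) hh.le
  constructor
  · rw [le_div_iff₀ hh]
    calc 992 / 1000 * (a - 22 / 1000) * h = 992 / 1000 * ((a - 22 / 1000) * h) := by ring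
      _ ≤ tau x * y := mul_le_mul ht.1 y1 y0 (tau_pos x).le
  · rw [div_le_iff₀ hh]
    calc tau x * y ≤ 1008 / 1000 * ((b + 22 / 1000) * h) :=
          mul_le_mul ht.2 y2 (y0.trans y1) (by norm_num)
      _ = 1008 / 1000 * (b + 22 / 1000) * h := by ring

theorem KK_slab {D : ℕ} {h μ x y : ℝ} (hh : 0 < h) (hs : |tau x * y / h| ≤ 1 / 2) :
    KK D h μ x y = (alp D x - μ * bmp x) * y := by
  unfold KK
  rw [Mi_eq hs]
  have := (tau_pos x).ne'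
  field_simp

theorem KK_top {D : ℕ} {h μ x y1 y2 : ℝ}
    (h1 : 3 / 4 ≤ tau x * y1 / h) (h2 : tau x * y1 / h ≤ 5 / 4)
    (h3 : 3 / 4 ≤ tau x * y2 / h) (h4 : tau x * y2 / h ≤ 5 / 4) :
    KK D h μ x y1 - KK D h μ x y2 = alp D x * (y1 - y2) := by
  unfold KK
  rw [Mi_const h1 h2 h3 h4]
  ring

theorem k0_mono {D : ℕ} {h μ x y1 y2 : ℝ} (hh : 0 < h) (hμ : 0 ≤ μ) (h0 : 0 ≤ y1) (h12 : y1 ≤ y2)
    (h1 : tau x * y2 / h ≤ 1) : k0 D h μ x y1 ≤ k0 D h μ x y2 := by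
  unfold k0
  have ht := (tau_pos x).le
  have h2 : mper (tau x * y2 / h) ≤ mper (tau x * y1 / h) := by
    apply mper_anti
    · positivity
    · gcongr
    · exact h1
  have h3 : 0 ≤ μ * bmp x := mul_nonneg hμ (bmp_nonneg _)
  have := mul_le_mul_of_nonneg_left h2 h3
  linarith

/-- Convexity of `KK` in the monotone range. -/
theorem KK_convex {D : ℕ} {h μ x y1 y2 : ℝ} (hh : 0 < h) (hμ : 0 ≤ μ) (h01 : 0 ≤ y1) (h02 : 0 ≤ y2)
    (h1 : tau x * y1 / h ≤ 1) (h2 : tau x * y2 / h ≤ 1) :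
    KK D h μ x y1 - KK D h μ x y2 ≤ k0 D h μ x y1 * (y1 - y2) := by
  have hc : ∀ y, HasDerivAt (KK D h μ x) (k0 D h μ x y) y := KK_hasDerivAt D hh.ne' μ x
  rcases lt_trichotomy y1 y2 with hlt | heq | hlt
  · obtain ⟨ξ, hξ, hξe⟩ := exists_hasDerivAt_eq_slope (KK D h μ x) (k0 D h μ x) hlt
      (fun y _ => (hc y).continuousAt.continuousWithinAt) (fun y _ => hc y)
    have h3 : k0 D h μ x y1 ≤ k0 D h μ x ξ := by
      apply k0_mono hh hμ h01 hξ.1.le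
      refine le_trans ?_ h2
      have ht := (tau_pos x).le
      have := hξ.2.le
      gcongr
    rw [hξe, le_div_iff₀ (by linarith)] at h3
    linarith
  · rw [heq]
    simp
  · obtain ⟨ξ, hξ, hξe⟩ := exists_hasDerivAt_eq_slope (KK D h μ x) (k0 D h μ x) hlt
      (fun y _ => (hc y).continuousAt.continuousWithinAt) (fun y _ => hc y)
    have h3 : k0 D h μ x ξ ≤ k0 D h μ x y1 := by
      apply k0_mono hh hμ (h02.trans hξ.1.le) hξ.2.le h1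
    rw [hξe, div_le_iff₀ (by linarith)] at h3
    linarith

/-- The energy estimate for two half solutions. -/
theorem HS.energy {D : ℕ} {h μ δ B : ℝ} {k : ℕ} (hh : 1000 ≤ h) (hμ : 0 ≤ μ) (hμ1 : μ ≤ 1)
    (hk : 6 * (k : ℝ) ≤ 85 / 1000 * h)
    (hδ : 0 ≤ δ) (hδ1 : δ ≤ 1) (hB : 1 ≤ B) {Y1 p1 ψ1 Yx1 Yq1 Y2 p2 ψ2 Yx2 Yq2 : ℝ × ℝ → ℝ}
    (s1 : HS D h μ (Ioo (35 / 1000 * h) (12 / 10 * h)) Y1 p1 ψ1 Yx1 Yq1)
    (s2 : HS D h μ (Ioo (35 / 1000 * h) (12 / 10 * h)) Y2 p2 ψ2 Yx2 Yq2)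
    (bP : ∀ x ∈ XI, ∀ q ∈ Icc (4 / 100 * h) (115 / 100 * h), |p1 (x, q) - p2 (x, q)| ≤ B)
    (bD : ∀ x ∈ XI, ∀ q ∈ Icc (4 / 100 * h) (115 / 100 * h), |Y1 (x, q) - Y2 (x, q)| ≤ B)
    (bw : ∀ x ∈ XI, ∀ q ∈ Icc (4 / 100 * h) (115 / 100 * h), |ψ1 (x, q) - ψ2 (x, q)| ≤ B)
    (lP : ∀ q ∈ Icc (4 / 100 * h) (115 / 100 * h), |p1 (-3 / 2, q) - p2 (-3 / 2, q)| ≤ δ)
    (rP : ∀ q ∈ Icc (4 / 100 * h) (115 / 100 * h), |p1 (3 / 2, q) - p2 (3 / 2, q)| ≤ δ)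
    (lw : ∀ q ∈ Icc (4 / 100 * h) (115 / 100 * h), |ψ1 (-3 / 2, q) - ψ2 (-3 / 2, q)| ≤ δ) :
    ∫ q in (h / 8)..(h / 4), ∫ x in (-3 / 2)..(3 / 2), (p1 (x, q) - p2 (x, q)) ^ 2 ≤
      1000 * h ^ 2 * B ^ 2 * ((1 / 2) ^ k + δ) := by
  have h0 : 0 < h := by linarith
  have hsub : Icc (4 / 100 * h) (115 / 100 * h) ⊆ Ioo (35 / 1000 * h) (12 / 10 * h) := by
    intro q hq
    exact ⟨by linarith [hq.1], by linarith [hq.2]⟩
  have ca : ContinuousOn (alp D) XI := (alp_contDiff (n := 0) D).continuous.continuousOn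
  have cc : ContinuousOn (fun x => alp D x - μ * bmp x) XI := by
    have h1 : Continuous (alp D) := (alp_contDiff (n := 0) D).continuous
    have h2 := bmp_continuous
    exact (h1.sub (continuous_const.mul h2)).continuousOn
  have H := HS.dd h0 s1 s2
  refine MA.energy hh hk hδ hδ1 hB isOpen_Ioo hsub H (a := alp D)
    (c := fun x => alp D x - μ * bmp x) ca cc (fun x _ => alp_nonneg D x)
    (fun x _ => alp_le_one D x) ?_ ?_ ?_ ?_ bP bD bw lP rP lw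
  · intro x _
    have h1 := alp_nonneg D x
    have h2 := alp_le_one D x
    have h3 : μ * bmp x ≤ 1 := by
      calc μ * bmp x ≤ 1 * 1 := mul_le_mul hμ1 (bmp_le_one _) (bmp_nonneg _) (by norm_num)
        _ = 1 := by norm_num
    have h4 : 0 ≤ μ * bmp x := mul_nonneg hμ (bmp_nonneg _)
    rw [abs_le]
    constructor <;> linarith
  · intro x hx q hq
    have hq' : q ∈ Ioo (35 / 1000 * h) (12 / 10 * h) :=
      ⟨by linarith [hq.1], by linarith [hq.2]⟩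
    have b1 := scaled_mem h0 hx (by norm_num) hq.1 hq.2 (s1.near x hx q hq')
    have b2 := scaled_mem h0 hx (by norm_num) hq.1 hq.2 (s2.near x hx q hq')
    exact KK_top (by linarith [b1.1]) (by linarith [b1.2]) (by linarith [b2.1]) (by linarith [b2.2])
  · intro x hx q hq
    have hq' : q ∈ Ioo (35 / 1000 * h) (12 / 10 * h) :=
      ⟨by linarith [hq.1], by linarith [hq.2]⟩
    have b1 := scaled_mem h0 hx (by norm_num) hq.1 hq.2 (s1.near x hx q hq')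
    have b2 := scaled_mem h0 hx (by norm_num) hq.1 hq.2 (s2.near x hx q hq')
    change KK D h μ x (Y1 (x, q)) - KK D h μ x (Y2 (x, q)) =
      (alp D x - μ * bmp x) * (Y1 (x, q) - Y2 (x, q))
    rw [KK_slab h0 (by rw [abs_le]; constructor <;> linarith [b1.1, b1.2]),
      KK_slab h0 (by rw [abs_le]; constructor <;> linarith [b2.1, b2.2])]
    ring
  · intro x hx q hq
    have hq' : q ∈ Ioo (35 / 1000 * h) (12 / 10 * h) :=
      ⟨by linarith [hq.1], by linarith [hq.2]⟩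
    have b1 := scaled_mem h0 hx (by norm_num) hq.1 hq.2 (s1.near x hx q hq')
    have b2 := scaled_mem h0 hx (by norm_num) hq.1 hq.2 (s2.near x hx q hq')
    have y1 : 0 ≤ Y1 (x, q) := by
      have := (abs_le.1 (s1.near x hx q hq')).1
      linarith [hq.1]
    have y2 : 0 ≤ Y2 (x, q) := by
      have := (abs_le.1 (s2.near x hx q hq')).1
      linarith [hq.1]
    have c1 := KK_convex (D := D) (μ := μ) h0 hμ y1 y2 (by linarith [b1.2]) (by linarith [b2.2])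
    have c2 := KK_convex (D := D) (μ := μ) h0 hμ y2 y1 (by linarith [b2.2]) (by linarith [b1.2])
    have q1 := s1.bq x hx q hq'
    have q2 := s2.bq x hx q hq'
    change (KK D h μ x (Y1 (x, q)) - KK D h μ x (Y2 (x, q))) * (Yq1 (x, q) - Yq2 (x, q)) ≤
      (k0 D h μ x (Y1 (x, q)) * Yq1 (x, q) - k0 D h μ x (Y2 (x, q)) * Yq2 (x, q)) *
        (Y1 (x, q) - Y2 (x, q))
    have d1 := mul_le_mul_of_nonneg_left c1 q1.le
    have d2 := mul_le_mul_of_nonneg_left c2 q2.le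
    linarith

end Pool.Agent.Helper47.MA
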