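import Mathlib
import Pool.Agent.Helper47.MA.Defs
import Pool.Agent.Helper47.MA.Pair

set_option autoImplicit false

namespace Pool.Agent.Helper47.MA

open Set MeasureTheory Filter Topology

theorem hasDerivAt_fst {f : ℝ × ℝ → ℝ} {a b x q : ℝ}
    (h : HasFDerivAt f (a • ContinuousLinearMap.fst ℝ ℝ ℝ + b • ContinuousLinearMap.snd ℝ ℝ ℝ)
      (x, q)) : HasDerivAt (fun x => f (x, q)) a x := by
  have h1 : HasDerivAt (fun x : ℝ => (x, q)) ((1 : ℝ), (0 : ℝ)) x :=
    (hasDerivAt_id x).prodMk (hasDerivAt_const x q)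
  have h2 := h.comp_hasDerivAt x h1
  refine h2.congr_deriv ?_
  simp

theorem hasDerivAt_snd {f : ℝ × ℝ → ℝ} {a b x q : ℝ}
    (h : HasFDerivAt f (a • ContinuousLinearMap.fst ℝ ℝ ℝ + b • ContinuousLinearMap.snd ℝ ℝ ℝ)
      (x, q)) : HasDerivAt (fun q => f (x, q)) b q := by
  have h1 : HasDerivAt (fun q : ℝ => (x, q)) ((0 : ℝ), (1 : ℝ)) q :=
    (hasDerivAt_const q x).prodMk (hasDerivAt_id q)
  have h2 := h.comp_hasDerivAt q h1
  refine h2.congr_deriv ?_
  simp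

theorem mvt_bound {f f' : ℝ → ℝ} {a b C : ℝ} (h : ∀ x ∈ uIcc a b, HasDerivAt f (f' x) x)
    (hb : ∀ x ∈ uIcc a b, |f' x| ≤ C) : |f b - f a| ≤ C * |b - a| := by
  have := Convex.norm_image_sub_le_of_norm_hasDerivWithin_le (f := f) (f' := f') (C := C)
    (s := uIcc a b) (x := a) (y := b) (fun x hx => (h x hx).hasDerivWithinAt)
    (fun x hx => by rw [Real.norm_eq_abs]; exact hb x hx) (convex_uIcc a b) left_mem_uIcc
    right_mem_uIcc
  simpa [Real.norm_eq_abs] using this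

section

variable {k : ℝ → ℝ → ℝ} {V h : ℝ} {Y p ψ Yx Yq : ℝ × ℝ → ℝ}

theorem om_mem {x q : ℝ} (hx : x ∈ Icc (-2 : ℝ) 2) (hq : |q| < 13 / 10 * h) : (x, q) ∈ Om h := by
  have := abs_lt.1 hq
  exact ⟨⟨by have := hx.1; linarith, by have := hx.2; linarith⟩, ⟨this.1, this.2⟩⟩

theorem uIcc_abs_le {a q : ℝ} (hq : q ∈ uIcc 0 a) : |q| ≤ |a| := by
  have := Set.abs_sub_left_of_mem_uIcc hq
  simpa using this

theorem Sol.near (s : Sol k V h Y p ψ Yx Yq) {x q : ℝ} (hx : x ∈ Icc (-2 : ℝ) 2)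
    (hq : |q| < 13 / 10 * h) : |Y (x, q) - q| ≤ 2 / 100 * h + 11 / 10000 * |q| := by
  have h1 := mvt_bound (f := fun q => Y (x, q) - q) (f' := fun q => Yq (x, q) - 1) (a := 0) (b := q)
    (C := 11 / 10000)
    (fun t ht => (hasDerivAt_snd (s.hY (x, t)
      (om_mem hx ((uIcc_abs_le ht).trans_lt hq)))).sub (hasDerivAt_id t))
    (fun t ht => s.bq (x, t) (om_mem hx ((uIcc_abs_le ht).trans_lt hq)))
  have h2 := s.b0 x hx
  simp only [sub_zero] at h1
  rw [abs_le] at h1 h2 ⊢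
  constructor <;> linarith [h1.1, h1.2, h2.1, h2.2]

theorem Sol.yq_bounds (s : Sol k V h Y p ψ Yx Yq) {z : ℝ × ℝ} (hz : z ∈ Om h) :
    9989 / 10000 ≤ Yq z ∧ Yq z ≤ 10011 / 10000 := by
  have := abs_le.1 (s.bq z hz)
  constructor <;> linarith [this.1, this.2]

theorem Sol.p_bound0 (s : Sol k V h Y p ψ Yx Yq) (hh : 0 < h) (hk : ∀ x y, |k x y| ≤ 2) {x : ℝ}
    (hx : x ∈ Icc (-2 : ℝ) 2) : |p (x, 0)| ≤ 8 := by
  have h0 : ∀ t ∈ uIcc (-3 / 2) x, t ∈ Icc (-2 : ℝ) 2 := by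
    intro t ht
    exact (uIcc_subset_Icc (by constructor <;> norm_num) hx) ht
  have hom : ∀ t ∈ uIcc (-3 / 2) x, (t, (0 : ℝ)) ∈ Om h := by
    intro t ht
    apply om_mem (h0 t ht)
    rw [abs_zero]
    linarith
  have h1 := mvt_bound (f := fun x => p (x, 0)) (f' := fun x => k x (Y (x, 0)) * Yq (x, 0))
    (a := -3 / 2) (b := x) (C := 2003 / 1000)
    (fun t ht => hasDerivAt_fst (s.hp (t, 0) (hom t ht)))
    (fun t ht => by
      have h2 := s.yq_bounds (hom t ht)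
      have h3 := hk t (Y (t, 0))
      rw [abs_mul, abs_of_nonneg (by linarith [h2.1] : 0 ≤ Yq (t, 0))]
      have : |k t (Y (t, 0))| * Yq (t, 0) ≤ 2 * (10011 / 10000) :=
        mul_le_mul h3 h2.2 (by linarith [h2.1]) (by norm_num)
      linarith)
  rw [s.p0, sub_zero] at h1
  have h4 : |x - -3 / 2| ≤ 7 / 2 := by
    rw [abs_le]
    have := hx.1
    have := hx.2
    constructor <;> linarith
  linarith

theorem Sol.p_bound (s : Sol k V h Y p ψ Yx Yq) (hh : 0 < h) (hk : ∀ x y, |k x y| ≤ 2) {x q : ℝ}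
    (hx : x ∈ Icc (-2 : ℝ) 2) (hq : |q| < 13 / 10 * h) : |p (x, q)| ≤ 8 + V * |q| := by
  have h1 := mvt_bound (f := fun q => p (x, q)) (f' := fun q => -(Yx (x, q))) (a := 0) (b := q)
    (C := V)
    (fun t ht => hasDerivAt_snd (s.hp (x, t) (om_mem hx ((uIcc_abs_le ht).trans_lt hq))))
    (fun t ht => by
      rw [abs_neg]
      exact s.bx (x, t) (om_mem hx ((uIcc_abs_le ht).trans_lt hq)))
  have h2 := s.p_bound0 hh hk hx
  simp only [sub_zero] at h1
  rw [abs_le] at h1 h2 ⊢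
  constructor <;> linarith [h1.1, h1.2, h2.1, h2.2]

theorem Sol.ψ_bound (s : Sol k V h Y p ψ Yx Yq) (hh : 1000 ≤ h) (hk : ∀ x y, |k x y| ≤ 2) {x q : ℝ}
    (hx : x ∈ Icc (-2 : ℝ) 2) (hq : |q| < 13 / 10 * h) : |ψ (x, q)| ≤ 2 * h ^ 2 := by
  have h0 : ∀ t ∈ uIcc (-3 / 2) x, t ∈ Icc (-2 : ℝ) 2 := by
    intro t ht
    exact (uIcc_subset_Icc (by constructor <;> norm_num) hx) ht
  have hom : ∀ t ∈ uIcc (-3 / 2) x, (t, (0 : ℝ)) ∈ Om h := by
    intro t ht
    apply om_mem (h0 t ht)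
    rw [abs_zero]
    linarith
  have h1 := mvt_bound (f := fun x => ψ (x, 0)) (f' := fun x => -(p (x, 0)))
    (a := -3 / 2) (b := x) (C := 8)
    (fun t ht => hasDerivAt_fst (s.hψ (t, 0) (hom t ht)))
    (fun t ht => by
      rw [abs_neg]
      exact s.p_bound0 (by linarith) hk (h0 t ht))
  rw [s.ψ0, sub_zero] at h1
  have h4 : |x - -3 / 2| ≤ 7 / 2 := by
    rw [abs_le]
    have := hx.1
    have := hx.2
    constructor <;> linarith
  have h2 := mvt_bound (f := fun q => ψ (x, q)) (f' := fun q => Y (x, q)) (a := 0) (b := q)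
    (C := 133 / 100 * h)
    (fun t ht => hasDerivAt_snd (s.hψ (x, t) (om_mem hx ((uIcc_abs_le ht).trans_lt hq))))
    (fun t ht => by
      have h3 := uIcc_abs_le ht
      have h5 := s.near hx (h3.trans_lt hq)
      have h6 : |Y (x, t)| ≤ |Y (x, t) - t| + |t| := by
        have := abs_add_le (Y (x, t) - t) t
        simpa using this
      linarith)
  simp only [sub_zero] at h2
  have h5 : |ψ (x, q)| ≤ |ψ (x, q) - ψ (x, 0)| + |ψ (x, 0)| := by
    have := abs_add_le (ψ (x, q) - ψ (x, 0)) (ψ (x, 0))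
    simpa using this
  have h6 : 133 / 100 * h * |q| ≤ 133 / 100 * h * (13 / 10 * h) :=
    mul_le_mul_of_nonneg_left hq.le (by linarith)
  nlinarith

end

section

variable {D : ℕ} {h μ r ρ V : ℝ} {θ : Fin D → Bool} {Y p ψ Yx Yq : ℝ × ℝ → ℝ}

theorem Sol.near' {k : ℝ → ℝ → ℝ} (hh : 0 < h) (s : Sol k V h Y p ψ Yx Yq) {x q : ℝ} (hx : x ∈ XI)
    (hq : |q| < 12 / 10 * h) : |Y (x, q) - q| ≤ 22 / 1000 * h := by
  have h1 := s.near (x := x) (q := q)
    ⟨by have := hx.1; linarith, by have := hx.2; linarith⟩ (by linarith)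
  linarith

theorem xi_om {x q : ℝ} (hx : x ∈ XI) (hq : |q| < 13 / 10 * h) : (x, q) ∈ Om h :=
  om_mem ⟨by have := hx.1; linarith, by have := hx.2; linarith⟩ hq

/-- The pattern without bumps away from zero. -/
theorem kk_off {x q y : ℝ} (hh : 0 < h) (hr : 0 < r) (hr1 : r ≤ 1 / 100) (hx : x ∈ XI)
    (hq1 : 35 / 1000 * h ≤ q) (hq2 : q ≤ 12 / 10 * h) (hy : |y - q| ≤ 22 / 1000 * h) :
    kk D h μ r ρ θ x y = k0 D h μ x y := by
  have b := scaled_mem (a := 35 / 1000) (b := 12 / 10) hh hx (by norm_num) hq1 hq2 hy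
  have hpos : 0 ≤ tau x * y / h := by
    have := b.1
    norm_num at this
    linarith
  apply kk_eq_k0 hr (by linarith)
  · rw [abs_of_nonneg hpos]
    have := b.1
    norm_num at this
    linarith
  · rw [abs_of_nonneg hpos]
    have := b.2
    norm_num at this
    linarith

theorem neg_scaled {x y : ℝ} : tau x * -y / h = -(tau x * y / h) := by ring

theorem kk_off_neg {x q y : ℝ} (hh : 0 < h) (hr : 0 < r) (hr1 : r ≤ 1 / 100) (hx : x ∈ XI)
    (hq1 : 35 / 1000 * h ≤ q) (hq2 : q ≤ 12 / 10 * h) (hy : |-y - q| ≤ 22 / 1000 * h) :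
    kk D h μ r ρ θ x y = k0 D h μ x (-y) := by
  have b := scaled_mem (a := 35 / 1000) (b := 12 / 10) hh hx (by norm_num) hq1 hq2 hy
  rw [neg_scaled] at b
  have hpos : 0 ≤ -(tau x * y / h) := by
    have := b.1
    norm_num at this
    linarith
  rw [k0_even]
  apply kk_eq_k0 hr (by linarith)
  · rw [← abs_neg, abs_of_nonneg hpos]
    have := b.1
    norm_num at this
    linarith
  · rw [← abs_neg, abs_of_nonneg hpos]
    have := b.2
    norm_num at this
    linarith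

theorem Sol.upper (hh : 0 < h) (hr : 0 < r) (hr1 : r ≤ 1 / 100)
    (s : Sol (kk D h μ r ρ θ) V h Y p ψ Yx Yq) :
    HS D h μ (Ioo (35 / 1000 * h) (12 / 10 * h)) Y p ψ Yx Yq := by
  have hom : ∀ x ∈ XI, ∀ q ∈ Ioo (35 / 1000 * h) (12 / 10 * h), (x, q) ∈ Om h := by
    intro x hx q hq
    apply xi_om hx
    rw [abs_of_nonneg (by linarith [hq.1])]
    linarith [hq.2]
  have hsub : XI ×ˢ Ioo (35 / 1000 * h) (12 / 10 * h) ⊆ Om h := by
    rintro ⟨x, q⟩ hz
    exact hom x hz.1 q hz.2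
  have hnear : ∀ x ∈ XI, ∀ q ∈ Ioo (35 / 1000 * h) (12 / 10 * h),
      |Y (x, q) - q| ≤ 22 / 1000 * h := by
    intro x hx q hq
    apply s.near' hh hx
    rw [abs_of_nonneg (by linarith [hq.1])]
    linarith [hq.2]
  constructor
  · exact fun x hx q hq => hasDerivAt_fst (s.hψ _ (hom x hx q hq))
  · exact fun x hx q hq => hasDerivAt_snd (s.hψ _ (hom x hx q hq))
  · intro x hx q hq
    have h1 := hasDerivAt_fst (s.hp _ (hom x hx q hq))
    rwa [kk_off hh hr hr1 hx hq.1.le hq.2.le (hnear x hx q hq)] at h1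
  · exact fun x hx q hq => hasDerivAt_snd (s.hp _ (hom x hx q hq))
  · exact fun x hx q hq => hasDerivAt_fst (s.hY _ (hom x hx q hq))
  · exact fun x hx q hq => hasDerivAt_snd (s.hY _ (hom x hx q hq))
  · exact fun z hz => (s.hψ z (hsub hz)).continuousAt.continuousWithinAt
  · exact fun z hz => (s.hp z (hsub hz)).continuousAt.continuousWithinAt
  · exact fun z hz => (s.hY z (hsub hz)).continuousAt.continuousWithinAt
  · exact s.cx.mono hsub
  · exact s.cq.mono hsub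
  · intro x hx q hq
    have := (s.yq_bounds (hom x hx q hq)).1
    linarith
  · exact hnear

theorem Sol.lower (hh : 0 < h) (hr : 0 < r) (hr1 : r ≤ 1 / 100)
    (s : Sol (kk D h μ r ρ θ) V h Y p ψ Yx Yq) :
    HS D h μ (Ioo (35 / 1000 * h) (12 / 10 * h)) (fun z => -(Y (z.1, -z.2)))
      (fun z => p (z.1, -z.2)) (fun z => ψ (z.1, -z.2)) (fun z => -(Yx (z.1, -z.2)))
      (fun z => Yq (z.1, -z.2)) := by
  have hom : ∀ x ∈ XI, ∀ q ∈ Ioo (35 / 1000 * h) (12 / 10 * h), (x, -q) ∈ Om h := by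
    intro x hx q hq
    apply xi_om hx
    rw [abs_neg, abs_of_nonneg (by linarith [hq.1])]
    linarith [hq.2]
  have hmaps : ∀ z ∈ XI ×ˢ Ioo (35 / 1000 * h) (12 / 10 * h), (z.1, -z.2) ∈ Om h := by
    rintro ⟨x, q⟩ hz
    exact hom x hz.1 q hz.2
  have hneg : Continuous (fun z : ℝ × ℝ => (z.1, -z.2)) := by fun_prop
  have hcomp : ∀ {f : ℝ × ℝ → ℝ}, ContinuousOn f (Om h) →
      ContinuousOn (fun z : ℝ × ℝ => f (z.1, -z.2)) (XI ×ˢ Ioo (35 / 1000 * h) (12 / 10 * h)) := by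
    intro f hf
    exact hf.comp hneg.continuousOn hmaps
  have hnear : ∀ x ∈ XI, ∀ q ∈ Ioo (35 / 1000 * h) (12 / 10 * h),
      |-(Y (x, -q)) - q| ≤ 22 / 1000 * h := by
    intro x hx q hq
    have h1 := s.near' (x := x) (q := -q) hh hx (by
      rw [abs_neg, abs_of_nonneg (by linarith [hq.1])]
      linarith [hq.2])
    rw [← abs_neg] at h1
    convert h1 using 2
    ring
  have hq' : ∀ q : ℝ, HasDerivAt (fun q : ℝ => -q) (-1) q := fun q => hasDerivAt_neg' q
  constructor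
  · exact fun x hx q hq => hasDerivAt_fst (s.hψ _ (hom x hx q hq))
  · intro x hx q hq
    have h1 := hasDerivAt_snd (s.hψ _ (hom x hx q hq))
    have h2 := HasDerivAt.comp q h1 (hq' q)
    exact h2.congr_deriv (by ring)
  · intro x hx q hq
    have h1 := hasDerivAt_fst (s.hp _ (hom x hx q hq))
    rwa [kk_off_neg hh hr hr1 hx hq.1.le hq.2.le (hnear x hx q hq)] at h1
  · intro x hx q hq
    have h1 := hasDerivAt_snd (s.hp _ (hom x hx q hq))
    have h2 := HasDerivAt.comp q h1 (hq' q)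
    exact h2.congr_deriv (by ring)
  · intro x hx q hq
    exact (hasDerivAt_fst (s.hY _ (hom x hx q hq))).neg
  · intro x hx q hq
    have h1 := hasDerivAt_snd (s.hY _ (hom x hx q hq))
    have h2 := (HasDerivAt.comp q h1 (hq' q)).neg
    exact h2.congr_deriv (by ring)
  · exact hcomp (fun z hz => (s.hψ z hz).continuousAt.continuousWithinAt)
  · exact hcomp (fun z hz => (s.hp z hz).continuousAt.continuousWithinAt)
  · exact (hcomp (fun z hz => (s.hY z hz).continuousAt.continuousWithinAt)).neg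
  · exact (hcomp s.cx).neg
  · exact hcomp s.cq
  · intro x hx q hq
    have := (s.yq_bounds (hom x hx q hq)).1
    simp only
    linarith
  · exact hnear

end

end Pool.Agent.Helper47.MA
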