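import Mathlib
import Pool.Agent.Helper47.MA.SolFacts

set_option autoImplicit false

namespace Pool.Agent.Helper47.MA

open Set MeasureTheory Filter Topology

/-- The energy estimate for two half solutions, in terms of the potentials. -/
theorem HS.energy_w {D : ℕ} {h μ δ B : ℝ} {k : ℕ} (hh : 1000 ≤ h) (hμ : 0 ≤ μ) (hμ1 : μ ≤ 1)
    (hk : 6 * (k : ℝ) ≤ 85 / 1000 * h)
    (hδ : 0 ≤ δ) (hδ1 : δ ≤ 1) (hB : 1 ≤ B) {Y1 p1 ψ1 Yx1 Yq1 Y2 p2 ψ2 Yx2 Yq2 : ℝ × ℝ → ℝ}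
    (s1 : HS D h μ (Ioo (35 / 1000 * h) (12 / 10 * h)) Y1 p1 ψ1 Yx1 Yq1)
    (s2 : HS D h μ (Ioo (35 / 1000 * h) (12 / 10 * h)) Y2 p2 ψ2 Yx2 Yq2)
    (bP : ∀ x ∈ XI, ∀ q ∈ Icc (4 / 100 * h) (115 / 100 * h), |p1 (x, q) - p2 (x, q)| ≤ B)
    (bD : ∀ x ∈ XI, ∀ q ∈ Icc (4 / 100 * h) (115 / 100 * h), |Y1 (x, q) - Y2 (x, q)| ≤ B)
    (bw : ∀ x ∈ XI, ∀ q ∈ Icc (4 / 100 * h) (115 / 100 * h), |ψ1 (x, q) - ψ2 (x, q)| ≤ B)
    (lP : ∀ q ∈ Icc (4 / 100 * h) (115 / 100 * h), |p1 (-3 / 2, q) - p2 (-3 / 2, q)| ≤ δ)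
    (rP : ∀ q ∈ Icc (4 / 100 * h) (115 / 100 * h), |p1 (3 / 2, q) - p2 (3 / 2, q)| ≤ δ)
    (lw : ∀ q ∈ Icc (4 / 100 * h) (115 / 100 * h), |ψ1 (-3 / 2, q) - ψ2 (-3 / 2, q)| ≤ δ) :
    ∫ q in (h / 8)..(h / 4), ∫ x in (-3 / 2)..(3 / 2), (ψ1 (x, q) - ψ2 (x, q)) ^ 2 ≤
      10000 * h ^ 2 * B ^ 2 * ((1 / 2) ^ k + δ) := by
  have h0 : 0 < h := by linarith
  have he := HS.energy hh hμ hμ1 hk hδ hδ1 hB s1 s2 bP bD bw lP rP lw
  have H := HS.dd h0 s1 s2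
  set ε : ℝ := (1 / 2) ^ k with hε
  have hε0 : 0 < ε := by positivity
  have cP : ContinuousOn (fun q => ∫ x in (-3 / 2)..(3 / 2), (p1 (x, q) - p2 (x, q)) ^ 2)
      (Ioo (35 / 1000 * h) (12 / 10 * h)) :=
    continuousOn_param_integral lr isOpen_Ioo (fun z => (p1 z - p2 z) ^ 2)
      ((s1.cp.sub s2.cp).pow 2)
  have cW : ContinuousOn (fun q => ∫ x in (-3 / 2)..(3 / 2), (ψ1 (x, q) - ψ2 (x, q)) ^ 2)
      (Ioo (35 / 1000 * h) (12 / 10 * h)) :=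
    continuousOn_param_integral lr isOpen_Ioo (fun z => (ψ1 z - ψ2 z) ^ 2)
      ((s1.cψ.sub s2.cψ).pow 2)
  have hsub : Icc (h / 8) (h / 4) ⊆ Ioo (35 / 1000 * h) (12 / 10 * h) := by
    intro q hq
    exact ⟨by linarith [hq.1], by linarith [hq.2]⟩
  have hle : h / 8 ≤ h / 4 := by linarith
  have ii : ∀ {f : ℝ → ℝ}, ContinuousOn f (Ioo (35 / 1000 * h) (12 / 10 * h)) →
      IntervalIntegrable f volume (h / 8) (h / 4) := by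
    intro f hf
    apply ContinuousOn.intervalIntegrable
    rw [uIcc_of_le hle]
    exact hf.mono hsub
  have h1 : ∫ q in (h / 8)..(h / 4), ∫ x in (-3 / 2)..(3 / 2), (ψ1 (x, q) - ψ2 (x, q)) ^ 2 ≤
      ∫ q in (h / 8)..(h / 4), (6 * δ ^ 2 +
        9 * ∫ x in (-3 / 2)..(3 / 2), (p1 (x, q) - p2 (x, q)) ^ 2) := by
    apply intervalIntegral.integral_mono_on hle (ii cW)
      (intervalIntegrable_const.add ((ii cP).const_mul 9))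
    intro q hq
    have e1 := H.poincare (hsub hq)
    have e2 := lw q ⟨by linarith [hq.1], by linarith [hq.2]⟩
    have e3 : (ψ1 (-3 / 2, q) - ψ2 (-3 / 2, q)) ^ 2 ≤ δ ^ 2 := by
      rw [← sq_abs (ψ1 (-3 / 2, q) - ψ2 (-3 / 2, q))]
      exact pow_le_pow_left₀ (abs_nonneg _) e2 2
    refine e1.trans ?_
    linarith
  rw [intervalIntegral.integral_add intervalIntegrable_const ((ii cP).const_mul 9),
    intervalIntegral.integral_const, intervalIntegral.integral_const_mul, smul_eq_mul] at h1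
  have h2 : (h / 4 - h / 8) * (6 * δ ^ 2) ≤ 1000 * h ^ 2 * B ^ 2 * δ := by
    have e1 : δ ^ 2 ≤ δ := by nlinarith
    have e2 : h ≤ h ^ 2 := by nlinarith
    have e3 : 1 ≤ B ^ 2 := by nlinarith
    have e4 : h * δ ^ 2 ≤ h ^ 2 * δ := mul_le_mul e2 e1 (sq_nonneg _) (sq_nonneg _)
    have e5 : h ^ 2 * δ ≤ h ^ 2 * δ * B ^ 2 := by
      apply le_mul_of_one_le_right _ e3
      exact mul_nonneg (sq_nonneg _) hδ
    have e6 : 0 ≤ h ^ 2 * δ := mul_nonneg (sq_nonneg _) hδ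
    nlinarith
  have h3 : 0 ≤ h ^ 2 * B ^ 2 * ε := by positivity
  have h4 : 0 ≤ h ^ 2 * B ^ 2 * δ := mul_nonneg (by positivity) hδ
  nlinarith

section

variable {D : ℕ} {h μ r ρ V : ℝ} {θ1 θ2 : Fin D → Bool} {Y1 p1 ψ1 Yx1 Yq1 Y2 p2 ψ2 Yx2 Yq2 : ℝ × ℝ → ℝ}

theorem sol_diff_bounds {k1 k2 : ℝ → ℝ → ℝ} (hh : 1000 ≤ h) (hV : 1 ≤ V)
    (s1 : Sol k1 V h Y1 p1 ψ1 Yx1 Yq1) (s2 : Sol k2 V h Y2 p2 ψ2 Yx2 Yq2)
    (hk1 : ∀ x y, |k1 x y| ≤ 2) (hk2 : ∀ x y, |k2 x y| ≤ 2) {x q : ℝ} (hx : x ∈ XI)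
    (hq : |q| ≤ 115 / 100 * h) :
    |p1 (x, q) - p2 (x, q)| ≤ 4 * h ^ 2 * V ∧ |Y1 (x, q) - Y2 (x, q)| ≤ 4 * h ^ 2 * V ∧
      |ψ1 (x, q) - ψ2 (x, q)| ≤ 4 * h ^ 2 * V := by
  have h0 : 0 < h := by linarith
  have hx2 : x ∈ Icc (-2 : ℝ) 2 := ⟨by have := hx.1; linarith, by have := hx.2; linarith⟩
  have hq2 : |q| < 13 / 10 * h := by linarith
  have hh2 : 1000 * h ≤ h ^ 2 := by nlinarith
  have hV2 : h ^ 2 ≤ h ^ 2 * V := le_mul_of_one_le_right (sq_nonneg _) hV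
  have hhV : 1000 * (h * V) ≤ h ^ 2 * V := by nlinarith
  refine ⟨?_, ?_, ?_⟩
  · have e1 := s1.p_bound h0 hk1 hx2 hq2
    have e2 := s2.p_bound h0 hk2 hx2 hq2
    have e3 := abs_sub (p1 (x, q)) (p2 (x, q))
    have e4 : V * |q| ≤ V * (115 / 100 * h) := mul_le_mul_of_nonneg_left hq (by linarith)
    nlinarith
  · have e1 := s1.near' h0 hx (by linarith : |q| < 12 / 10 * h)
    have e2 := s2.near' h0 hx (by linarith : |q| < 12 / 10 * h)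
    rw [abs_le] at e1 e2
    have e3 : |Y1 (x, q) - Y2 (x, q)| ≤ 44 / 1000 * h := by
      rw [abs_le]
      constructor <;> linarith [e1.1, e1.2, e2.1, e2.2]
    linarith
  · have e1 := s1.ψ_bound hh hk1 hx2 hq2
    have e2 := s2.ψ_bound hh hk2 hx2 hq2
    have e3 := abs_sub (ψ1 (x, q)) (ψ2 (x, q))
    linarith

/-- Two solutions that are close on the walls have close potentials. -/
theorem pair_w {δ : ℝ} {k : ℕ} (hh : 1000 ≤ h) (hV : 1 ≤ V) (hμ : 0 ≤ μ) (hμ1 : μ ≤ 1)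
    (hr : 0 < r) (hr1 : r ≤ 1 / 100) (hk : 6 * (k : ℝ) ≤ 85 / 1000 * h)
    (hδ : 0 ≤ δ) (hδ1 : 2 * h * δ ≤ 1)
    (s1 : Sol (kk D h μ r ρ θ1) V h Y1 p1 ψ1 Yx1 Yq1)
    (s2 : Sol (kk D h μ r ρ θ2) V h Y2 p2 ψ2 Yx2 Yq2)
    (hk1 : ∀ x y, |kk D h μ r ρ θ1 x y| ≤ 2) (hk2 : ∀ x y, |kk D h μ r ρ θ2 x y| ≤ 2)
    (lP : ∀ q, |q| ≤ 115 / 100 * h → |p1 (-3 / 2, q) - p2 (-3 / 2, q)| ≤ δ)
    (rP : ∀ q, |q| ≤ 115 / 100 * h → |p1 (3 / 2, q) - p2 (3 / 2, q)| ≤ δ)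
    (lY : ∀ q, |q| ≤ 115 / 100 * h → |Y1 (-3 / 2, q) - Y2 (-3 / 2, q)| ≤ δ) :
    (∫ q in (h / 8)..(h / 4), (∫ x in (-3 / 2)..(3 / 2), (ψ1 (x, q) - ψ2 (x, q)) ^ 2)) ≤
      10000 * h ^ 2 * (4 * h ^ 2 * V) ^ 2 * ((1 / 2) ^ k + 2 * h * δ) ∧
    (∫ q in (h / 8)..(h / 4), (∫ x in (-3 / 2)..(3 / 2), (ψ1 (x, -q) - ψ2 (x, -q)) ^ 2)) ≤
      10000 * h ^ 2 * (4 * h ^ 2 * V) ^ 2 * ((1 / 2) ^ k + 2 * h * δ) := by
  have h0 : 0 < h := by linarith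
  have hB : 1 ≤ 4 * h ^ 2 * V := by nlinarith
  have hδ2 : δ ≤ 2 * h * δ := by nlinarith
  have hδ3 : 0 ≤ 2 * h * δ := by positivity
  have hψ : ∀ q, |q| ≤ 115 / 100 * h → |ψ1 (-3 / 2, q) - ψ2 (-3 / 2, q)| ≤ 2 * h * δ := by
    intro q hq
    have e1 := mvt_bound (f := fun q => ψ1 (-3 / 2, q) - ψ2 (-3 / 2, q))
      (f' := fun q => Y1 (-3 / 2, q) - Y2 (-3 / 2, q)) (a := 0) (b := q) (C := δ)
      (fun t ht => by
        have e2 := uIcc_abs_le ht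
        have e3 : ((-3 / 2 : ℝ), t) ∈ Om h := xi_om l_mem (by linarith)
        exact (hasDerivAt_snd (s1.hψ _ e3)).sub (hasDerivAt_snd (s2.hψ _ e3)))
      (fun t ht => lY t ((uIcc_abs_le ht).trans hq))
    simp only [s1.ψ0, s2.ψ0, sub_zero] at e1
    refine e1.trans ?_
    have : δ * |q| ≤ δ * (115 / 100 * h) := mul_le_mul_of_nonneg_left hq hδ
    nlinarith
  have habs : ∀ q ∈ Icc (4 / 100 * h) (115 / 100 * h), |q| ≤ 115 / 100 * h := by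
    intro q hq
    rw [abs_of_nonneg (by linarith [hq.1])]
    exact hq.2
  have habs' : ∀ q ∈ Icc (4 / 100 * h) (115 / 100 * h), |-q| ≤ 115 / 100 * h := by
    intro q hq
    rw [abs_neg]
    exact habs q hq
  constructor
  · exact HS.energy_w hh hμ hμ1 hk hδ3 hδ1 hB (s1.upper h0 hr hr1) (s2.upper h0 hr hr1)
      (fun x hx q hq => (sol_diff_bounds hh hV s1 s2 hk1 hk2 hx (habs q hq)).1)
      (fun x hx q hq => (sol_diff_bounds hh hV s1 s2 hk1 hk2 hx (habs q hq)).2.1)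
      (fun x hx q hq => (sol_diff_bounds hh hV s1 s2 hk1 hk2 hx (habs q hq)).2.2)
      (fun q hq => (lP q (habs q hq)).trans hδ2)
      (fun q hq => (rP q (habs q hq)).trans hδ2)
      (fun q hq => hψ q (habs q hq))
  · exact HS.energy_w hh hμ hμ1 hk hδ3 hδ1 hB (s1.lower h0 hr hr1) (s2.lower h0 hr hr1)
      (fun x hx q hq => (sol_diff_bounds hh hV s1 s2 hk1 hk2 hx (habs' q hq)).1)
      (fun x hx q hq => by
        have e1 := (sol_diff_bounds hh hV s1 s2 hk1 hk2 hx (habs' q hq)).2.1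
        rw [← abs_neg] at e1
        have e2 : -Y1 (x, -q) - -Y2 (x, -q) = -(Y1 (x, -q) - Y2 (x, -q)) := by ring
        simp only
        rw [e2]
        exact e1)
      (fun x hx q hq => (sol_diff_bounds hh hV s1 s2 hk1 hk2 hx (habs' q hq)).2.2)
      (fun q hq => (lP (-q) (habs' q hq)).trans hδ2)
      (fun q hq => (rP (-q) (habs' q hq)).trans hδ2)
      (fun q hq => hψ (-q) (habs' q hq))

end

end Pool.Agent.Helper47.MA
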