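import Mathlib
import Pool.Agent.Helper47.MA.Pattern

set_option autoImplicit false

namespace Pool.Agent.Helper47.MA

open Set Filter Topology

/-- The first derivative of the bump. -/
noncomputable def bmp1 (t : ℝ) : ℝ := deriv bmp t
/-- The second derivative of the bump. -/
noncomputable def bmp2 (t : ℝ) : ℝ := deriv bmp1 t

theorem bmp_hasDerivAt (t : ℝ) : HasDerivAt bmp (bmp1 t) t :=
  ((bmp_contDiff (n := 1)).differentiable (by norm_num) t).hasDerivAt

theorem bmp1_contDiff : ContDiff ℝ (1 : ℕ∞) bmp1 := by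
  have h : ContDiff ℝ ((1 : ℕ∞) + 1 : ℕ∞) bmp := bmp_contDiff
  have h2 : ContDiff ℝ (((1 : ℕ∞) : WithTop ℕ∞) + 1) bmp := by exact_mod_cast h
  exact (contDiff_succ_iff_deriv.1 h2).2.2

theorem bmp1_hasDerivAt (t : ℝ) : HasDerivAt bmp1 (bmp2 t) t :=
  (bmp1_contDiff.differentiable (by norm_num) t).hasDerivAt

theorem bmp1_continuous : Continuous bmp1 := bmp1_contDiff.continuous

theorem bmp2_continuous : Continuous bmp2 := by
  have h := bmp1_contDiff
  exact h.continuous_deriv (by norm_num)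

theorem bmp1_zero_out {t : ℝ} (h : 1 ≤ |t|) : bmp1 t = 0 := by
  apply IsLocalMin.deriv_eq_zero
  apply Filter.Eventually.of_forall
  intro y
  rw [bmp_zero h]
  exact bmp_nonneg y

theorem bmp1_zero_in {t : ℝ} (h : |t| ≤ 1 / 2) : bmp1 t = 0 := by
  apply IsLocalMax.deriv_eq_zero
  apply Filter.Eventually.of_forall
  intro y
  rw [bmp_one h]
  exact bmp_le_one y

theorem bmp2_closed : IsClosed {t : ℝ | bmp2 t = 0} :=
  isClosed_eq bmp2_continuous continuous_const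

theorem bmp2_zero_in {t : ℝ} (h : |t| ≤ 1 / 2) : bmp2 t = 0 := by
  have h1 : Ioo (-1 / 2 : ℝ) (1 / 2) ⊆ {t : ℝ | bmp2 t = 0} := by
    intro y hy
    have h2 : bmp1 =ᶠ[𝓝 y] fun _ => 0 := by
      filter_upwards [isOpen_Ioo.mem_nhds hy] with z hz
      apply bmp1_zero_in
      rw [abs_le]
      constructor <;> linarith [hz.1, hz.2]
    change deriv bmp1 y = 0
    rw [h2.deriv_eq]
    simp
  have h3 := bmp2_closed.closure_subset_iff.2 h1
  rw [closure_Ioo (by norm_num)] at h3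
  apply h3
  have := abs_le.1 h
  constructor <;> linarith [this.1, this.2]

theorem bmp2_zero_out {t : ℝ} (h : 1 ≤ |t|) : bmp2 t = 0 := by
  have h1 : Ioi (1 : ℝ) ⊆ {t : ℝ | bmp2 t = 0} := by
    intro y hy
    have h2 : bmp1 =ᶠ[𝓝 y] fun _ => 0 := by
      filter_upwards [isOpen_Ioi.mem_nhds hy] with z hz
      apply bmp1_zero_out
      exact (le_of_lt hz).trans (le_abs_self z)
    change deriv bmp1 y = 0
    rw [h2.deriv_eq]
    simp
  have h1' : Iio (-1 : ℝ) ⊆ {t : ℝ | bmp2 t = 0} := by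
    intro y hy
    have h2 : bmp1 =ᶠ[𝓝 y] fun _ => 0 := by
      filter_upwards [isOpen_Iio.mem_nhds hy] with z hz
      apply bmp1_zero_out
      have := neg_le_abs z
      have := mem_Iio.1 hz
      linarith
    change deriv bmp1 y = 0
    rw [h2.deriv_eq]
    simp
  have h3 := bmp2_closed.closure_subset_iff.2 h1
  have h3' := bmp2_closed.closure_subset_iff.2 h1'
  rw [closure_Ioi] at h3
  rw [closure_Iio] at h3'
  rcases le_abs.1 h with h4 | h4
  · exact h3 h4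
  · apply h3'
    change t ≤ -1
    linarith

/-- A bound for the first two derivatives of the bump. -/
theorem bmp_bounds : ∃ C : ℝ, 1 ≤ C ∧ (∀ t, |bmp1 t| ≤ C) ∧ (∀ t, |bmp2 t| ≤ C) := by
  obtain ⟨C1, hC1⟩ := (isCompact_Icc (a := (-1 : ℝ)) (b := 1)).exists_bound_of_continuousOn
    bmp1_continuous.continuousOn
  obtain ⟨C2, hC2⟩ := (isCompact_Icc (a := (-1 : ℝ)) (b := 1)).exists_bound_of_continuousOn
    bmp2_continuous.continuousOn
  refine ⟨max 1 (max C1 C2), le_max_left _ _, ?_, ?_⟩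
  · intro t
    by_cases h : |t| ≤ 1
    · refine (hC1 t (abs_le.1 h)).trans ?_
      exact (le_max_left _ _).trans (le_max_right _ _)
    · rw [bmp1_zero_out (by linarith)]
      simp
  · intro t
    by_cases h : |t| ≤ 1
    · refine (hC2 t (abs_le.1 h)).trans ?_
      exact (le_max_right _ _).trans (le_max_right _ _)
    · rw [bmp2_zero_out (by linarith)]
      simp

/-- The localised ground state. -/
noncomputable def gg (μ u : ℝ) : ℝ := bmp (4 * u) * Real.exp (-(u ^ 2 / (2 * μ)))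

/-- Its first derivative. -/
noncomputable def gg1 (μ u : ℝ) : ℝ :=
  4 * bmp1 (4 * u) * Real.exp (-(u ^ 2 / (2 * μ))) +
    bmp (4 * u) * (Real.exp (-(u ^ 2 / (2 * μ))) * (-(u / μ)))

/-- The error term. -/
noncomputable def ger (μ u : ℝ) : ℝ :=
  (16 * bmp2 (4 * u) - 8 * bmp1 (4 * u) * (u / μ)) * Real.exp (-(u ^ 2 / (2 * μ)))

theorem expq_hasDerivAt {μ : ℝ} (hμ : μ ≠ 0) (u : ℝ) :
    HasDerivAt (fun u : ℝ => Real.exp (-(u ^ 2 / (2 * μ))))
      (Real.exp (-(u ^ 2 / (2 * μ))) * (-(u / μ))) u := by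
  have h1 : HasDerivAt (fun u : ℝ => -(u ^ 2 / (2 * μ))) (-(u / μ)) u := by
    have h2 := ((hasDerivAt_pow 2 u).div_const (2 * μ)).neg
    refine h2.congr_deriv ?_
    push_cast
    field_simp
  exact h1.exp

theorem gg_hasDerivAt {μ : ℝ} (hμ : μ ≠ 0) (u : ℝ) : HasDerivAt (gg μ) (gg1 μ u) u := by
  have h1 : HasDerivAt (fun u : ℝ => 4 * u) 4 u := by
    simpa using (hasDerivAt_id u).const_mul (4 : ℝ)
  have h0 := bmp_hasDerivAt (4 * u)
  have h2 : HasDerivAt (fun u : ℝ => bmp (4 * u)) (bmp1 (4 * u) * 4) u := h0.comp u h1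
  have h3 := h2.mul (expq_hasDerivAt hμ u)
  refine h3.congr_deriv ?_
  unfold gg1
  ring

theorem gg1_hasDerivAt {μ : ℝ} (hμ : μ ≠ 0) (u : ℝ) :
    HasDerivAt (gg1 μ) ((u ^ 2 - μ) / μ ^ 2 * gg μ u + ger μ u) u := by
  have h1 : HasDerivAt (fun u : ℝ => 4 * u) 4 u := by
    simpa using (hasDerivAt_id u).const_mul (4 : ℝ)
  have h0 := bmp_hasDerivAt (4 * u)
  have h00 := bmp1_hasDerivAt (4 * u)
  have h2 : HasDerivAt (fun u : ℝ => bmp (4 * u)) (bmp1 (4 * u) * 4) u := h0.comp u h1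
  have h2' : HasDerivAt (fun u : ℝ => bmp1 (4 * u)) (bmp2 (4 * u) * 4) u := h00.comp u h1
  have h4 : HasDerivAt (fun u : ℝ => -(u / μ)) (-(1 / μ)) u :=
    ((hasDerivAt_id u).div_const μ).neg
  have he := expq_hasDerivAt hμ u
  have h5 := ((h2'.const_mul 4).mul he).add (h2.mul (he.mul h4))
  refine h5.congr_deriv ?_
  unfold gg ger
  simp only [Pi.mul_apply]
  field_simp
  ring

theorem gg_zero {μ u : ℝ} (h : 1 / 4 ≤ |u|) : gg μ u = 0 := by
  unfold gg
  rw [bmp_zero, zero_mul]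
  rw [abs_mul]
  norm_num
  linarith

theorem gg1_zero {μ u : ℝ} (h : 1 / 4 ≤ |u|) : gg1 μ u = 0 := by
  unfold gg1
  have h1 : 1 ≤ |4 * u| := by
    rw [abs_mul]
    norm_num
    linarith
  rw [bmp_zero h1, bmp1_zero_out h1]
  ring

theorem gg_nonneg (μ u : ℝ) : 0 ≤ gg μ u := mul_nonneg (bmp_nonneg _) (Real.exp_pos _).le

theorem gg_le_one {μ : ℝ} (hμ : 0 < μ) (u : ℝ) : gg μ u ≤ 1 := by
  unfold gg
  have h1 : Real.exp (-(u ^ 2 / (2 * μ))) ≤ 1 := by
    apply Real.exp_le_one_iff.2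
    have : 0 ≤ u ^ 2 / (2 * μ) := by positivity
    linarith
  calc bmp (4 * u) * Real.exp (-(u ^ 2 / (2 * μ))) ≤ 1 * 1 :=
        mul_le_mul (bmp_le_one _) h1 (Real.exp_pos _).le (by norm_num)
    _ = 1 := by norm_num

theorem gg_half {μ : ℝ} (hμ : 0 < μ) {u : ℝ} (h1 : |u| ≤ 1 / 8) (h2 : u ^ 2 ≤ μ) :
    1 / 2 ≤ gg μ u := by
  unfold gg
  rw [bmp_one, one_mul]
  · have h3 : 1 - u ^ 2 / (2 * μ) ≤ Real.exp (-(u ^ 2 / (2 * μ))) := by
      have := Real.add_one_le_exp (-(u ^ 2 / (2 * μ)))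
      linarith
    have h4 : u ^ 2 / (2 * μ) ≤ 1 / 2 := by
      rw [div_le_iff₀ (by linarith)]
      linarith
    linarith
  · rw [abs_mul]
    norm_num
    linarith

theorem ger_zero_in {μ u : ℝ} (h : |u| ≤ 1 / 8) : ger μ u = 0 := by
  unfold ger
  have h1 : |4 * u| ≤ 1 / 2 := by
    rw [abs_mul]
    norm_num
    linarith
  rw [bmp1_zero_in h1, bmp2_zero_in h1]
  ring

theorem ger_zero_out {μ u : ℝ} (h : 1 / 4 ≤ |u|) : ger μ u = 0 := by
  unfold ger
  have h1 : 1 ≤ |4 * u| := by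
    rw [abs_mul]
    norm_num
    linarith
  rw [bmp1_zero_out h1, bmp2_zero_out h1]
  ring

theorem ger_bound {μ : ℝ} (hμ : 0 < μ) (hμ1 : μ ≤ 1) {C : ℝ} (hC : 0 ≤ C)
    (h1 : ∀ t, |bmp1 t| ≤ C) (h2 : ∀ t, |bmp2 t| ≤ C) (u : ℝ) :
    |ger μ u| ≤ 18 * C / μ * Real.exp (-(1 / (128 * μ))) := by
  by_cases ha : |u| ≤ 1 / 8
  · rw [ger_zero_in ha, abs_zero]
    positivity
  by_cases hb : 1 / 4 ≤ |u|
  · rw [ger_zero_out hb, abs_zero]
    positivity
  push Not at ha hb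
  unfold ger
  rw [abs_mul, abs_of_pos (Real.exp_pos _)]
  apply mul_le_mul _ _ (Real.exp_pos _).le (by positivity)
  · have h3 : |16 * bmp2 (4 * u) - 8 * bmp1 (4 * u) * (u / μ)| ≤
        16 * C + 8 * C * (1 / 4 / μ) := by
      refine (abs_sub _ _).trans ?_
      apply add_le_add
      · rw [abs_mul, abs_of_pos (by norm_num : (0 : ℝ) < 16)]
        exact mul_le_mul_of_nonneg_left (h2 _) (by norm_num)
      · rw [abs_mul, abs_mul, abs_of_pos (by norm_num : (0 : ℝ) < 8)]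
        apply mul_le_mul _ _ (abs_nonneg _) (by positivity)
        · exact mul_le_mul_of_nonneg_left (h1 _) (by norm_num)
        · rw [abs_div, abs_of_pos hμ]
          gcongr
    refine h3.trans ?_
    have h4 : 16 * C ≤ 16 * C / μ := by
      rw [le_div_iff₀ hμ]
      nlinarith
    have h5 : 8 * C * (1 / 4 / μ) = 2 * C / μ := by
      field_simp
      ring
    rw [h5]
    have h6 : 18 * C / μ = 16 * C / μ + 2 * C / μ := by ring
    linarith
  · apply Real.exp_le_exp.2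
    have h3 : (1 / 8 : ℝ) ^ 2 ≤ u ^ 2 := by
      rw [← sq_abs u]
      exact pow_le_pow_left₀ (by norm_num) ha.le 2
    have h4 : 1 / (128 * μ) = (1 / 8) ^ 2 / (2 * μ) := by
      field_simp
      norm_num
    rw [h4]
    have : (1 / 8 : ℝ) ^ 2 / (2 * μ) ≤ u ^ 2 / (2 * μ) := by gcongr
    linarith

theorem gg_continuous {μ : ℝ} (hμ : μ ≠ 0) : Continuous (gg μ) :=
  continuous_iff_continuousAt.2 (fun u => (gg_hasDerivAt hμ u).continuousAt)

theorem gg1_continuous {μ : ℝ} (hμ : μ ≠ 0) : Continuous (gg1 μ) :=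
  continuous_iff_continuousAt.2 (fun u => (gg1_hasDerivAt hμ u).continuousAt)

theorem ger_continuous (μ : ℝ) : Continuous (ger μ) := by
  unfold ger
  have h1 := bmp1_continuous
  have h2 := bmp2_continuous
  fun_prop

end Pool.Agent.Helper47.MA
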