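import Mathlib
import Pool.Agent.Helper47.MA.SolFacts
import Pool.Agent.Helper47.MA.BmpFacts

set_option autoImplicit false

namespace Pool.Agent.Helper47.MA

open Set MeasureTheory Filter Topology

/-- The range of `q` for the dual test. -/
def J0 (h : ℝ) : Set ℝ := Ioo (-(3 / 10 * h)) (3 / 10 * h)

theorem J0_open (h : ℝ) : IsOpen (J0 h) := isOpen_Ioo

theorem J0_abs {h q : ℝ} (hq : q ∈ J0 h) : |q| < 3 / 10 * h := abs_lt.2 hq

section

variable {D : ℕ} {h μ r ρ V : ℝ} {θ1 θ2 : Fin D → Bool} {Y1 p1 ψ1 Yx1 Yq1 Y2 p2 ψ2 Yx2 Yq2 : ℝ × ℝ → ℝ}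
  {j : Fin D}

theorem J0_om (hh : 0 < h) {x q : ℝ} (hx : x ∈ XI) (hq : q ∈ J0 h) : (x, q) ∈ Om h :=
  xi_om hx (by have := J0_abs hq; linarith)

theorem J0_sub (hh : 0 < h) : XI ×ˢ J0 h ⊆ Om h := by
  rintro ⟨x, q⟩ hz
  exact J0_om hh hz.1 hz.2

/-- The scaled variable is small in the strip. -/
theorem scaled_J0 {k : ℝ → ℝ → ℝ} (hh : 0 < h) (s : Sol k V h Y1 p1 ψ1 Yx1 Yq1) {x q : ℝ}
    (hx : x ∈ XI) (hq : q ∈ J0 h) : |tau x * Y1 (x, q) / h| ≤ 1 / 2 := by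
  have h1 := s.near' (x := x) (q := q) hh hx (by have := J0_abs hq; linarith)
  have h2 : |Y1 (x, q)| ≤ 322 / 1000 * h := by
    have h3 : |Y1 (x, q)| ≤ |Y1 (x, q) - q| + |q| := by
      have := abs_add_le (Y1 (x, q) - q) q
      simpa using this
    have := J0_abs hq
    linarith
  have ht := tau_bounds (XI_abs hx)
  rw [abs_div, abs_mul, abs_of_pos (tau_pos x), abs_of_pos hh, div_le_iff₀ hh]
  calc tau x * |Y1 (x, q)| ≤ 1008 / 1000 * (322 / 1000 * h) :=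
        mul_le_mul ht.2 h2 (abs_nonneg _) (by norm_num)
    _ ≤ 1 / 2 * h := by linarith

/-- The pattern near the guide `j` in the strip. -/
theorem kk_J0 {k : ℝ → ℝ → ℝ} {θ : Fin D → Bool} (hh : 0 < h) (hr : 0 < r) (hrD : r * D ≤ 1 / 4)
    (s : Sol k V h Y1 p1 ψ1 Yx1 Yq1) {x q : ℝ}
    (hx : x ∈ XI) (hq : q ∈ J0 h) (hu : |2 * D * x - (j : ℕ)| ≤ 1 / 4) :
    kk D h μ r ρ θ x (Y1 (x, q)) = ((2 * D * x - (j : ℕ)) ^ 2 - μ) +
      (if θ j then 1 else 0) * fb D h r ρ j x (Y1 (x, q)) := by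
  rw [kk_guide hr hrD θ j hu]
  unfold k0
  rw [alp_guide j hu, mper_one (scaled_J0 hh s hx hq), bmp_one]
  · ring
  · have hj : ((j : ℕ) : ℝ) + 1 ≤ D := by exact_mod_cast j.2
    have hj0 : (0 : ℝ) ≤ ((j : ℕ) : ℝ) := Nat.cast_nonneg _
    have hu2 := abs_le.1 hu
    rw [abs_le]
    constructor
    · by_contra hc
      push Not at hc
      nlinarith [hu2.1, hu2.2]
    · by_contra hc
      push Not at hc
      nlinarith [hu2.1, hu2.2]

/-- The ground state at the guide `j`. -/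
noncomputable def GG (D : ℕ) (μ : ℝ) (j : Fin D) (x : ℝ) : ℝ := gg μ (2 * D * x - (j : ℕ))

/-- The derivative of the ground state at the guide `j`. -/
noncomputable def GG1 (D : ℕ) (μ : ℝ) (j : Fin D) (x : ℝ) : ℝ :=
  2 * D * gg1 μ (2 * D * x - (j : ℕ))

/-- The potential near the guide `j`. -/
noncomputable def KJ (D : ℕ) (μ : ℝ) (j : Fin D) (x : ℝ) : ℝ := (2 * D * x - (j : ℕ)) ^ 2 - μ

theorem lin_hasDerivAt (D : ℕ) (j : Fin D) (x : ℝ) :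
    HasDerivAt (fun x : ℝ => 2 * (D : ℝ) * x - (j : ℕ)) (2 * D) x := by
  have := ((hasDerivAt_id x).const_mul (2 * (D : ℝ))).sub_const ((j : ℕ) : ℝ)
  simpa using this

theorem GG_hasDerivAt (hμ : μ ≠ 0) (x : ℝ) : HasDerivAt (GG D μ j) (GG1 D μ j x) x := by
  have h1 := gg_hasDerivAt hμ (2 * D * x - (j : ℕ))
  have h2 := h1.comp x (lin_hasDerivAt D j x)
  refine h2.congr_deriv ?_
  unfold GG1
  ring

theorem GG1_hasDerivAt (hμ : μ ≠ 0) (x : ℝ) : HasDerivAt (GG1 D μ j)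
    ((2 * D / μ) ^ 2 * (KJ D μ j x * GG D μ j x) +
      (2 * D) ^ 2 * ger μ (2 * D * x - (j : ℕ))) x := by
  have h1 := gg1_hasDerivAt hμ (2 * D * x - (j : ℕ))
  have h2 := (h1.comp x (lin_hasDerivAt D j x)).const_mul (2 * (D : ℝ))
  refine h2.congr_deriv ?_
  unfold KJ GG
  field_simp

theorem far_r (x : ℝ) (hx : x = 3 / 2 ∨ x = -3 / 2) : 1 / 4 ≤ |2 * D * x - ((j : ℕ) : ℝ)| := by
  have hj : ((j : ℕ) : ℝ) + 1 ≤ D := by exact_mod_cast j.2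
  have hj0 : (0 : ℝ) ≤ ((j : ℕ) : ℝ) := Nat.cast_nonneg _
  rcases hx with rfl | rfl
  · rw [abs_of_nonneg (by linarith)]
    linarith
  · rw [abs_of_nonpos (by linarith)]
    linarith

theorem lin_continuous : Continuous (fun x : ℝ => 2 * (D : ℝ) * x - (j : ℕ)) := by fun_prop

theorem GG_continuous (hμ : μ ≠ 0) : Continuous (GG D μ j) :=
  (gg_continuous hμ).comp lin_continuous

theorem GG1_continuous (hμ : μ ≠ 0) : Continuous (GG1 D μ j) :=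
  continuous_const.mul ((gg1_continuous hμ).comp lin_continuous)

theorem KJ_continuous : Continuous (KJ D μ j) := by
  unfold KJ
  fun_prop

/-- The main identity of the dual test, second derivative of `b`. -/
theorem b2_identity (hh : 0 < h) (hμ : 0 < μ) (hr : 0 < r) (hrD : r * D ≤ 1 / 4)
    (s1 : Sol (kk D h μ r ρ θ1) V h Y1 p1 ψ1 Yx1 Yq1)
    (s2 : Sol (kk D h μ r ρ θ2) V h Y2 p2 ψ2 Yx2 Yq2)
    (h1 : θ1 j = true) (h2 : θ2 j = false)
    (ck1 : ContinuousOn (fun z : ℝ × ℝ => kk D h μ r ρ θ1 z.1 (Y1 z) * Yq1 z) (XI ×ˢ J0 h))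
    (ck2 : ContinuousOn (fun z : ℝ × ℝ => kk D h μ r ρ θ2 z.1 (Y2 z) * Yq2 z) (XI ×ˢ J0 h))
    {q : ℝ} (hq : q ∈ J0 h) :
    ∫ x in (-3 / 2)..(3 / 2), KJ D μ j x * (Yq1 (x, q) - Yq2 (x, q)) * GG D μ j x =
      -((2 * D / μ) ^ 2 * ∫ x in (-3 / 2)..(3 / 2), KJ D μ j x * (ψ1 (x, q) - ψ2 (x, q)) *
        GG D μ j x)
      - ((2 * D) ^ 2 * ∫ x in (-3 / 2)..(3 / 2), (ψ1 (x, q) - ψ2 (x, q)) *
          ger μ (2 * D * x - (j : ℕ)))
      - ∫ x in (-3 / 2)..(3 / 2), fb D h r ρ j x (Y1 (x, q)) * Yq1 (x, q) * GG D μ j x := by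
  have cY1 : ContinuousOn Y1 (XI ×ˢ J0 h) :=
    fun z hz => (s1.hY z (J0_sub hh hz)).continuousAt.continuousWithinAt
  have cYq1 : ContinuousOn Yq1 (XI ×ˢ J0 h) := s1.cq.mono (J0_sub hh)
  have cψ : ContinuousOn (fun z => ψ1 z - ψ2 z) (XI ×ˢ J0 h) :=
    fun z hz => ((s1.hψ z (J0_sub hh hz)).continuousAt.sub
      (s2.hψ z (J0_sub hh hz)).continuousAt).continuousWithinAt
  have cP : ContinuousOn (fun z => p1 z - p2 z) (XI ×ˢ J0 h) :=
    fun z hz => ((s1.hp z (J0_sub hh hz)).continuousAt.sub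
      (s2.hp z (J0_sub hh hz)).continuousAt).continuousWithinAt
  have cG : ContinuousOn (fun z : ℝ × ℝ => GG D μ j z.1) (XI ×ˢ J0 h) :=
    ((GG_continuous hμ.ne').comp continuous_fst).continuousOn
  have cG1 : ContinuousOn (fun z : ℝ × ℝ => GG1 D μ j z.1) (XI ×ˢ J0 h) :=
    ((GG1_continuous hμ.ne').comp continuous_fst).continuousOn
  have cK : ContinuousOn (fun z : ℝ × ℝ => KJ D μ j z.1) (XI ×ˢ J0 h) :=
    (KJ_continuous.comp continuous_fst).continuousOn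
  have cger : ContinuousOn (fun z : ℝ × ℝ => ger μ (2 * D * z.1 - (j : ℕ))) (XI ×ˢ J0 h) := by
    have := ger_continuous μ
    fun_prop
  have cfb : ContinuousOn (fun z : ℝ × ℝ => fb D h r ρ j z.1 (Y1 z)) (XI ×ˢ J0 h) :=
    cont_comp_fst cY1 (fb_continuous D h r ρ j)
  -- pointwise identity
  have e1 : ∫ x in (-3 / 2)..(3 / 2), KJ D μ j x * (Yq1 (x, q) - Yq2 (x, q)) * GG D μ j x =
      ∫ x in (-3 / 2)..(3 / 2), ((kk D h μ r ρ θ1 x (Y1 (x, q)) * Yq1 (x, q) -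
        kk D h μ r ρ θ2 x (Y2 (x, q)) * Yq2 (x, q)) * GG D μ j x -
        fb D h r ρ j x (Y1 (x, q)) * Yq1 (x, q) * GG D μ j x) := by
    apply intervalIntegral.integral_congr
    intro x hx
    rw [uIcc_of_le lr] at hx
    simp only
    by_cases hu : |2 * D * x - ((j : ℕ) : ℝ)| ≤ 1 / 4
    · rw [kk_J0 hh hr hrD s1 hx hq hu, kk_J0 hh hr hrD s2 hx hq hu, h1, h2]
      unfold KJ
      simp only [if_true, Bool.false_eq_true, if_false]
      ring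
    · have : GG D μ j x = 0 := gg_zero (by push Not at hu; exact hu.le)
      rw [this]
      ring
  rw [e1, intervalIntegral.integral_sub
    (ii_slice (f := fun z : ℝ × ℝ => (kk D h μ r ρ θ1 z.1 (Y1 z) * Yq1 z -
        kk D h μ r ρ θ2 z.1 (Y2 z) * Yq2 z) * GG D μ j z.1) lr ((ck1.sub ck2).mul cG) hq)
    (ii_slice (f := fun z : ℝ × ℝ => fb D h r ρ j z.1 (Y1 z) * Yq1 z * GG D μ j z.1) lr
      ((cfb.mul cYq1).mul cG) hq)]
  congr 1
  -- integrate by parts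
  have hom : ∀ x ∈ XI, ∀ q ∈ J0 h, (x, q) ∈ Om h := fun x hx q hq => J0_om hh hx hq
  have f1 := ftcx (f := fun z : ℝ × ℝ => (p1 z - p2 z) * GG D μ j z.1)
    (f' := fun z : ℝ × ℝ => (kk D h μ r ρ θ1 z.1 (Y1 z) * Yq1 z -
        kk D h μ r ρ θ2 z.1 (Y2 z) * Yq2 z) * GG D μ j z.1 + (p1 z - p2 z) * GG1 D μ j z.1)
    (fun x hx q hq => ((hasDerivAt_fst (s1.hp _ (hom x hx q hq))).sub
      (hasDerivAt_fst (s2.hp _ (hom x hx q hq)))).mul (GG_hasDerivAt hμ.ne' x))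
    (((ck1.sub ck2).mul cG).add (cP.mul cG1)) hq
  have f2 := ftcx (f := fun z : ℝ × ℝ => (ψ1 z - ψ2 z) * GG1 D μ j z.1)
    (f' := fun z : ℝ × ℝ => (-(p1 z) - -(p2 z)) * GG1 D μ j z.1 + (ψ1 z - ψ2 z) *
      ((2 * D / μ) ^ 2 * (KJ D μ j z.1 * GG D μ j z.1) +
      (2 * D) ^ 2 * ger μ (2 * D * z.1 - (j : ℕ))))
    (fun x hx q hq => ((hasDerivAt_fst (s1.hψ _ (hom x hx q hq))).sub
      (hasDerivAt_fst (s2.hψ _ (hom x hx q hq)))).mul (GG1_hasDerivAt hμ.ne' x))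
    (by
      have c1 : ContinuousOn (fun z : ℝ × ℝ => (-(p1 z) - -(p2 z)) * GG1 D μ j z.1)
          (XI ×ˢ J0 h) := by
        refine (cP.neg.mul cG1).congr ?_
        intro z _
        simp only [Pi.mul_apply, Pi.neg_apply]
        ring
      exact c1.add (cψ.mul ((continuousOn_const.mul (cK.mul cG)).add (continuousOn_const.mul cger))))
    hq
  have gr : GG D μ j (3 / 2) = 0 := gg_zero (far_r _ (Or.inl rfl))
  have gl : GG D μ j (-3 / 2) = 0 := gg_zero (far_r _ (Or.inr rfl))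
  have g1r : GG1 D μ j (3 / 2) = 0 := by
    unfold GG1
    rw [gg1_zero (far_r _ (Or.inl rfl)), mul_zero]
  have g1l : GG1 D μ j (-3 / 2) = 0 := by
    unfold GG1
    rw [gg1_zero (far_r _ (Or.inr rfl)), mul_zero]
  simp only [gr, gl, g1r, g1l, mul_zero, sub_zero] at f1 f2
  have f12 : (∫ x in (-3 / 2)..(3 / 2), ((kk D h μ r ρ θ1 x (Y1 (x, q)) * Yq1 (x, q) -
        kk D h μ r ρ θ2 x (Y2 (x, q)) * Yq2 (x, q)) * GG D μ j x +
        (p1 (x, q) - p2 (x, q)) * GG1 D μ j x)) +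
      (∫ x in (-3 / 2)..(3 / 2), ((-(p1 (x, q)) - -(p2 (x, q))) * GG1 D μ j x +
        (ψ1 (x, q) - ψ2 (x, q)) * ((2 * D / μ) ^ 2 * (KJ D μ j x * GG D μ j x) +
      (2 * D) ^ 2 * ger μ (2 * D * x - (j : ℕ))))) = 0 := by
    rw [f1, f2, add_zero]
  rw [← intervalIntegral.integral_add] at f12
  · have f3 : ∫ x in (-3 / 2)..(3 / 2), (((kk D h μ r ρ θ1 x (Y1 (x, q)) * Yq1 (x, q) -
        kk D h μ r ρ θ2 x (Y2 (x, q)) * Yq2 (x, q)) * GG D μ j x +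
        (p1 (x, q) - p2 (x, q)) * GG1 D μ j x) +
        ((-(p1 (x, q)) - -(p2 (x, q))) * GG1 D μ j x +
        (ψ1 (x, q) - ψ2 (x, q)) * ((2 * D / μ) ^ 2 * (KJ D μ j x * GG D μ j x) +
      (2 * D) ^ 2 * ger μ (2 * D * x - (j : ℕ))))) =
      ∫ x in (-3 / 2)..(3 / 2), ((kk D h μ r ρ θ1 x (Y1 (x, q)) * Yq1 (x, q) -
        kk D h μ r ρ θ2 x (Y2 (x, q)) * Yq2 (x, q)) * GG D μ j x +
        ((2 * D / μ) ^ 2 * (KJ D μ j x * (ψ1 (x, q) - ψ2 (x, q)) * GG D μ j x) +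
        (2 * D) ^ 2 * ((ψ1 (x, q) - ψ2 (x, q)) * ger μ (2 * D * x - (j : ℕ))))) := by
      congr 1
      funext x
      ring
    rw [f3] at f12
    have i1 : IntervalIntegrable (fun x => (kk D h μ r ρ θ1 x (Y1 (x, q)) * Yq1 (x, q) -
        kk D h μ r ρ θ2 x (Y2 (x, q)) * Yq2 (x, q)) * GG D μ j x) volume (-3 / 2) (3 / 2) :=
      ii_slice (f := fun z : ℝ × ℝ => (kk D h μ r ρ θ1 z.1 (Y1 z) * Yq1 z -
        kk D h μ r ρ θ2 z.1 (Y2 z) * Yq2 z) * GG D μ j z.1) lr ((ck1.sub ck2).mul cG) hq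
    have i2 : IntervalIntegrable (fun x => KJ D μ j x * (ψ1 (x, q) - ψ2 (x, q)) * GG D μ j x)
        volume (-3 / 2) (3 / 2) :=
      ii_slice (f := fun z : ℝ × ℝ => KJ D μ j z.1 * (ψ1 z - ψ2 z) * GG D μ j z.1) lr
        ((cK.mul cψ).mul cG) hq
    have i3 : IntervalIntegrable (fun x => (ψ1 (x, q) - ψ2 (x, q)) * ger μ (2 * D * x - (j : ℕ)))
        volume (-3 / 2) (3 / 2) :=
      ii_slice (f := fun z : ℝ × ℝ => (ψ1 z - ψ2 z) * ger μ (2 * D * z.1 - (j : ℕ))) lr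
        (cψ.mul cger) hq
    rw [intervalIntegral.integral_add i1 ((i2.const_mul _).add (i3.const_mul _)),
      intervalIntegral.integral_add (i2.const_mul _) (i3.const_mul _),
      intervalIntegral.integral_const_mul, intervalIntegral.integral_const_mul] at f12
    linarith
  · exact ii_slice (f := fun z : ℝ × ℝ => (kk D h μ r ρ θ1 z.1 (Y1 z) * Yq1 z -
        kk D h μ r ρ θ2 z.1 (Y2 z) * Yq2 z) * GG D μ j z.1 + (p1 z - p2 z) * GG1 D μ j z.1) lr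
        (((ck1.sub ck2).mul cG).add (cP.mul cG1)) hq
  · exact ii_slice (f := fun z : ℝ × ℝ => (-(p1 z) - -(p2 z)) * GG1 D μ j z.1 + (ψ1 z - ψ2 z) *
      ((2 * D / μ) ^ 2 * (KJ D μ j z.1 * GG D μ j z.1) +
      (2 * D) ^ 2 * ger μ (2 * D * z.1 - (j : ℕ)))) lr
      (by
      have c1 : ContinuousOn (fun z : ℝ × ℝ => (-(p1 z) - -(p2 z)) * GG1 D μ j z.1)
          (XI ×ˢ J0 h) := by
        refine (cP.neg.mul cG1).congr ?_
        intro z _
        simp only [Pi.mul_apply, Pi.neg_apply]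
        ring
      exact c1.add (cψ.mul ((continuousOn_const.mul (cK.mul cG)).add (continuousOn_const.mul cger))))
      hq

end

end Pool.Agent.Helper47.MA
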