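import Mathlib
import Pool.Agent.Helper47.MA.Test

set_option autoImplicit false

namespace Pool.Agent.Helper47.MA

open Set MeasureTheory Filter Topology

theorem kk_continuous (D : ℕ) (h μ r ρ : ℝ) (θ : Fin D → Bool) :
    Continuous (fun z : ℝ × ℝ => kk D h μ r ρ θ z.1 z.2) := by
  unfold kk
  apply (k0_continuous D h μ).add
  apply continuous_finsetSum
  intro j _
  exact continuous_const.mul (fb_continuous D h r ρ j)

/-- The cutoff in `q`. -/
noncomputable def chi (h q : ℝ) : ℝ := bmp (4 / h * q)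

/-- The test function. -/
noncomputable def TT (h η q0 q : ℝ) : ℝ := bmp (4 / h * q) * Real.sin (η * (q - q0))

/-- Its first derivative. -/
noncomputable def TT1 (h η q0 q : ℝ) : ℝ :=
  4 / h * bmp1 (4 / h * q) * Real.sin (η * (q - q0)) +
    bmp (4 / h * q) * (η * Real.cos (η * (q - q0)))

/-- The part of the second derivative that does not cancel. -/
noncomputable def TTr (h η q0 q : ℝ) : ℝ :=
  (4 / h) ^ 2 * bmp2 (4 / h * q) * Real.sin (η * (q - q0)) +
    2 * (4 / h * bmp1 (4 / h * q)) * (η * Real.cos (η * (q - q0)))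

theorem lin2_hasDerivAt (a q : ℝ) : HasDerivAt (fun q : ℝ => a * q) a q := by
  simpa using (hasDerivAt_id q).const_mul a

theorem osc_hasDerivAt (η q0 q : ℝ) : HasDerivAt (fun q : ℝ => η * (q - q0)) η q := by
  have := ((hasDerivAt_id q).sub_const q0).const_mul η
  simpa using this

theorem TT_hasDerivAt (h η q0 q : ℝ) : HasDerivAt (TT h η q0) (TT1 h η q0 q) q := by
  have h1 := bmp_hasDerivAt (4 / h * q)
  have h2 : HasDerivAt (fun q => bmp (4 / h * q)) (bmp1 (4 / h * q) * (4 / h)) q :=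
    h1.comp q (lin2_hasDerivAt (4 / h) q)
  have h3 := h2.mul (osc_hasDerivAt η q0 q).sin
  refine h3.congr_deriv ?_
  unfold TT1
  ring

theorem TT1_hasDerivAt (h η q0 q : ℝ) :
    HasDerivAt (TT1 h η q0) (TTr h η q0 q - η ^ 2 * TT h η q0 q) q := by
  have h1 := bmp_hasDerivAt (4 / h * q)
  have h1' := bmp1_hasDerivAt (4 / h * q)
  have h2 : HasDerivAt (fun q => bmp (4 / h * q)) (bmp1 (4 / h * q) * (4 / h)) q :=
    h1.comp q (lin2_hasDerivAt (4 / h) q)
  have h2' : HasDerivAt (fun q => bmp1 (4 / h * q)) (bmp2 (4 / h * q) * (4 / h)) q :=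
    h1'.comp q (lin2_hasDerivAt (4 / h) q)
  have h3 := ((h2'.const_mul (4 / h)).mul (osc_hasDerivAt η q0 q).sin).add
    (h2.mul ((osc_hasDerivAt η q0 q).cos.const_mul η))
  refine h3.congr_deriv ?_
  unfold TTr TT
  ring

theorem TT_continuous (h η q0 : ℝ) : Continuous (TT h η q0) :=
  continuous_iff_continuousAt.2 (fun q => (TT_hasDerivAt h η q0 q).continuousAt)

theorem TT1_continuous (h η q0 : ℝ) : Continuous (TT1 h η q0) :=
  continuous_iff_continuousAt.2 (fun q => (TT1_hasDerivAt h η q0 q).continuousAt)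

theorem TTr_continuous (h η q0 : ℝ) : Continuous (TTr h η q0) := by
  unfold TTr
  have h1 := bmp1_continuous
  have h2 := bmp2_continuous
  fun_prop

theorem quarter_abs {h : ℝ} (hh : 0 < h) {q : ℝ} (hq : q = h / 4 ∨ q = -(h / 4)) :
    1 ≤ |4 / h * q| := by
  rcases hq with rfl | rfl
  · have : 4 / h * (h / 4) = 1 := by field_simp
    rw [this]
    simp
  · have : 4 / h * (-(h / 4)) = -1 := by field_simp
    rw [this]
    simp

theorem TT_end {h η q0 : ℝ} (hh : 0 < h) {q : ℝ} (hq : q = h / 4 ∨ q = -(h / 4)) :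
    TT h η q0 q = 0 := by
  unfold TT
  rw [bmp_zero (quarter_abs hh hq), zero_mul]

theorem TT1_end {h η q0 : ℝ} (hh : 0 < h) {q : ℝ} (hq : q = h / 4 ∨ q = -(h / 4)) :
    TT1 h η q0 q = 0 := by
  unfold TT1
  rw [bmp_zero (quarter_abs hh hq), bmp1_zero_out (quarter_abs hh hq)]
  ring

theorem TT_abs_le (h η q0 q : ℝ) : |TT h η q0 q| ≤ 1 := by
  unfold TT
  rw [abs_mul, abs_of_nonneg (bmp_nonneg _)]
  calc bmp (4 / h * q) * |Real.sin (η * (q - q0))| ≤ 1 * 1 :=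
        mul_le_mul (bmp_le_one _) (Real.abs_sin_le_one _) (abs_nonneg _) (by norm_num)
    _ = 1 := by norm_num

theorem TTr_bound {h η q0 C : ℝ} (hh : 1000 ≤ h) (hη : 0 ≤ η) (hC : 0 ≤ C)
    (h1 : ∀ t, |bmp1 t| ≤ C) (h2 : ∀ t, |bmp2 t| ≤ C) (q : ℝ) :
    |TTr h η q0 q| ≤ C * (1 + η) := by
  unfold TTr
  have h4 : 4 / h ≤ 1 / 250 := by
    rw [div_le_iff₀ (by linarith)]
    linarith
  have h40 : 0 ≤ 4 / h := by positivity
  have a1 : |(4 / h) ^ 2 * bmp2 (4 / h * q) * Real.sin (η * (q - q0))| ≤ C := by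
    rw [abs_mul, abs_mul, abs_of_nonneg (sq_nonneg _)]
    have e1 : (4 / h) ^ 2 ≤ 1 := by nlinarith
    calc (4 / h) ^ 2 * |bmp2 (4 / h * q)| * |Real.sin (η * (q - q0))| ≤ (1 * C) * 1 := by
          apply mul_le_mul _ (Real.abs_sin_le_one _) (abs_nonneg _) (by linarith)
          exact mul_le_mul e1 (h2 _) (abs_nonneg _) (by norm_num)
      _ = C := by ring
  have a2 : |2 * (4 / h * bmp1 (4 / h * q)) * (η * Real.cos (η * (q - q0)))| ≤ C * η := by
    rw [abs_mul, abs_mul, abs_mul, abs_mul, abs_of_nonneg h40, abs_of_nonneg hη,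
      abs_of_pos (by norm_num : (0 : ℝ) < 2)]
    have e1 : 2 * (4 / h * |bmp1 (4 / h * q)|) ≤ C := by
      have : 4 / h * |bmp1 (4 / h * q)| ≤ 1 / 250 * C :=
        mul_le_mul h4 (h1 _) (abs_nonneg _) (by norm_num)
      linarith
    have e2 : η * |Real.cos (η * (q - q0))| ≤ η * 1 :=
      mul_le_mul_of_nonneg_left (Real.abs_cos_le_one _) hη
    calc 2 * (4 / h * |bmp1 (4 / h * q)|) * (η * |Real.cos (η * (q - q0))|) ≤ C * (η * 1) :=
          mul_le_mul e1 e2 (by positivity) hC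
      _ = C * η := by ring
  calc _ ≤ |(4 / h) ^ 2 * bmp2 (4 / h * q) * Real.sin (η * (q - q0))| +
        |2 * (4 / h * bmp1 (4 / h * q)) * (η * Real.cos (η * (q - q0)))| := abs_add_le _ _
    _ ≤ C + C * η := add_le_add a1 a2
    _ = C * (1 + η) := by ring

theorem TTr_zero {h η q0 : ℝ} (hh : 0 < h) {q : ℝ} (hq : |q| ≤ h / 8) : TTr h η q0 q = 0 := by
  unfold TTr
  have h1 : |4 / h * q| ≤ 1 / 2 := by
    rw [abs_mul, abs_of_pos (by positivity)]
    calc 4 / h * |q| ≤ 4 / h * (h / 8) := by gcongr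
      _ = 1 / 2 := by field_simp; norm_num
  rw [bmp1_zero_in h1, bmp2_zero_in h1]
  ring

section

variable {D : ℕ} {h μ r ρ V : ℝ} {θ1 θ2 : Fin D → Bool} {Y1 p1 ψ1 Yx1 Yq1 Y2 p2 ψ2 Yx2 Yq2 : ℝ × ℝ → ℝ}
  {j : Fin D}

/-- The integrated identity of the dual test. -/
theorem test_identity (hh : 1000 ≤ h) (hμ : 0 < μ) (hr : 0 < r) (hrD : r * D ≤ 1 / 4)
    (s1 : Sol (kk D h μ r ρ θ1) V h Y1 p1 ψ1 Yx1 Yq1)
    (s2 : Sol (kk D h μ r ρ θ2) V h Y2 p2 ψ2 Yx2 Yq2)
    (h1 : θ1 j = true) (h2 : θ2 j = false) (q0 : ℝ) :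
    ∫ q in (-(h / 4))..(h / 4), (∫ x in (-3 / 2)..(3 / 2), Fb D h r ρ j x (Y1 (x, q)) * GG D μ j x) *
        TT1 h (2 * D / μ) q0 q =
      ∫ q in (-(h / 4))..(h / 4),
        ((∫ x in (-3 / 2)..(3 / 2), KJ D μ j x * (ψ1 (x, q) - ψ2 (x, q)) * GG D μ j x) *
          TTr h (2 * D / μ) q0 q +
        (2 * D) ^ 2 * (∫ x in (-3 / 2)..(3 / 2), (ψ1 (x, q) - ψ2 (x, q)) *
          ger μ (2 * D * x - (j : ℕ))) * TT h (2 * D / μ) q0 q) := by
  have h0 : 0 < h := by linarith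
  set η : ℝ := 2 * D / μ with hη
  have cY1 : ContinuousOn Y1 (XI ×ˢ J0 h) :=
    fun z hz => (s1.hY z (J0_sub h0 hz)).continuousAt.continuousWithinAt
  have cY2 : ContinuousOn Y2 (XI ×ˢ J0 h) :=
    fun z hz => (s2.hY z (J0_sub h0 hz)).continuousAt.continuousWithinAt
  have cYq1 : ContinuousOn Yq1 (XI ×ˢ J0 h) := s1.cq.mono (J0_sub h0)
  have cYq2 : ContinuousOn Yq2 (XI ×ˢ J0 h) := s2.cq.mono (J0_sub h0)
  have cψ : ContinuousOn (fun z => ψ1 z - ψ2 z) (XI ×ˢ J0 h) :=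
    fun z hz => ((s1.hψ z (J0_sub h0 hz)).continuousAt.sub
      (s2.hψ z (J0_sub h0 hz)).continuousAt).continuousWithinAt
  have cD : ContinuousOn (fun z => Y1 z - Y2 z) (XI ×ˢ J0 h) := cY1.sub cY2
  have cG : ContinuousOn (fun z : ℝ × ℝ => GG D μ j z.1) (XI ×ˢ J0 h) :=
    ((GG_continuous hμ.ne').comp continuous_fst).continuousOn
  have cK : ContinuousOn (fun z : ℝ × ℝ => KJ D μ j z.1) (XI ×ˢ J0 h) :=
    (KJ_continuous.comp continuous_fst).continuousOn
  have cger : ContinuousOn (fun z : ℝ × ℝ => ger μ (2 * D * z.1 - (j : ℕ))) (XI ×ˢ J0 h) := by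
    have := ger_continuous μ
    fun_prop
  have cfb : ContinuousOn (fun z : ℝ × ℝ => fb D h r ρ j z.1 (Y1 z)) (XI ×ˢ J0 h) :=
    cont_comp_fst cY1 (fb_continuous D h r ρ j)
  have cFb : ContinuousOn (fun z : ℝ × ℝ => Fb D h r ρ j z.1 (Y1 z)) (XI ×ˢ J0 h) :=
    cont_comp_fst cY1 (Fb_continuous D h r ρ j)
  have ck1 : ContinuousOn (fun z : ℝ × ℝ => kk D h μ r ρ θ1 z.1 (Y1 z) * Yq1 z) (XI ×ˢ J0 h) :=
    (cont_comp_fst cY1 (kk_continuous D h μ r ρ θ1)).mul cYq1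
  have ck2 : ContinuousOn (fun z : ℝ × ℝ => kk D h μ r ρ θ2 z.1 (Y2 z) * Yq2 z) (XI ×ˢ J0 h) :=
    (cont_comp_fst cY2 (kk_continuous D h μ r ρ θ2)).mul cYq2
  have hom : ∀ x ∈ XI, ∀ q ∈ J0 h, (x, q) ∈ Om h := fun x hx q hq => J0_om h0 hx hq
  -- the functions of q
  set b : ℝ → ℝ := fun q => ∫ x in (-3 / 2)..(3 / 2), KJ D μ j x * (ψ1 (x, q) - ψ2 (x, q)) *
    GG D μ j x with hb
  set b1 : ℝ → ℝ := fun q => ∫ x in (-3 / 2)..(3 / 2), KJ D μ j x * (Y1 (x, q) - Y2 (x, q)) *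
    GG D μ j x with hb1
  set E : ℝ → ℝ := fun q => (2 * D) ^ 2 * ∫ x in (-3 / 2)..(3 / 2), (ψ1 (x, q) - ψ2 (x, q)) *
          ger μ (2 * D * x - (j : ℕ)) with hE
  set Φ : ℝ → ℝ := fun q => ∫ x in (-3 / 2)..(3 / 2), Fb D h r ρ j x (Y1 (x, q)) * GG D μ j x
    with hΦ
  have db : ∀ q ∈ J0 h, HasDerivAt b (b1 q) q := fun q hq =>
    leib lr (J0_open h) (fun z => KJ D μ j z.1 * (ψ1 z - ψ2 z) * GG D μ j z.1)
      (fun z => KJ D μ j z.1 * (Y1 z - Y2 z) * GG D μ j z.1)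
      ((cK.mul cψ).mul cG)
      (fun x hx q hq => (((hasDerivAt_snd (s1.hψ _ (hom x hx q hq))).sub
        (hasDerivAt_snd (s2.hψ _ (hom x hx q hq)))).const_mul (KJ D μ j x)).mul_const (GG D μ j x))
      ((cK.mul cD).mul cG) hq
  have db1 : ∀ q ∈ J0 h, HasDerivAt b1 (∫ x in (-3 / 2)..(3 / 2),
      KJ D μ j x * (Yq1 (x, q) - Yq2 (x, q)) * GG D μ j x) q := fun q hq =>
    leib lr (J0_open h) (fun z => KJ D μ j z.1 * (Y1 z - Y2 z) * GG D μ j z.1)
      (fun z => KJ D μ j z.1 * (Yq1 z - Yq2 z) * GG D μ j z.1)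
      ((cK.mul cD).mul cG)
      (fun x hx q hq => (((hasDerivAt_snd (s1.hY _ (hom x hx q hq))).sub
        (hasDerivAt_snd (s2.hY _ (hom x hx q hq)))).const_mul (KJ D μ j x)).mul_const (GG D μ j x))
      ((cK.mul (cYq1.sub cYq2)).mul cG) hq
  have dΦ : ∀ q ∈ J0 h, HasDerivAt Φ (∫ x in (-3 / 2)..(3 / 2),
      fb D h r ρ j x (Y1 (x, q)) * Yq1 (x, q) * GG D μ j x) q := fun q hq =>
    leib lr (J0_open h) (fun z => Fb D h r ρ j z.1 (Y1 z) * GG D μ j z.1)
      (fun z => fb D h r ρ j z.1 (Y1 z) * Yq1 z * GG D μ j z.1)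
      (cFb.mul cG)
      (fun x hx q hq => by
        have e0 := Fb_hasDerivAt D h r ρ j x (Y1 (x, q))
        have e1 : HasDerivAt (fun q => Fb D h r ρ j x (Y1 (x, q)))
            (fb D h r ρ j x (Y1 (x, q)) * Yq1 (x, q)) q :=
          HasDerivAt.comp (h := fun q => Y1 (x, q)) (h₂ := Fb D h r ρ j x) q e0
            (hasDerivAt_snd (s1.hY _ (hom x hx q hq)))
        exact e1.mul_const (GG D μ j x))
      ((cfb.mul cYq1).mul cG) hq
  have cb : ContinuousOn b (J0 h) := fun q hq => (db q hq).continuousAt.continuousWithinAt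
  have cΦ : ContinuousOn Φ (J0 h) := fun q hq => (dΦ q hq).continuousAt.continuousWithinAt
  have cE : ContinuousOn E (J0 h) := by
    apply continuousOn_const.mul
    exact continuousOn_param_integral lr (J0_open h)
      (fun z : ℝ × ℝ => (ψ1 z - ψ2 z) * ger μ (2 * D * z.1 - (j : ℕ))) (cψ.mul cger)
  have hsub : uIcc (-(h / 4)) (h / 4) ⊆ J0 h := by
    rw [uIcc_of_le (by linarith)]
    intro q hq
    exact ⟨by linarith [hq.1], by linarith [hq.2]⟩
  -- the total derivative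
  have key : ∫ q in (-(h / 4))..(h / 4), (Φ q * TT1 h η q0 q -
      (b q * TTr h η q0 q + E q * TT h η q0 q)) = 0 := by
    rw [intervalIntegral.integral_eq_sub_of_hasDerivAt
      (f := fun q => Φ q * TT h η q0 q + (b1 q * TT h η q0 q - b q * TT1 h η q0 q))]
    · rw [TT_end h0 (Or.inl rfl), TT1_end h0 (Or.inl rfl), TT_end h0 (Or.inr rfl),
        TT1_end h0 (Or.inr rfl)]
      ring
    · intro q hq
      have hq' := hsub hq
      have e1 := (dΦ q hq').mul (TT_hasDerivAt h η q0 q)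
      have e2 := (db1 q hq').mul (TT_hasDerivAt h η q0 q)
      have e3 := (db q hq').mul (TT1_hasDerivAt h η q0 q)
      have e4 := e1.add (e2.sub e3)
      refine e4.congr_deriv ?_
      have e5 := b2_identity h0 hμ hr hrD s1 s2 h1 h2 ck1 ck2 hq'
      have e6 : (∫ x in (-3 / 2)..(3 / 2),
          KJ D μ j x * (Yq1 (x, q) - Yq2 (x, q)) * GG D μ j x) =
          -(η ^ 2 * b q) - E q - ∫ x in (-3 / 2)..(3 / 2),
            fb D h r ρ j x (Y1 (x, q)) * Yq1 (x, q) * GG D μ j x := e5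
      rw [e6]
      ring
    · apply ContinuousOn.intervalIntegrable
      apply ContinuousOn.mono _ hsub
      exact (cΦ.mul (TT1_continuous h η q0).continuousOn).sub
        ((cb.mul (TTr_continuous h η q0).continuousOn).add
          (cE.mul (TT_continuous h η q0).continuousOn))
  rw [intervalIntegral.integral_sub] at key
  · exact sub_eq_zero.1 key
  · apply ContinuousOn.intervalIntegrable
    apply ContinuousOn.mono _ hsub
    exact cΦ.mul (TT1_continuous h η q0).continuousOn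
  · apply ContinuousOn.intervalIntegrable
    apply ContinuousOn.mono _ hsub
    exact (cb.mul (TTr_continuous h η q0).continuousOn).add
          (cE.mul (TT_continuous h η q0).continuousOn)

end

end Pool.Agent.Helper47.MA
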