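import Mathlib
import Pool.Agent.Helper47.MA.TestMain

set_option autoImplicit false

namespace Pool.Agent.Helper47.MA

open Set MeasureTheory Filter Topology

section

variable {k : ℝ → ℝ → ℝ} {D : ℕ} {h μ r ρ V : ℝ} {Y p ψ Yx Yq : ℝ × ℝ → ℝ} {j : Fin D}

theorem lip_q (s : Sol k V h Y p ψ Yx Yq) (hh : 0 < h) {x a b : ℝ} (hx : x ∈ XI) (ha : a ∈ J0 h)
    (hb : b ∈ J0 h) : |(Y (x, b) - b) - (Y (x, a) - a)| ≤ 11 / 10000 * |b - a| := by
  have hsub : ∀ t ∈ uIcc a b, t ∈ J0 h := by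
    intro t ht
    have hc : Convex ℝ (J0 h) := convex_Ioo _ _
    exact (hc.ordConnected.uIcc_subset ha hb) ht
  exact mvt_bound (f := fun q => Y (x, q) - q) (f' := fun q => Yq (x, q) - 1)
    (fun t ht => (hasDerivAt_snd (s.hY (x, t) (J0_om hh hx (hsub t ht)))).sub (hasDerivAt_id t))
    (fun t ht => s.bq (x, t) (J0_om hh hx (hsub t ht)))

theorem lip_x (s : Sol k V h Y p ψ Yx Yq) (hh : 0 < h) {q a b : ℝ} (ha : a ∈ XI) (hb : b ∈ XI)
    (hq : q ∈ J0 h) : |Y (b, q) - Y (a, q)| ≤ V * |b - a| := by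
  have hsub : ∀ t ∈ uIcc a b, t ∈ XI := by
    intro t ht
    have hc : Convex ℝ XI := convex_Icc _ _
    exact (hc.ordConnected.uIcc_subset ha hb) ht
  exact mvt_bound (f := fun x => Y (x, q)) (f' := fun x => Yx (x, q))
    (fun t ht => hasDerivAt_fst (s.hY (t, q) (J0_om hh (hsub t ht) hq)))
    (fun t ht => s.bx (t, q) (J0_om hh (hsub t ht) hq))

theorem xj_mem (j : Fin D) : ((j : ℕ) : ℝ) / (2 * D) ∈ XI := by
  have hj : ((j : ℕ) : ℝ) + 1 ≤ D := by exact_mod_cast j.2
  have hj0 : (0 : ℝ) ≤ ((j : ℕ) : ℝ) := Nat.cast_nonneg _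
  have hD : (0 : ℝ) < D := by linarith
  have h1 : 0 ≤ ((j : ℕ) : ℝ) / (2 * D) := by positivity
  refine ⟨by linarith, ?_⟩
  rw [div_le_iff₀ (by linarith)]
  linarith

theorem xj_mem' (j : Fin D) : 0 ≤ ((j : ℕ) : ℝ) / (2 * D) ∧ ((j : ℕ) : ℝ) / (2 * D) ≤ 1 / 2 := by
  have hj : ((j : ℕ) : ℝ) + 1 ≤ D := by exact_mod_cast j.2
  have hj0 : (0 : ℝ) ≤ ((j : ℕ) : ℝ) := Nat.cast_nonneg _
  have hD : (0 : ℝ) < D := by linarith
  refine ⟨by positivity, ?_⟩
  rw [div_le_iff₀ (by linarith)]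
  linarith

theorem exists_q0 (s : Sol k V h Y p ψ Yx Yq) (hh : 0 < h) {x : ℝ} (hx : x ∈ XI) :
    ∃ q0 : ℝ, |q0| ≤ 22 / 1000 * h ∧ Y (x, q0) = 0 := by
  have hle : -(22 / 1000 * h) ≤ 22 / 1000 * h := by linarith
  have hc : ContinuousOn (fun q => Y (x, q)) (Icc (-(22 / 1000 * h)) (22 / 1000 * h)) := by
    intro q hq
    have h1 := hasDerivAt_snd (s.hY (x, q) (xi_om hx (by
      rw [abs_lt]
      constructor <;> linarith [hq.1, hq.2])))
    exact h1.continuousAt.continuousWithinAt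
  have h1 := abs_le.1 (s.near' hh hx (q := 22 / 1000 * h) (by
      rw [abs_lt]
      constructor <;> linarith))
  have h2 := abs_le.1 (s.near' hh hx (q := -(22 / 1000 * h)) (by
      rw [abs_lt]
      constructor <;> linarith))
  have h3 := intermediate_value_Icc hle hc
  obtain ⟨q0, hq0, hY⟩ := h3 (show (0 : ℝ) ∈ Icc (Y (x, -(22 / 1000 * h))) (Y (x, 22 / 1000 * h))
    from ⟨by linarith [h2.2], by linarith [h1.1]⟩)
  exact ⟨q0, abs_le.2 ⟨by linarith [hq0.1], hq0.2⟩, hY⟩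

/-- The support of the bump along a solution. -/
theorem bump_supp (s : Sol k V h Y p ψ Yx Yq) (hh : 1000 ≤ h) (hV : h ≤ V)
    (hr : 0 < r) (hr1 : r ≤ 1 / 100)
    {q0 : ℝ} (hq0 : |q0| ≤ 22 / 1000 * h) (hY0 : Y (((j : ℕ) : ℝ) / (2 * D), q0) = 0)
    {x q : ℝ} (hx : x ∈ XI) (hq : q ∈ J0 h) (hne : Fb D h r ρ j x (Y (x, q)) ≠ 0) :
    |q - q0| ≤ 2 * r * V := by
  have h0 : 0 < h := by linarith
  have hq0J : q0 ∈ J0 h := by
    have := abs_le.1 hq0
    exact ⟨by linarith [this.1], by linarith [this.2]⟩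
  have hbm : bmp (2 * (x - (j : ℕ) / (2 * D)) / r) ≠ 0 := by
    intro hz
    apply hne
    unfold Fb
    rw [hz]
    ring
  have hbs : bs r (tau x * Y (x, q) / h) ≠ 0 := by
    intro hz
    apply hne
    unfold Fb
    rw [hz]
    ring
  have hx1 : |x - (j : ℕ) / (2 * D)| < r / 2 := by
    by_contra hc
    push Not at hc
    apply hbm
    apply bmp_zero
    rw [abs_div, abs_mul, abs_of_pos hr, abs_of_pos (by norm_num : (0 : ℝ) < 2), le_div_iff₀ hr]
    linarith
  have hs : |tau x * Y (x, q) / h| < r := by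
    by_contra hc
    push Not at hc
    apply hbs
    apply bs_zero hr (by linarith) hc
    have := scaled_J0 h0 s hx hq
    linarith
  have ht := tau_bounds (XI_abs hx)
  have hY1 : |Y (x, q)| ≤ 1009 / 1000 * (r * h) := by
    rw [abs_div, abs_mul, abs_of_pos (tau_pos x), abs_of_pos h0, div_lt_iff₀ h0] at hs
    have h1 : 992 / 1000 * |Y (x, q)| ≤ tau x * |Y (x, q)| :=
      mul_le_mul_of_nonneg_right ht.1 (abs_nonneg _)
    have h2 : 0 < r * h := mul_pos hr h0
    linarith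
  have h1 := lip_x s h0 hx (xj_mem j) hq
  have h2 := lip_q s h0 (xj_mem j) hq0J hq
  rw [hY0] at h2
  have hV0 : 0 < V := by linarith
  have h3 : V * |((j : ℕ) : ℝ) / (2 * D) - x| ≤ V * (r / 2) := by
    apply mul_le_mul_of_nonneg_left _ hV0.le
    rw [abs_sub_comm]
    exact hx1.le
  have h4 : r * h ≤ r * V := mul_le_mul_of_nonneg_left hV hr.le
  have h5 : 0 < r * V := mul_pos hr hV0
  -- combine
  have h6 : |Y (((j : ℕ) : ℝ) / (2 * D), q)| ≤ 1009 / 1000 * (r * V) + V * (r / 2) := by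
    have := abs_add_le (Y (((j : ℕ) : ℝ) / (2 * D), q) - Y (x, q)) (Y (x, q))
    rw [sub_add_cancel] at this
    linarith
  have h7 : |q - q0| ≤ |Y (((j : ℕ) : ℝ) / (2 * D), q)| + 11 / 10000 * |q - q0| := by
    have h8 : q - q0 = Y (((j : ℕ) : ℝ) / (2 * D), q) -
        ((Y (((j : ℕ) : ℝ) / (2 * D), q) - q) - (0 - q0)) := by ring
    calc |q - q0| = |Y (((j : ℕ) : ℝ) / (2 * D), q) -
        ((Y (((j : ℕ) : ℝ) / (2 * D), q) - q) - (0 - q0))| := by rw [← h8]
      _ ≤ |Y (((j : ℕ) : ℝ) / (2 * D), q)| +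
        |(Y (((j : ℕ) : ℝ) / (2 * D), q) - q) - (0 - q0)| := abs_sub _ _
      _ ≤ _ := by linarith
  nlinarith

/-- The value of the bump near its centre. -/
theorem bump_val (s : Sol k V h Y p ψ Yx Yq) (hh : 1000 ≤ h) (hV : h ≤ V)
    (hr : 0 < r) (hr1 : r ≤ 1 / 100)
    {q0 : ℝ} (hq0 : |q0| ≤ 22 / 1000 * h) (hY0 : Y (((j : ℕ) : ℝ) / (2 * D), q0) = 0)
    {x q : ℝ} (hx : x ∈ XI) (hq : q ∈ J0 h)
    (hx1 : |x - (j : ℕ) / (2 * D)| ≤ r * h / (8 * V)) (hq1 : |q - q0| ≤ r * h / 8) :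
    Fb D h r ρ j x (Y (x, q)) = ρ := by
  have h0 : 0 < h := by linarith
  have hV0 : 0 < V := by linarith
  have hq0J : q0 ∈ J0 h := by
    have := abs_le.1 hq0
    exact ⟨by linarith [this.1], by linarith [this.2]⟩
  have ht := tau_bounds (XI_abs hx)
  have h1 := lip_x s h0 (xj_mem j) hx hq
  have h2 := lip_q s h0 (xj_mem j) hq0J hq
  rw [hY0] at h2
  have hrh : 0 < r * h := mul_pos hr h0
  have h3 : V * |x - ((j : ℕ) : ℝ) / (2 * D)| ≤ r * h / 8 := by
    calc V * |x - ((j : ℕ) : ℝ) / (2 * D)| ≤ V * (r * h / (8 * V)) :=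
          mul_le_mul_of_nonneg_left hx1 hV0.le
      _ = r * h / 8 := by field_simp
  have h4 : |Y (x, q)| ≤ 252 / 1000 * (r * h) := by
    have h8 : Y (x, q) = (Y (x, q) - Y (((j : ℕ) : ℝ) / (2 * D), q)) +
        (((Y (((j : ℕ) : ℝ) / (2 * D), q) - q) - (0 - q0)) + (q - q0)) := by ring
    calc |Y (x, q)| = |(Y (x, q) - Y (((j : ℕ) : ℝ) / (2 * D), q)) +
        (((Y (((j : ℕ) : ℝ) / (2 * D), q) - q) - (0 - q0)) + (q - q0))| := by rw [← h8]
      _ ≤ |Y (x, q) - Y (((j : ℕ) : ℝ) / (2 * D), q)| +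
        (|(Y (((j : ℕ) : ℝ) / (2 * D), q) - q) - (0 - q0)| + |q - q0|) :=
        (abs_add_le _ _).trans (add_le_add_right (abs_add_le _ _) _)
      _ ≤ _ := by linarith
  unfold Fb
  rw [bmp_one, bs_one hr]
  · ring
  · rw [abs_div, abs_mul, abs_of_pos (tau_pos x), abs_of_pos h0, div_le_iff₀ h0]
    calc tau x * |Y (x, q)| ≤ 1008 / 1000 * (252 / 1000 * (r * h)) :=
          mul_le_mul ht.2 h4 (abs_nonneg _) (by norm_num)
      _ ≤ r / 3 * h := by nlinarith
  · rw [abs_div, abs_mul, abs_of_pos hr, abs_of_pos (by norm_num : (0 : ℝ) < 2), div_le_iff₀ hr]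
    have h5 : r * h / (8 * V) ≤ r / 8 := by
      rw [div_le_iff₀ (by linarith)]
      nlinarith
    linarith

theorem Fb_nonneg (hρ : 0 ≤ ρ) (x y : ℝ) : 0 ≤ Fb D h r ρ j x y :=
  mul_nonneg (mul_nonneg hρ (bmp_nonneg _)) (bs_nonneg _ _)

/-- The lower bound in the dual test. -/
theorem test_low (s : Sol k V h Y p ψ Yx Yq) (hh : 1000 ≤ h) (hV : h ≤ V)
    (hμ : 0 < μ) (hμ1 : μ ≤ 1) (hr : 0 < r) (hr1 : r ≤ 1 / 100) (hrV : 4 * D * r * V ≤ μ)
    (hρ : 0 ≤ ρ)
    {q0 : ℝ} (hq0 : |q0| ≤ 22 / 1000 * h) (hY0 : Y (((j : ℕ) : ℝ) / (2 * D), q0) = 0) :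
    2 * D / μ * (ρ * r ^ 2 * h ^ 2) / (64 * V) ≤
    ∫ q in (-(h / 4))..(h / 4), (∫ x in (-3 / 2)..(3 / 2), Fb D h r ρ j x (Y (x, q)) * GG D μ j x) *
        TT1 h (2 * D / μ) q0 q := by
  have h0 : 0 < h := by linarith
  have hV0 : 0 < V := by linarith
  have hD : (1 : ℝ) ≤ D := by
    have : 1 ≤ D := lt_of_le_of_lt (Nat.zero_le _) j.2
    exact_mod_cast this
  have hrh : 0 < r * h := mul_pos hr h0
  have hrV0 : 0 < r * V := mul_pos hr hV0
  have hrV1 : 2 * r * V ≤ 1 / 2 := by nlinarith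
  have hq0J : q0 ∈ J0 h := by
    have := abs_le.1 hq0
    exact ⟨by linarith [this.1], by linarith [this.2]⟩
  set η : ℝ := 2 * D / μ with hη
  have hη0 : 0 < η := by positivity
  set Φ : ℝ → ℝ := fun q => ∫ x in (-3 / 2)..(3 / 2), Fb D h r ρ j x (Y (x, q)) * GG D μ j x
    with hΦ
  have cY : ContinuousOn Y (XI ×ˢ J0 h) :=
    fun z hz => (s.hY z (J0_sub h0 hz)).continuousAt.continuousWithinAt
  have cG : ContinuousOn (fun z : ℝ × ℝ => GG D μ j z.1) (XI ×ˢ J0 h) :=
    ((GG_continuous hμ.ne').comp continuous_fst).continuousOn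
  have cFb : ContinuousOn (fun z : ℝ × ℝ => Fb D h r ρ j z.1 (Y z)) (XI ×ˢ J0 h) :=
    cont_comp_fst cY (Fb_continuous D h r ρ j)
  have cΦ : ContinuousOn Φ (J0 h) :=
    continuousOn_param_integral lr (J0_open h)
      (fun z : ℝ × ℝ => Fb D h r ρ j z.1 (Y z) * GG D μ j z.1) (cFb.mul cG)
  have hΦ0 : ∀ q, 0 ≤ Φ q := fun q => intervalIntegral.integral_nonneg lr
    (fun x _ => mul_nonneg (Fb_nonneg hρ _ _) (gg_nonneg _ _))
  have hsubq : Icc (-(h / 4)) (h / 4) ⊆ J0 h := by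
    intro q hq
    exact ⟨by linarith [hq.1], by linarith [hq.2]⟩
  -- pointwise lower bound
  have hpt : ∀ q ∈ Icc (-(h / 4)) (h / 4), η / 2 * Φ q ≤ Φ q * TT1 h η q0 q := by
    intro q hq
    by_cases hz : ∀ x ∈ XI, Fb D h r ρ j x (Y (x, q)) = 0
    · have : Φ q = 0 := by
        rw [hΦ]
        simp only
        have : ∫ x in (-3 / 2)..(3 / 2), Fb D h r ρ j x (Y (x, q)) * GG D μ j x =
            ∫ x in (-3 / 2 : ℝ)..(3 / 2), (0 : ℝ) := by
          apply intervalIntegral.integral_congr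
          intro x hx
          rw [uIcc_of_le lr] at hx
          simp only
          rw [hz x hx, zero_mul]
        rw [this]
        simp
      rw [this]
      simp
    · push Not at hz
      obtain ⟨x, hx, hne⟩ := hz
      have h1 := bump_supp s hh hV hr hr1 hq0 hY0 hx (hsubq hq) hne
      have h2 : |η * (q - q0)| ≤ 1 := by
        rw [abs_mul, abs_of_pos hη0, hη]
        calc 2 * D / μ * |q - q0| ≤ 2 * D / μ * (2 * r * V) := by gcongr
          _ = (4 * D * r * V) / μ := by ring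
          _ ≤ 1 := by
            rw [div_le_one hμ]
            exact hrV
      have h3 : 1 / 2 ≤ Real.cos (η * (q - q0)) := by
        have := Real.one_sub_sq_div_two_le_cos (x := η * (q - q0))
        have h4 : (η * (q - q0)) ^ 2 ≤ 1 := by
          rw [← sq_abs]
          nlinarith [abs_nonneg (η * (q - q0))]
        linarith
      have h4 : |q| ≤ h / 8 := by
        have := abs_add_le (q - q0) q0
        rw [sub_add_cancel] at this
        linarith
      have h5 : |4 / h * q| ≤ 1 / 2 := by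
        rw [abs_mul, abs_of_pos (by positivity)]
        calc 4 / h * |q| ≤ 4 / h * (h / 8) := by gcongr
          _ = 1 / 2 := by field_simp; norm_num
      have h6 : η / 2 ≤ TT1 h η q0 q := by
        unfold TT1
        rw [bmp_one h5, bmp1_zero_in h5]
        nlinarith
      rw [mul_comm]
      exact mul_le_mul_of_nonneg_left h6 (hΦ0 q)
  -- lower bound of Φ near q0
  set a : ℝ := r * h / (8 * V) with ha
  have ha0 : 0 < a := by positivity
  have ha1 : a ≤ 1 / 2 := by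
    rw [ha, div_le_iff₀ (by linarith)]
    nlinarith
  have hJsub : Icc (q0 - r * h / 8) (q0 + r * h / 8) ⊆ Icc (-(h / 4)) (h / 4) := by
    intro q hq
    have := abs_le.1 hq0
    have h3 : r * h / 8 ≤ h / 800 := by nlinarith
    exact ⟨by linarith [this.1, hq.1], by linarith [this.2, hq.2]⟩
  have hxj := xj_mem' j
  have hXsub : Icc (((j : ℕ) : ℝ) / (2 * D) - a) (((j : ℕ) : ℝ) / (2 * D) + a) ⊆ XI := by
    intro x hx
    exact ⟨by linarith [hx.1], by linarith [hx.2]⟩
  have hΦlow : ∀ q ∈ Icc (q0 - r * h / 8) (q0 + r * h / 8), ρ * a ≤ Φ q := by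
    intro q hq
    have hqJ := hsubq (hJsub hq)
    have h1 : ∫ x in (((j : ℕ) : ℝ) / (2 * D) - a)..(((j : ℕ) : ℝ) / (2 * D) + a), ρ * (1 / 2) ≤
        ∫ x in (((j : ℕ) : ℝ) / (2 * D) - a)..(((j : ℕ) : ℝ) / (2 * D) + a),
          Fb D h r ρ j x (Y (x, q)) * GG D μ j x := by
      apply intervalIntegral.integral_mono_on (by linarith) intervalIntegrable_const
      · apply ContinuousOn.intervalIntegrable
        rw [uIcc_of_le (by linarith)]
        exact (slice_c (cFb.mul cG) hqJ).mono hXsub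
      · intro x hx
        have hx' : |x - ((j : ℕ) : ℝ) / (2 * D)| ≤ a := by
          rw [abs_le]
          constructor <;> linarith [hx.1, hx.2]
        rw [bump_val s hh hV hr hr1 hq0 hY0 (hXsub hx) hqJ hx' (by
          rw [abs_le]
          constructor <;> linarith [hq.1, hq.2])]
        apply mul_le_mul_of_nonneg_left _ hρ
        have hu : |2 * D * x - ((j : ℕ) : ℝ)| ≤ μ / 16 := by
          have h8 : 2 * D * x - ((j : ℕ) : ℝ) = 2 * D * (x - (j : ℕ) / (2 * D)) := by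
            field_simp
          rw [h8, abs_mul, abs_of_pos (by linarith : (0 : ℝ) < 2 * D)]
          calc 2 * D * |x - ((j : ℕ) : ℝ) / (2 * D)| ≤ 2 * D * a := by gcongr
            _ ≤ 2 * D * (r * V / 8) := by
              apply mul_le_mul_of_nonneg_left _ (by linarith)
              rw [ha, div_le_iff₀ (by linarith)]
              have h9 : r * h ≤ r * V := mul_le_mul_of_nonneg_left hV hr.le
              have h10 : r * V / 8 * (8 * V) = r * V * V := by ring
              rw [h10]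
              nlinarith
            _ ≤ μ / 16 := by linarith
        apply gg_half hμ (by linarith)
        rw [← sq_abs]
        nlinarith [abs_nonneg (2 * D * x - ((j : ℕ) : ℝ))]
    have h2 : ∫ x in (((j : ℕ) : ℝ) / (2 * D) - a)..(((j : ℕ) : ℝ) / (2 * D) + a),
          Fb D h r ρ j x (Y (x, q)) * GG D μ j x ≤ Φ q := by
      apply intervalIntegral.integral_mono_interval
        (by linarith) (by linarith) (by linarith)
      · exact ae_of_all _ (fun x => mul_nonneg (Fb_nonneg hρ _ _) (gg_nonneg _ _))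
      · exact ii_slice (f := fun z : ℝ × ℝ => Fb D h r ρ j z.1 (Y z) * GG D μ j z.1) lr
          (cFb.mul cG) hqJ
    rw [intervalIntegral.integral_const, smul_eq_mul] at h1
    linarith
  have hint : ρ * a * (r * h / 4) ≤ ∫ q in (-(h / 4))..(h / 4), Φ q := by
    have h1 : ∫ q in (q0 - r * h / 8)..(q0 + r * h / 8), ρ * a ≤
        ∫ q in (q0 - r * h / 8)..(q0 + r * h / 8), Φ q := by
      apply intervalIntegral.integral_mono_on (by linarith) intervalIntegrable_const
      · apply ContinuousOn.intervalIntegrable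
        rw [uIcc_of_le (by linarith)]
        exact cΦ.mono (hJsub.trans hsubq)
      · exact hΦlow
    have h2 : ∫ q in (q0 - r * h / 8)..(q0 + r * h / 8), Φ q ≤
        ∫ q in (-(h / 4))..(h / 4), Φ q := by
      have e1 := (hJsub (left_mem_Icc.2 (by linarith))).1
      have e2 := (hJsub (right_mem_Icc.2 (by linarith))).2
      apply intervalIntegral.integral_mono_interval e1 (by linarith) e2
      · exact ae_of_all _ (fun q => hΦ0 q)
      · apply ContinuousOn.intervalIntegrable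
        rw [uIcc_of_le (by linarith)]
        exact cΦ.mono hsubq
    rw [intervalIntegral.integral_const, smul_eq_mul] at h1
    have h3 : (q0 + r * h / 8 - (q0 - r * h / 8)) * (ρ * a) = ρ * a * (r * h / 4) := by ring
    linarith
  have hfin : ∫ q in (-(h / 4))..(h / 4), η / 2 * Φ q ≤
      ∫ q in (-(h / 4))..(h / 4), Φ q * TT1 h η q0 q := by
    apply intervalIntegral.integral_mono_on (by linarith)
    · apply ContinuousOn.intervalIntegrable
      rw [uIcc_of_le (by linarith)]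
      exact continuousOn_const.mul (cΦ.mono hsubq)
    · apply ContinuousOn.intervalIntegrable
      rw [uIcc_of_le (by linarith)]
      exact (cΦ.mono hsubq).mul (TT1_continuous h η q0).continuousOn
    · exact hpt
  rw [intervalIntegral.integral_const_mul] at hfin
  have h1 : η / 2 * (ρ * a * (r * h / 4)) ≤ η / 2 * ∫ q in (-(h / 4))..(h / 4), Φ q :=
    mul_le_mul_of_nonneg_left hint (by positivity)
  have h2 : η / 2 * (ρ * a * (r * h / 4)) = η * (ρ * r ^ 2 * h ^ 2) / (64 * V) := by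
    rw [ha]
    field_simp
    ring
  rw [← h2]
  exact h1.trans hfin

end

end Pool.Agent.Helper47.MA
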