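import Mathlib
import Pool.Agent.Helper47.MA.TestLow

set_option autoImplicit false

namespace Pool.Agent.Helper47.MA

open Set MeasureTheory Filter Topology

theorem abs_le_sigma {w σ : ℝ} (hσ : 0 < σ) : |w| ≤ σ + w ^ 2 / σ := by
  rcases le_total |w| σ with h | h
  · have : 0 ≤ w ^ 2 / σ := by positivity
    linarith
  · have h1 : |w| ≤ w ^ 2 / σ := by
      rw [le_div_iff₀ hσ, ← sq_abs w]
      nlinarith [abs_nonneg w]
    linarith

section

variable {D : ℕ} {h μ r ρ V : ℝ} {θ1 θ2 : Fin D → Bool} {Y1 p1 ψ1 Yx1 Yq1 Y2 p2 ψ2 Yx2 Yq2 : ℝ × ℝ → ℝ}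
  {j : Fin D}

theorem KG_le (hμ : 0 < μ) (hμ1 : μ ≤ 1) (x : ℝ) : |KJ D μ j x * GG D μ j x| ≤ 1 := by
  by_cases hu : |2 * D * x - ((j : ℕ) : ℝ)| ≤ 1 / 4
  · unfold KJ GG
    rw [abs_mul, abs_of_nonneg (gg_nonneg _ _)]
    have h1 : |(2 * D * x - ((j : ℕ) : ℝ)) ^ 2 - μ| ≤ 1 := by
      have h2 : (2 * D * x - ((j : ℕ) : ℝ)) ^ 2 ≤ 1 := by
        rw [← sq_abs]
        nlinarith [abs_nonneg (2 * D * x - ((j : ℕ) : ℝ))]
      have h3 := sq_nonneg (2 * D * x - ((j : ℕ) : ℝ))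
      rw [abs_le]
      constructor <;> linarith
    calc |(2 * D * x - ((j : ℕ) : ℝ)) ^ 2 - μ| * gg μ (2 * D * x - (j : ℕ)) ≤ 1 * 1 :=
          mul_le_mul h1 (gg_le_one hμ _) (gg_nonneg _ _) (by norm_num)
      _ = 1 := by norm_num
  · have : GG D μ j x = 0 := gg_zero (by push Not at hu; exact hu.le)
    rw [this, mul_zero, abs_zero]
    norm_num

/-- The upper bound in the dual test. -/
theorem test_up {k1 k2 : ℝ → ℝ → ℝ} (hh : 1000 ≤ h) (hμ : 0 < μ) (hμ1 : μ ≤ 1)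
    (s1 : Sol k1 V h Y1 p1 ψ1 Yx1 Yq1) (s2 : Sol k2 V h Y2 p2 ψ2 Yx2 Yq2)
    (hk1 : ∀ x y, |k1 x y| ≤ 2) (hk2 : ∀ x y, |k2 x y| ≤ 2)
    {C : ℝ} (hC : 0 ≤ C) (hC1 : ∀ t, |bmp1 t| ≤ C) (hC2 : ∀ t, |bmp2 t| ≤ C)
    {σ E2 : ℝ} (hσ : 0 < σ)
    (hE : ∫ q in (h / 8)..(h / 4), (∫ x in (-3 / 2)..(3 / 2), (ψ1 (x, q) - ψ2 (x, q)) ^ 2) ≤ E2)
    (hE' : ∫ q in (h / 8)..(h / 4), (∫ x in (-3 / 2)..(3 / 2), (ψ1 (x, -q) - ψ2 (x, -q)) ^ 2) ≤ E2)
    (q0 : ℝ) :
    ∫ q in (-(h / 4))..(h / 4),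
        ((∫ x in (-3 / 2)..(3 / 2), KJ D μ j x * (ψ1 (x, q) - ψ2 (x, q)) * GG D μ j x) *
          TTr h (2 * D / μ) q0 q +
        (2 * D) ^ 2 * (∫ x in (-3 / 2)..(3 / 2), (ψ1 (x, q) - ψ2 (x, q)) *
          ger μ (2 * D * x - (j : ℕ))) * TT h (2 * D / μ) q0 q) ≤
      2 * (C * (1 + 2 * D / μ)) * (3 * σ * h / 8 + E2 / σ) +
      (h / 2) * ((2 * D) ^ 2 * (12 * h ^ 2 * (18 * C / μ * Real.exp (-(1 / (128 * μ)))))) := by
  have h0 : 0 < h := by linarith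
  set η : ℝ := 2 * D / μ with hη
  have hη0 : 0 ≤ η := by positivity
  have cψ : ContinuousOn (fun z => ψ1 z - ψ2 z) (XI ×ˢ J0 h) :=
    fun z hz => ((s1.hψ z (J0_sub h0 hz)).continuousAt.sub
      (s2.hψ z (J0_sub h0 hz)).continuousAt).continuousWithinAt
  have cG : ContinuousOn (fun z : ℝ × ℝ => GG D μ j z.1) (XI ×ˢ J0 h) :=
    ((GG_continuous hμ.ne').comp continuous_fst).continuousOn
  have cK : ContinuousOn (fun z : ℝ × ℝ => KJ D μ j z.1) (XI ×ˢ J0 h) :=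
    (KJ_continuous.comp continuous_fst).continuousOn
  have cger : ContinuousOn (fun z : ℝ × ℝ => ger μ (2 * D * z.1 - (j : ℕ))) (XI ×ˢ J0 h) := by
    have := ger_continuous μ
    fun_prop
  set b : ℝ → ℝ := fun q => ∫ x in (-3 / 2)..(3 / 2), KJ D μ j x * (ψ1 (x, q) - ψ2 (x, q)) *
    GG D μ j x with hb
  set E : ℝ → ℝ := fun q => ∫ x in (-3 / 2)..(3 / 2), (ψ1 (x, q) - ψ2 (x, q)) *
          ger μ (2 * D * x - (j : ℕ)) with hEE
  set W2 : ℝ → ℝ := fun q => ∫ x in (-3 / 2)..(3 / 2), (ψ1 (x, q) - ψ2 (x, q)) ^ 2 with hW2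
  have cb : ContinuousOn b (J0 h) :=
    continuousOn_param_integral lr (J0_open h)
      (fun z : ℝ × ℝ => KJ D μ j z.1 * (ψ1 z - ψ2 z) * GG D μ j z.1) ((cK.mul cψ).mul cG)
  have cE : ContinuousOn E (J0 h) :=
    continuousOn_param_integral lr (J0_open h)
      (fun z : ℝ × ℝ => (ψ1 z - ψ2 z) * ger μ (2 * D * z.1 - (j : ℕ))) (cψ.mul cger)
  have cW : ContinuousOn W2 (J0 h) :=
    continuousOn_param_integral lr (J0_open h)
      (fun z : ℝ × ℝ => (ψ1 z - ψ2 z) ^ 2) (cψ.pow 2)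
  have hsubq : Icc (-(h / 4)) (h / 4) ⊆ J0 h := by
    intro q hq
    exact ⟨by linarith [hq.1], by linarith [hq.2]⟩
  -- bound of b
  have hbb : ∀ q ∈ J0 h, |b q| ≤ 3 * σ + W2 q / σ := by
    intro q hq
    have h1 : |b q| ≤ ∫ x in (-3 / 2)..(3 / 2), |KJ D μ j x * (ψ1 (x, q) - ψ2 (x, q)) *
        GG D μ j x| := intervalIntegral.abs_integral_le_integral_abs lr
    have h2 : ∫ x in (-3 / 2)..(3 / 2), |KJ D μ j x * (ψ1 (x, q) - ψ2 (x, q)) * GG D μ j x| ≤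
        ∫ x in (-3 / 2)..(3 / 2), (σ + (ψ1 (x, q) - ψ2 (x, q)) ^ 2 / σ) := by
      apply int_mono
      · exact (slice_c (f := fun z : ℝ × ℝ => KJ D μ j z.1 * (ψ1 z - ψ2 z) * GG D μ j z.1)
          ((cK.mul cψ).mul cG) hq).abs
      · exact continuousOn_const.add (((slice_c cψ hq).pow 2).div_const σ)
      · intro x hx
        have e1 : KJ D μ j x * (ψ1 (x, q) - ψ2 (x, q)) * GG D μ j x =
            (KJ D μ j x * GG D μ j x) * (ψ1 (x, q) - ψ2 (x, q)) := by ring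
        rw [e1, abs_mul]
        calc |KJ D μ j x * GG D μ j x| * |ψ1 (x, q) - ψ2 (x, q)| ≤ 1 * |ψ1 (x, q) - ψ2 (x, q)| :=
              mul_le_mul_of_nonneg_right (KG_le hμ hμ1 x) (abs_nonneg _)
          _ = |ψ1 (x, q) - ψ2 (x, q)| := one_mul _
          _ ≤ _ := abs_le_sigma hσ
    have h3 : ∫ x in (-3 / 2)..(3 / 2), (σ + (ψ1 (x, q) - ψ2 (x, q)) ^ 2 / σ) =
        3 * σ + W2 q / σ := by
      rw [intervalIntegral.integral_add intervalIntegrable_const, intervalIntegral.integral_const,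
        intervalIntegral.integral_div, smul_eq_mul]
      · have e3 : (3 / 2 - -3 / 2 : ℝ) = 3 := by norm_num
        rw [e3]
      · exact ii_slice (f := fun z : ℝ × ℝ => (ψ1 z - ψ2 z) ^ 2 / σ) lr
          ((cψ.pow 2).div_const σ) hq
    linarith
  have hW0 : ∀ q, 0 ≤ W2 q := fun q =>
    intervalIntegral.integral_nonneg lr (fun x _ => sq_nonneg _)
  -- bound of E
  set g : ℝ := 18 * C / μ * Real.exp (-(1 / (128 * μ))) with hg
  have hg0 : 0 ≤ g := by positivity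
  have hEb : ∀ q ∈ J0 h, |E q| ≤ 12 * h ^ 2 * g := by
    intro q hq
    have h1 : |E q| ≤ ∫ x in (-3 / 2)..(3 / 2), |(ψ1 (x, q) - ψ2 (x, q)) *
        ger μ (2 * D * x - (j : ℕ))| := intervalIntegral.abs_integral_le_integral_abs lr
    have h2 : ∫ x in (-3 / 2)..(3 / 2), |(ψ1 (x, q) - ψ2 (x, q)) *
        ger μ (2 * D * x - (j : ℕ))| ≤ 3 * (4 * h ^ 2 * g) := by
      apply int_le_of_le
      · exact (slice_c (f := fun z : ℝ × ℝ => (ψ1 z - ψ2 z) * ger μ (2 * D * z.1 - (j : ℕ)))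
          (cψ.mul cger) hq).abs
      · intro x hx
        have hx2 : x ∈ Icc (-2 : ℝ) 2 :=
          ⟨by have := hx.1; linarith, by have := hx.2; linarith⟩
        have hq2 : |q| < 13 / 10 * h := by have := J0_abs hq; linarith
        rw [abs_mul]
        apply mul_le_mul _ (ger_bound hμ hμ1 hC hC1 hC2 _) (abs_nonneg _) (by positivity)
        have e1 := s1.ψ_bound hh hk1 hx2 hq2
        have e2 := s2.ψ_bound hh hk2 hx2 hq2
        have e3 := abs_sub (ψ1 (x, q)) (ψ2 (x, q))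
        linarith
    linarith
  -- integrability
  have ii : ∀ {f : ℝ → ℝ}, ContinuousOn f (J0 h) → ∀ {x y : ℝ},
      x ∈ Icc (-(h / 4)) (h / 4) → y ∈ Icc (-(h / 4)) (h / 4) →
      IntervalIntegrable f volume x y := by
    intro f hf x y hx hy
    apply ContinuousOn.intervalIntegrable
    apply hf.mono
    exact (uIcc_subset_Icc hx hy).trans hsubq
  have m1 : -(h / 4) ∈ Icc (-(h / 4)) (h / 4) := ⟨by linarith, by linarith⟩
  have m2 : -(h / 8) ∈ Icc (-(h / 4)) (h / 4) := ⟨by linarith, by linarith⟩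
  have m3 : h / 8 ∈ Icc (-(h / 4)) (h / 4) := ⟨by linarith, by linarith⟩
  have m4 : h / 4 ∈ Icc (-(h / 4)) (h / 4) := ⟨by linarith, by linarith⟩
  have c1 : ContinuousOn (fun q => b q * TTr h η q0 q) (J0 h) :=
    cb.mul (TTr_continuous h η q0).continuousOn
  have c2 : ContinuousOn (fun q => (2 * D) ^ 2 * E q * TT h η q0 q) (J0 h) :=
    (continuousOn_const.mul cE).mul (TT_continuous h η q0).continuousOn
  rw [intervalIntegral.integral_add (ii c1 m1 m4) (ii c2 m1 m4)]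
  -- the second integral
  have second : ∫ q in (-(h / 4))..(h / 4), (2 * D) ^ 2 * E q * TT h η q0 q ≤
      (h / 2) * ((2 * D) ^ 2 * (12 * h ^ 2 * g)) := by
    have h1 : ∫ q in (-(h / 4))..(h / 4), (2 * D) ^ 2 * E q * TT h η q0 q ≤
        ∫ q in (-(h / 4))..(h / 4), (2 * (D : ℝ)) ^ 2 * (12 * h ^ 2 * g) := by
      apply intervalIntegral.integral_mono_on (by linarith) (ii c2 m1 m4) intervalIntegrable_const
      intro q hq
      have e1 := hEb q (hsubq hq)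
      have e2 := TT_abs_le h η q0 q
      have e3 : |(2 * (D : ℝ)) ^ 2 * E q * TT h η q0 q| ≤ (2 * (D : ℝ)) ^ 2 * (12 * h ^ 2 * g) := by
        rw [abs_mul, abs_mul, abs_of_nonneg (sq_nonneg (2 * (D : ℝ))), mul_assoc]
        apply mul_le_mul_of_nonneg_left _ (sq_nonneg _)
        calc |E q| * |TT h η q0 q| ≤ (12 * h ^ 2 * g) * 1 :=
              mul_le_mul e1 e2 (abs_nonneg _) (by positivity)
          _ = 12 * h ^ 2 * g := mul_one _
      exact (le_abs_self _).trans e3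
    rw [intervalIntegral.integral_const, smul_eq_mul] at h1
    have e : h / 4 - -(h / 4) = h / 2 := by ring
    rw [e] at h1
    exact h1
  -- the first integral
  set L : ℝ := C * (1 + η) with hL
  have hL0 : 0 ≤ L := by positivity
  have side : ∀ a c : ℝ, a ∈ Icc (-(h / 4)) (h / 4) → c ∈ Icc (-(h / 4)) (h / 4) → a ≤ c →
      (∫ q in a..c, W2 q) ≤ E2 → c - a = h / 8 →
      ∫ q in a..c, b q * TTr h η q0 q ≤ L * (3 * σ * h / 8 + E2 / σ) := by
    intro a c ha hc hac hI hd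
    have h1 : ∫ q in a..c, b q * TTr h η q0 q ≤ ∫ q in a..c, L * (3 * σ + W2 q / σ) := by
      apply intervalIntegral.integral_mono_on hac (ii c1 ha hc)
      · exact ii (continuousOn_const.mul (continuousOn_const.add (cW.div_const σ))) ha hc
      · intro q hq
        have hqJ := hsubq ⟨ha.1.trans hq.1, hq.2.trans hc.2⟩
        have e1 := hbb q hqJ
        have e2 := TTr_bound (q0 := q0) hh hη0 hC hC1 hC2 q
        have e3 : |b q * TTr h η q0 q| ≤ L * (3 * σ + W2 q / σ) := by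
          rw [abs_mul, mul_comm]
          exact mul_le_mul e2 e1 (abs_nonneg _) hL0
        exact (le_abs_self _).trans e3
    have h2 : ∫ q in a..c, L * (3 * σ + W2 q / σ) =
        L * (3 * σ * (c - a) + (∫ q in a..c, W2 q) / σ) := by
      rw [intervalIntegral.integral_const_mul, intervalIntegral.integral_add
        intervalIntegrable_const (ii (cW.div_const σ) ha hc), intervalIntegral.integral_const,
        intervalIntegral.integral_div, smul_eq_mul]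
      ring
    rw [h2, hd] at h1
    refine h1.trans ?_
    apply mul_le_mul_of_nonneg_left _ hL0
    have h3 : (∫ q in a..c, W2 q) / σ ≤ E2 / σ := by gcongr
    have h4 : 3 * σ * (h / 8) = 3 * σ * h / 8 := by ring
    linarith
  have left := side (-(h / 4)) (-(h / 8)) m1 m2 (by linarith) (by
    have e1 : ∫ q in (h / 8)..(h / 4), W2 (-q) = ∫ q in (-(h / 4))..(-(h / 8)), W2 q := by
      rw [intervalIntegral.integral_comp_neg]
    rw [← e1]
    exact hE') (by ring)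
  have right := side (h / 8) (h / 4) m3 m4 (by linarith) hE (by ring)
  have mid : ∫ q in (-(h / 8))..(h / 8), b q * TTr h η q0 q = 0 := by
    have : ∫ q in (-(h / 8))..(h / 8), b q * TTr h η q0 q =
        ∫ q in (-(h / 8))..(h / 8), (0 : ℝ) := by
      apply intervalIntegral.integral_congr
      intro q hq
      rw [uIcc_of_le (by linarith)] at hq
      simp only
      rw [TTr_zero h0 (abs_le.2 ⟨by linarith [hq.1], hq.2⟩), mul_zero]
    rw [this]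
    simp
  have split : ∫ q in (-(h / 4))..(h / 4), b q * TTr h η q0 q =
      (∫ q in (-(h / 4))..(-(h / 8)), b q * TTr h η q0 q) +
      (∫ q in (-(h / 8))..(h / 8), b q * TTr h η q0 q) +
      (∫ q in (h / 8)..(h / 4), b q * TTr h η q0 q) := by
    rw [intervalIntegral.integral_add_adjacent_intervals (ii c1 m1 m2) (ii c1 m2 m3),
      intervalIntegral.integral_add_adjacent_intervals (ii c1 m1 m3) (ii c1 m3 m4)]
  rw [split, mid]
  linarith

/-- The inequality that will be violated. -/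
theorem test_final (hh : 1000 ≤ h) (hV : h ≤ V) (hμ : 0 < μ) (hμ1 : μ ≤ 1)
    (hr : 0 < r) (hr1 : r ≤ 1 / 100) (hrV : 4 * D * r * V ≤ μ) (hρ : 0 ≤ ρ)
    (s1 : Sol (kk D h μ r ρ θ1) V h Y1 p1 ψ1 Yx1 Yq1)
    (s2 : Sol (kk D h μ r ρ θ2) V h Y2 p2 ψ2 Yx2 Yq2)
    (hk1 : ∀ x y, |kk D h μ r ρ θ1 x y| ≤ 2) (hk2 : ∀ x y, |kk D h μ r ρ θ2 x y| ≤ 2)
    (h1 : θ1 j = true) (h2 : θ2 j = false)
    {C : ℝ} (hC : 0 ≤ C) (hC1 : ∀ t, |bmp1 t| ≤ C) (hC2 : ∀ t, |bmp2 t| ≤ C)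
    {σ E2 : ℝ} (hσ : 0 < σ)
    (hE : ∫ q in (h / 8)..(h / 4), (∫ x in (-3 / 2)..(3 / 2), (ψ1 (x, q) - ψ2 (x, q)) ^ 2) ≤ E2)
    (hE' : ∫ q in (h / 8)..(h / 4), (∫ x in (-3 / 2)..(3 / 2),
      (ψ1 (x, -q) - ψ2 (x, -q)) ^ 2) ≤ E2) :
    2 * D / μ * (ρ * r ^ 2 * h ^ 2) / (64 * V) ≤
      2 * (C * (1 + 2 * D / μ)) * (3 * σ * h / 8 + E2 / σ) +
      (h / 2) * ((2 * D) ^ 2 * (12 * h ^ 2 * (18 * C / μ * Real.exp (-(1 / (128 * μ)))))) := by
  have h0 : 0 < h := by linarith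
  have hV0 : 0 < V := by linarith
  obtain ⟨q0, hq0, hY0⟩ := exists_q0 s1 h0 (xj_mem j)
  have hrD : r * D ≤ 1 / 4 := by
    have hD0 : (0 : ℝ) ≤ D := Nat.cast_nonneg D
    have hrD0 : 0 ≤ r * D := mul_nonneg hr.le hD0
    have : 4 * (r * D) * V ≤ 1 := by nlinarith
    nlinarith
  have e1 := test_low (j := j) s1 hh hV hμ hμ1 hr hr1 hrV hρ hq0 hY0
  have e2 := test_identity (j := j) hh hμ hr hrD s1 s2 h1 h2 q0
  have e3 := test_up (j := j) (D := D) hh hμ hμ1 s1 s2 hk1 hk2 hC hC1 hC2 hσ hE hE' q0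
  rw [e2] at e1
  exact e1.trans e3

end

end Pool.Agent.Helper47.MA
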