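import Mathlib
import Pool.Agent.Helper47.MA.SolFacts

set_option autoImplicit false

namespace Pool.Agent.Helper47.MA

open Set MeasureTheory Filter Topology Complex

/-- The function that is holomorphic on the walls. -/
noncomputable def FF (p Y : ℝ × ℝ → ℝ) (z : ℂ) : ℂ :=
  (p (z.re, z.im) : ℂ) + (Y (z.re, z.im) : ℂ) * I

theorem FF_re (p Y : ℝ × ℝ → ℝ) (z : ℂ) : (FF p Y z).re = p (z.re, z.im) := by
  simp [FF]

theorem FF_im (p Y : ℝ × ℝ → ℝ) (z : ℂ) : (FF p Y z).im = Y (z.re, z.im) := by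
  simp [FF]

theorem FF_differentiableAt {p Y : ℝ × ℝ → ℝ} {a b : ℝ} {z : ℂ}
    (hY : HasFDerivAt Y
      (a • ContinuousLinearMap.fst ℝ ℝ ℝ + b • ContinuousLinearMap.snd ℝ ℝ ℝ) (z.re, z.im))
    (hp : HasFDerivAt p
      (b • ContinuousLinearMap.fst ℝ ℝ ℝ + (-a) • ContinuousLinearMap.snd ℝ ℝ ℝ) (z.re, z.im)) :
    DifferentiableAt ℂ (FF p Y) z := by
  have e0 : HasFDerivAt (fun z : ℂ => (z.re, z.im)) (reCLM.prod imCLM) z :=
    (reCLM.hasFDerivAt).prodMk (imCLM.hasFDerivAt)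
  have eY := hY.comp z e0
  have ep := hp.comp z e0
  have e1 : HasFDerivAt (fun z : ℂ => ((p (z.re, z.im) : ℝ) : ℂ)) _ z :=
    (ofRealCLM.hasFDerivAt (x := p (z.re, z.im))).comp z ep
  have e2 : HasFDerivAt (fun z : ℂ => ((Y (z.re, z.im) : ℝ) : ℂ)) _ z :=
    (ofRealCLM.hasFDerivAt (x := Y (z.re, z.im))).comp z eY
  have e3 := e1.add (e2.mul_const I)
  have e4 : HasFDerivAt (FF p Y) (((b : ℂ) + a * I) • (1 : ℂ →L[ℂ] ℂ)) z := by
    apply hasFDerivAt_of_restrictScalars ℝ e3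
    ext v
    apply Complex.ext
    · simp
      ring
    · simp
      ring
  exact e4.differentiableAt

section

variable {D : ℕ} {h μ r ρ V : ℝ} {θ : Fin D → Bool} {Y p ψ Yx Yq : ℝ × ℝ → ℝ}

theorem wall_x {x0 x : ℝ} (hx0 : x0 = 3 / 2 ∨ x0 = -3 / 2) (hx : |x - x0| < 1 / 2) :
    1 ≤ |x| ∧ x ∈ Icc (-2 : ℝ) 2 := by
  have h1 := abs_lt.1 hx
  rcases hx0 with rfl | rfl
  · constructor
    · rw [abs_of_nonneg (by linarith [h1.1])]
      linarith [h1.1]
    · exact ⟨by linarith [h1.1], by linarith [h1.2]⟩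
  · constructor
    · rw [abs_of_nonpos (by linarith [h1.2])]
      linarith [h1.2]
    · exact ⟨by linarith [h1.1], by linarith [h1.2]⟩

theorem wall_good (hh : 1000 ≤ h) (hV : 2 ≤ V) (hr : 0 < r) (hr1 : r ≤ 1 / 100)
    (s : Sol (kk D h μ r ρ θ) V h Y p ψ Yx Yq) (hk : ∀ x y, |kk D h μ r ρ θ x y| ≤ 2)
    {x0 : ℝ} (hx0 : x0 = 3 / 2 ∨ x0 = -3 / 2) {K : ℕ} (hK : (K : ℝ) / 4 + 1 ≤ 12 / 10 * h) :
    DifferentiableOn ℂ (FF p Y) {z | |z.re - x0| < 1 / 2 ∧ |z.im| < K / 4 + 1} ∧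
      ∀ z : ℂ, |z.re - x0| < 1 / 2 → |z.im| < K / 4 + 1 → ‖FF p Y z‖ ≤ 2 * h * V := by
  have h0 : 0 < h := by linarith
  constructor
  · intro z hz
    apply DifferentiableAt.differentiableWithinAt
    have h1 := wall_x hx0 hz.1
    have h2 : (z.re, z.im) ∈ Om h := om_mem h1.2 (by linarith [hz.2])
    have hp := s.hp _ h2
    simp only at hp
    rw [kk_wall hr (by linarith) θ h1.1, one_mul] at hp
    exact FF_differentiableAt (s.hY _ h2) hp
  · intro z hz1 hz2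
    have h1 := wall_x hx0 hz1
    have hq : |z.im| < 13 / 10 * h := by linarith
    have e1 := s.p_bound h0 hk h1.2 hq
    have e2 := s.near h1.2 hq
    have e3 : |Y (z.re, z.im)| ≤ |Y (z.re, z.im) - z.im| + |z.im| := by
      have := abs_add_le (Y (z.re, z.im) - z.im) z.im
      simpa using this
    have e4 : ‖FF p Y z‖ ≤ |p (z.re, z.im)| + |Y (z.re, z.im)| := by
      unfold FF
      refine (norm_add_le _ _).trans ?_
      rw [norm_mul, norm_I, mul_one, norm_real, norm_real]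
      exact le_rfl
    have e5 : V * |z.im| ≤ V * (12 / 10 * h) :=
      mul_le_mul_of_nonneg_left (by linarith) (by linarith)
    have e6 : 2 * h ≤ h * V := by nlinarith
    nlinarith

end

end Pool.Agent.Helper47.MA
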