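import Mathlib
import Pool.Agent.Helper47.MA.TestUp
import Pool.Agent.Helper47.MA.PairW
import Pool.Agent.Helper47.MA.Wall
import Pool.Agent.Helper9.MACoding

set_option autoImplicit false

namespace Pool.Agent.Helper47.MA

open Set MeasureTheory Filter Topology Complex

/-- Two solutions with different codes that are close on the walls violate the dual test. -/
theorem close_contra {D n k : ℕ} {h μ r ρ V C σ : ℝ} {θ1 θ2 : Fin D → Bool}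
    {Y1 p1 ψ1 Yx1 Yq1 Y2 p2 ψ2 Yx2 Yq2 : ℝ × ℝ → ℝ} {K : ℕ}
    (hh : 1000 ≤ h) (hV : h ≤ V) (hμ : 0 < μ) (hμ1 : μ ≤ 1)
    (hr : 0 < r) (hr1 : r ≤ 1 / 100) (hrV : 4 * D * r * V ≤ μ) (hρ : 0 ≤ ρ)
    (hk : 6 * (k : ℝ) ≤ 85 / 1000 * h)
    (hK1 : 115 / 100 * h ≤ K / 4)
    (hδ1 : 2 * h * (7 * (2 * h * V) / 2 ^ n) ≤ 1)
    (hkk : ∀ θ : Fin D → Bool, ∀ x y, |kk D h μ r ρ θ x y| ≤ 2)
    (hC : 0 ≤ C) (hC1 : ∀ t, |bmp1 t| ≤ C) (hC2 : ∀ t, |bmp2 t| ≤ C) (hσ : 0 < σ)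
    (hviol : 2 * (C * (1 + 2 * D / μ)) * (3 * σ * h / 8 +
        (10000 * h ^ 2 * (4 * h ^ 2 * V) ^ 2 * ((1 / 2) ^ k +
          2 * h * (7 * (2 * h * V) / 2 ^ n))) / σ) +
      (h / 2) * ((2 * D) ^ 2 * (12 * h ^ 2 * (18 * C / μ * Real.exp (-(1 / (128 * μ)))))) <
      2 * D / μ * (ρ * r ^ 2 * h ^ 2) / (64 * V))
    (s1 : Sol (kk D h μ r ρ θ1) V h Y1 p1 ψ1 Yx1 Yq1)
    (s2 : Sol (kk D h μ r ρ θ2) V h Y2 p2 ψ2 Yx2 Yq2)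
    (hl : ∀ q : ℝ, |q| ≤ K / 4 → ‖FF p1 Y1 (((-3 / 2 : ℝ) : ℂ) + q * I) -
      FF p2 Y2 (((-3 / 2 : ℝ) : ℂ) + q * I)‖ ≤ 7 * (2 * h * V) / 2 ^ n)
    (hr' : ∀ q : ℝ, |q| ≤ K / 4 → ‖FF p1 Y1 (((3 / 2 : ℝ) : ℂ) + q * I) -
      FF p2 Y2 (((3 / 2 : ℝ) : ℂ) + q * I)‖ ≤ 7 * (2 * h * V) / 2 ^ n)
    {j : Fin D} (h1 : θ1 j = true) (h2 : θ2 j = false) : False := by
  have h0 : 0 < h := by linarith
  have hV0 : 0 < V := by linarith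
  set δ : ℝ := 7 * (2 * h * V) / 2 ^ n with hδ
  have hδ0 : 0 ≤ δ := by positivity
  have re_im : ∀ x q : ℝ, ((x : ℂ) + q * I).re = x ∧ ((x : ℂ) + q * I).im = q := by
    intro x q
    constructor <;> simp
  have hP : ∀ x q : ℝ, ‖FF p1 Y1 ((x : ℂ) + q * I) - FF p2 Y2 ((x : ℂ) + q * I)‖ ≤ δ →
      |p1 (x, q) - p2 (x, q)| ≤ δ ∧ |Y1 (x, q) - Y2 (x, q)| ≤ δ := by
    intro x q hle
    have e := re_im x q
    constructor
    · have e1 := (abs_re_le_norm (FF p1 Y1 ((x : ℂ) + q * I) - FF p2 Y2 ((x : ℂ) + q * I))).trans hle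
      rw [sub_re, FF_re, FF_re, e.1, e.2] at e1
      exact e1
    · have e1 := (abs_im_le_norm (FF p1 Y1 ((x : ℂ) + q * I) - FF p2 Y2 ((x : ℂ) + q * I))).trans hle
      rw [sub_im, FF_im, FF_im, e.1, e.2] at e1
      exact e1
  have w := pair_w (k := k) hh (by linarith) hμ.le hμ1 hr hr1 hk hδ0 hδ1 s1 s2 (hkk θ1) (hkk θ2)
    (fun q hq => (hP _ q (hl q (hq.trans hK1))).1)
    (fun q hq => (hP _ q (hr' q (hq.trans hK1))).1)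
    (fun q hq => (hP _ q (hl q (hq.trans hK1))).2)
  have f := test_final (j := j) hh hV hμ hμ1 hr hr1 hrV hρ s1 s2 (hkk θ1) (hkk θ2) h1 h2
    hC hC1 hC2 hσ w.1 w.2
  linarith

/-- The key theorem: some code has no solution. -/
theorem key {D n k K : ℕ} {h μ r ρ V C σ : ℝ}
    (hh : 1000 ≤ h) (hV : h ≤ V) (hμ : 0 < μ) (hμ1 : μ ≤ 1)
    (hr : 0 < r) (hr1 : r ≤ 1 / 100) (hrV : 4 * D * r * V ≤ μ) (hρ : 0 ≤ ρ)
    (hk : 6 * (k : ℝ) ≤ 85 / 1000 * h)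
    (hK1 : 115 / 100 * h ≤ K / 4) (hK2 : (K : ℝ) / 4 + 1 ≤ 12 / 10 * h)
    (hδ1 : 2 * h * (7 * (2 * h * V) / 2 ^ n) ≤ 1)
    (hkk : ∀ θ : Fin D → Bool, ∀ x y, |kk D h μ r ρ θ x y| ≤ 2)
    (hC : 0 ≤ C) (hC1 : ∀ t, |bmp1 t| ≤ C) (hC2 : ∀ t, |bmp2 t| ≤ C) (hσ : 0 < σ)
    (hviol : 2 * (C * (1 + 2 * D / μ)) * (3 * σ * h / 8 +
        (10000 * h ^ 2 * (4 * h ^ 2 * V) ^ 2 * ((1 / 2) ^ k +
          2 * h * (7 * (2 * h * V) / 2 ^ n))) / σ) +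
      (h / 2) * ((2 * D) ^ 2 * (12 * h ^ 2 * (18 * C / μ * Real.exp (-(1 / (128 * μ)))))) <
      2 * D / μ * (ρ * r ^ 2 * h ^ 2) / (64 * V))
    (hcount : (4 * 8 ^ n) ^ (4 * n * (2 * K + 1)) < 2 ^ D) :
    ∃ θ : Fin D → Bool, ¬ ∃ Y p ψ Yx Yq : ℝ × ℝ → ℝ, Sol (kk D h μ r ρ θ) V h Y p ψ Yx Yq := by
  by_contra hcon
  push Not at hcon
  choose Y p ψ Yx Yq hs using hcon
  have h0 : 0 < h := by linarith
  have hV0 : 0 < V := by linarith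
  have hM : 0 < 2 * h * V := by positivity
  obtain ⟨T1, i1, c1, hc1, hcode1⟩ := Pool.Agent.Helper9.MACoding.coding (-3 / 2 : ℝ) K n (2 * h * V) hM
  obtain ⟨T2, i2, c2, hc2, hcode2⟩ := Pool.Agent.Helper9.MACoding.coding (3 / 2 : ℝ) K n (2 * h * V) hM
  have good1 := fun θ => wall_good (x0 := -3 / 2) hh (by linarith) hr hr1 (hs θ) (hkk θ)
    (Or.inr rfl) hK2
  have good2 := fun θ => wall_good (x0 := 3 / 2) hh (by linarith) hr hr1 (hs θ) (hkk θ)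
    (Or.inl rfl) hK2
  have hcard : Fintype.card (T1 × T2) < Fintype.card (Fin D → Bool) := by
    rw [Fintype.card_prod, Fintype.card_fun, Fintype.card_bool, Fintype.card_fin]
    calc Fintype.card T1 * Fintype.card T2 ≤
          (4 * 8 ^ n) ^ (2 * n * (2 * K + 1)) * (4 * 8 ^ n) ^ (2 * n * (2 * K + 1)) :=
          Nat.mul_le_mul hc1 hc2
      _ = (4 * 8 ^ n) ^ (4 * n * (2 * K + 1)) := by
          rw [← pow_add]
          congr 1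
          ring
      _ < 2 ^ D := hcount
  obtain ⟨θ, θ', hne, heq⟩ := Fintype.exists_ne_map_eq_of_card_lt
    (fun θ : Fin D → Bool => ((c1 (FF (p θ) (Y θ)), c2 (FF (p θ) (Y θ))) : T1 × T2)) hcard
  have heq1 : c1 (FF (p θ) (Y θ)) = c1 (FF (p θ') (Y θ')) := (Prod.mk.inj heq).1
  have heq2 : c2 (FF (p θ) (Y θ)) = c2 (FF (p θ') (Y θ')) := (Prod.mk.inj heq).2
  have hl := hcode1 _ _ (good1 θ) (good1 θ') heq1
  have hr' := hcode2 _ _ (good2 θ) (good2 θ') heq2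
  have hl' := hcode1 _ _ (good1 θ') (good1 θ) heq1.symm
  have hr'' := hcode2 _ _ (good2 θ') (good2 θ) heq2.symm
  obtain ⟨j, hj⟩ := Function.ne_iff.1 hne
  rcases hθ : θ j with _ | _
  · rcases hθ' : θ' j with _ | _
    · exact hj (hθ.trans hθ'.symm)
    · exact close_contra hh hV hμ hμ1 hr hr1 hrV hρ hk hK1 hδ1 hkk hC hC1 hC2 hσ hviol
        (hs θ') (hs θ) hl' hr'' hθ' hθ
  · rcases hθ' : θ' j with _ | _
    · exact close_contra hh hV hμ hμ1 hr hr1 hrV hρ hk hK1 hδ1 hkk hC hC1 hC2 hσ hviol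
        (hs θ) (hs θ') hl hr' hθ hθ'
    · exact hj (hθ.trans hθ'.symm)

end Pool.Agent.Helper47.MA
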