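import Mathlib
import Pool.Agent.Helper47.MA.Key
import Pool.Agent.Helper47.MA.Interface

set_option autoImplicit false

namespace Pool.Agent.Helper47.MA

open Set Filter Topology

theorem ev (c : ℝ) (m : ℕ) : ∀ᶠ ℓ : ℕ in atTop, c * (ℓ : ℝ) ^ m * (1 / 2) ^ ℓ ≤ 1 := by
  have h1 := tendsto_pow_const_mul_const_pow_of_abs_lt_one m (r := (1 / 2 : ℝ)) (by
    rw [abs_lt]
    constructor <;> norm_num)
  have h2 := h1.const_mul c
  rw [mul_zero] at h2
  filter_upwards [h2.eventually (ge_mem_nhds (by norm_num : (0 : ℝ) < 1))] with ℓ hℓ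
  rw [mul_assoc]
  exact hℓ

/-- A bound for the derivative of the smooth transition. -/
theorem st_deriv_bound : ∃ S : ℝ, 1 ≤ S ∧ ∀ t, |deriv Real.smoothTransition t| ≤ S := by
  obtain ⟨C, hC⟩ := (isCompact_Icc (a := (0 : ℝ)) (b := 1)).exists_bound_of_continuousOn
    st_deriv_continuous.continuousOn
  refine ⟨max 1 C, le_max_left _ _, ?_⟩
  intro t
  by_cases h0 : t ≤ 0
  · rw [deriv_st_zero h0, abs_zero]
    exact le_trans zero_le_one (le_max_left _ _)
  · by_cases h1 : t ≤ 1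
    · exact (hC t ⟨by linarith, h1⟩).trans (le_max_right _ _)
    · have : deriv Real.smoothTransition t = 0 := by
        apply IsLocalMax.deriv_eq_zero
        apply Filter.Eventually.of_forall
        intro y
        rw [Real.smoothTransition.one_of_one_le (x := t) (by linarith)]
        exact Real.smoothTransition.le_one y
      rw [this, abs_zero]
      exact le_trans zero_le_one (le_max_left _ _)

theorem kk_bound {D : ℕ} {h μ r ρ S : ℝ} (hh : 1 ≤ h) (hμ : 0 ≤ μ) (hμ1 : μ ≤ 1) (hr : 0 < r)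
    (hρ : 0 ≤ ρ) (hS : 0 ≤ S) (hS1 : ∀ t, |deriv Real.smoothTransition t| ≤ S)
    (hle : D * (ρ * (S * (4 / r ^ 2) * 2)) ≤ 1) (θ : Fin D → Bool) (x y : ℝ) :
    |kk D h μ r ρ θ x y| ≤ 2 := by
  unfold kk
  have h1 := k0_abs_le (D := D) (h := h) hμ hμ1 x y
  have h2 : |∑ j : Fin D, (if θ j then (1 : ℝ) else 0) * fb D h r ρ j x y| ≤
      ∑ j : Fin D, ρ * (S * (4 / r ^ 2) * 2) := by
    refine (Finset.abs_sum_le_sum_abs _ _).trans ?_
    apply Finset.sum_le_sum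
    intro j _
    have e1 : |fb D h r ρ j x y| ≤ ρ * (S * (4 / r ^ 2) * 2) := by
      unfold fb
      rw [abs_mul, abs_mul, abs_of_nonneg hρ, abs_of_nonneg (bmp_nonneg _)]
      have e2 : |bs' r (tau x * y / h) * (tau x / h)| ≤ S * (4 / r ^ 2) * 2 := by
        rw [abs_mul]
        apply mul_le_mul _ _ (abs_nonneg _) (by positivity)
        · unfold bs'
          rw [abs_mul]
          apply mul_le_mul (hS1 _) _ (abs_nonneg _) hS
          rw [abs_div, abs_neg, abs_mul, abs_of_pos Real.pi_pos, abs_of_pos (by positivity : 0 < r ^ 2)]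
          have e3 : Real.pi * |Real.sin (Real.pi * (tau x * y / h))| ≤ 4 * 1 :=
            mul_le_mul Real.pi_le_four (Real.abs_sin_le_one _) (abs_nonneg _) (by norm_num)
          rw [mul_one] at e3
          gcongr
        · have e4 : tau x ≤ 2 := by
            unfold tau
            rw [inv_le_comm₀ (by have := tau_den_pos x; linarith) (by norm_num)]
            have := tau_den_pos x
            linarith
          rw [abs_div, abs_of_pos (tau_pos x), abs_of_pos (by linarith : 0 < h),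
            div_le_iff₀ (by linarith)]
          linarith
      calc ρ * bmp _ * |bs' r (tau x * y / h) * (tau x / h)| ≤
            (ρ * 1) * (S * (4 / r ^ 2) * 2) := by
            apply mul_le_mul _ e2 (abs_nonneg _) (by linarith)
            exact mul_le_mul_of_nonneg_left (bmp_le_one _) hρ
        _ = ρ * (S * (4 / r ^ 2) * 2) := by ring
    rw [abs_mul]
    calc |(if θ j then (1 : ℝ) else 0)| * |fb D h r ρ j x y| ≤ 1 * (ρ * (S * (4 / r ^ 2) * 2)) := by
          apply mul_le_mul _ e1 (abs_nonneg _) (by norm_num)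
          split_ifs <;> simp
      _ = ρ * (S * (4 / r ^ 2) * 2) := one_mul _
  rw [Finset.sum_const, Finset.card_univ, Fintype.card_fin, nsmul_eq_mul] at h2
  calc _ ≤ |k0 D h μ x y| + |∑ j : Fin D, (if θ j then (1 : ℝ) else 0) * fb D h r ρ j x y| :=
        abs_add_le _ _
    _ ≤ 2 := by linarith

/-- The violated inequality, reduced to two bounds. -/
theorem viol_of {D : ℕ} {h μ r ρ V C E2 ex : ℝ} (hD : 1 ≤ D) (hh : 1000 ≤ h) (hV : 1 ≤ V)
    (hμ : 0 < μ) (hμ1 : μ ≤ 1) (hr : 0 < r) (hρ : 0 < ρ) (hC : 1 ≤ C)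
    (h1 : 240000 * C ^ 2 * V ^ 2 * E2 ≤ ρ ^ 2 * r ^ 4 * h ^ 3)
    (h2 : 43200 * C * D * h * V * ex ≤ ρ * r ^ 2) :
    2 * (C * (1 + 2 * D / μ)) * (3 * (ρ * r ^ 2 * h / (400 * C * V)) * h / 8 +
        E2 / (ρ * r ^ 2 * h / (400 * C * V))) +
      (h / 2) * ((2 * D) ^ 2 * (12 * h ^ 2 * (18 * C / μ * ex))) <
      2 * D / μ * (ρ * r ^ 2 * h ^ 2) / (64 * V) := by
  have hD' : (1 : ℝ) ≤ D := by exact_mod_cast hD
  have h0 : 0 < h := by linarith
  set Q : ℝ := ρ * r ^ 2 * h ^ 2 / V with hQ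
  have hQ0 : 0 < Q := by positivity
  have a1 : C * (3 * (ρ * r ^ 2 * h / (400 * C * V)) * h / 8) = 3 / 3200 * Q := by
    rw [hQ]
    field_simp
    ring
  have a2 : C * (E2 / (ρ * r ^ 2 * h / (400 * C * V))) ≤ 1 / 600 * Q := by
    have e1 : C * (E2 / (ρ * r ^ 2 * h / (400 * C * V))) = 400 * C ^ 2 * V * E2 / (ρ * r ^ 2 * h) := by
      field_simp
    rw [e1, hQ, div_le_iff₀ (by positivity)]
    have e2 : 1 / 600 * (ρ * r ^ 2 * h ^ 2 / V) * (ρ * r ^ 2 * h) = ρ ^ 2 * r ^ 4 * h ^ 3 / (600 * V) := by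
      field_simp
    rw [e2, le_div_iff₀ (by positivity)]
    calc 400 * C ^ 2 * V * E2 * (600 * V) = 240000 * C ^ 2 * V ^ 2 * E2 := by ring
      _ ≤ ρ ^ 2 * r ^ 4 * h ^ 3 := h1
  have a3 : 216 * C * D * h ^ 3 * ex ≤ 1 / 200 * Q := by
    have e1 : 216 * C * D * h ^ 3 * ex * (200 * V) ≤ ρ * r ^ 2 * h ^ 2 := by
      calc 216 * C * D * h ^ 3 * ex * (200 * V) = (43200 * C * D * h * V * ex) * h ^ 2 := by ring
        _ ≤ (ρ * r ^ 2) * h ^ 2 := mul_le_mul_of_nonneg_right h2 (sq_nonneg _)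
        _ = ρ * r ^ 2 * h ^ 2 := by ring
    have e2 : 1 / 200 * Q = ρ * r ^ 2 * h ^ 2 / (200 * V) := by
      rw [hQ]
      field_simp
    rw [e2, le_div_iff₀ (by positivity)]
    exact e1
  have hP : 1 ≤ 2 * D / μ := by
    rw [le_div_iff₀ hμ]
    linarith
  set P : ℝ := 2 * D / μ with hPdef
  have e1 : 2 * D / μ * (ρ * r ^ 2 * h ^ 2) / (64 * V) = P * (1 / 64 * Q) := by
    rw [hPdef, hQ]
    field_simp
  have e2 : (h / 2) * ((2 * D) ^ 2 * (12 * h ^ 2 * (18 * C / μ * ex))) =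
      P * (216 * C * D * h ^ 3 * ex) := by
    rw [hPdef]
    field_simp
    ring
  have e3 : 2 * (C * (1 + P)) * (3 * (ρ * r ^ 2 * h / (400 * C * V)) * h / 8 +
        E2 / (ρ * r ^ 2 * h / (400 * C * V))) ≤ P * (4 * (3 / 3200 * Q + 1 / 600 * Q)) := by
    have e4 : 2 * (C * (1 + P)) * (3 * (ρ * r ^ 2 * h / (400 * C * V)) * h / 8 +
        E2 / (ρ * r ^ 2 * h / (400 * C * V))) =
        2 * (1 + P) * (C * (3 * (ρ * r ^ 2 * h / (400 * C * V)) * h / 8) +
        C * (E2 / (ρ * r ^ 2 * h / (400 * C * V)))) := by ring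
    rw [e4, a1]
    calc 2 * (1 + P) * (3 / 3200 * Q + C * (E2 / (ρ * r ^ 2 * h / (400 * C * V)))) ≤
          2 * (1 + P) * (3 / 3200 * Q + 1 / 600 * Q) := by
          apply mul_le_mul_of_nonneg_left _ (by linarith)
          linarith
      _ ≤ 2 * (P + P) * (3 / 3200 * Q + 1 / 600 * Q) := by
          apply mul_le_mul_of_nonneg_right _ (by positivity)
          linarith
      _ = P * (4 * (3 / 3200 * Q + 1 / 600 * Q)) := by ring
  rw [e1, e2]
  have e5 : P * (216 * C * D * h ^ 3 * ex) ≤ P * (1 / 200 * Q) :=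
    mul_le_mul_of_nonneg_left a3 (by linarith)
  have e6 : P * (4 * (3 / 3200 * Q + 1 / 600 * Q)) + P * (1 / 200 * Q) < P * (1 / 64 * Q) := by
    have hPQ : 0 < P * Q := by positivity
    have : P * (1 / 64 * Q) - (P * (4 * (3 / 3200 * Q + 1 / 600 * Q)) + P * (1 / 200 * Q)) =
        (1 / 64 - 4 * (3 / 3200 + 1 / 600) - 1 / 200) * (P * Q) := by ring
    have h3 : 0 < (1 / 64 - 4 * (3 / 3200 + 1 / 600) - 1 / 200 : ℝ) := by norm_num
    nlinarith
  linarith

/-- The bound of the exponential by a power. -/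
theorem exp_small {μ : ℝ} (hμ : 0 < μ) (m : ℕ) :
    Real.exp (-(1 / (128 * μ))) ≤ m.factorial * 128 ^ m * μ ^ m := by
  have h1 := Real.pow_div_factorial_le_exp (1 / (128 * μ)) (by positivity) m
  rw [Real.exp_neg]
  have h2 : 0 < (1 / (128 * μ)) ^ m / (m.factorial : ℝ) := by positivity
  calc (Real.exp (1 / (128 * μ)))⁻¹ ≤ ((1 / (128 * μ)) ^ m / (m.factorial : ℝ))⁻¹ :=
        inv_anti₀ h2 h1
    _ = m.factorial * 128 ^ m * μ ^ m := by
        rw [inv_div, one_div, inv_pow, div_inv_eq_mul, mul_pow]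
        ring

/-- There is a code without solution. -/
theorem thetaStatement : ThetaStatement := by
  intro κ b hκ hb
  obtain ⟨C, hC, hC1, hC2⟩ := bmp_bounds
  obtain ⟨S, hS, hS1⟩ := st_deriv_bound
  set e : ℕ := 2 * b + 8 * κ + 4 with he
  set H : ℕ := 71 * (e + 2) with hH
  set n0 : ℕ := e + 3 with hn0
  set D0 : ℕ := 220 * n0 ^ 2 * H + 1 with hD0
  clear_value D0 n0 H e
  have key1 := ev (8 * S * D0) 3
  have key2 := ev (4 * D0) 3
  have key3 := ev (28 * H ^ 2) 2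
  have key4 := ev (38400000000 * C ^ 2 * H ^ 3 * (1 + 28 * H ^ 2)) 5
  have key5 := ev (43200 * C * D0 * H * ((b + 4 * κ + 2).factorial * 128 ^ (b + 4 * κ + 2))) 4
  have key6 := ev H 1
  have key7 := ev 100 0
  obtain ⟨L, hL⟩ := eventually_atTop.1
    (key1.and (key2.and (key3.and (key4.and (key5.and (key6.and key7))))))
  refine ⟨H, D0, max L 1000, by omega, by omega, ?_⟩
  intro ℓ hℓ
  obtain ⟨k1, k2, k3, k4, k5, k6, k7⟩ := hL ℓ (le_trans (le_max_left _ _) hℓ)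
  have hℓ1000 : 1000 ≤ ℓ := le_trans (le_max_right _ _) hℓ
  -- abbreviations
  set X : ℝ := (1 / 2) ^ ℓ with hX
  set V : ℝ := 2 ^ ℓ with hV
  set L' : ℝ := (ℓ : ℝ) with hL'
  have hX0 : 0 < X := by positivity
  have hX1 : X ≤ 1 := pow_le_one₀ (by norm_num) (by norm_num)
  have hVX : V * X = 1 := by
    rw [hV, hX, ← mul_pow]
    norm_num
  have hV0 : 0 < V := by positivity
  have hV1 : 1 ≤ V := one_le_pow₀ (by norm_num)
  have hL1000 : (1000 : ℝ) ≤ L' := by
    rw [hL']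
    exact_mod_cast hℓ1000
  have hH1 : (1 : ℝ) ≤ H := by
    have : 1 ≤ H := by omega
    exact_mod_cast this
  have hH0 : (0 : ℝ) < H := by linarith
  set h : ℝ := (H : ℝ) * L' with hh
  have hh1000 : 1000 ≤ h := by
    rw [hh]
    nlinarith
  have hh0 : 0 < h := by linarith
  have hD1 : 1 ≤ D0 * ℓ ^ 3 := by
    have h1 : 1 ≤ D0 := by omega
    have h2 : 1 ≤ ℓ ^ 3 := Nat.one_le_pow _ _ (by omega)
    calc 1 = 1 * 1 := by norm_num
      _ ≤ D0 * ℓ ^ 3 := Nat.mul_le_mul h1 h2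
  have hDcast : ((D0 * ℓ ^ 3 : ℕ) : ℝ) = D0 * L' ^ 3 := by
    push_cast
    rfl
  have hLℓ : L' = (ℓ : ℝ) := rfl
  have hD0pos : (0 : ℝ) ≤ D0 := Nat.cast_nonneg _
  -- powers
  have pμ : ((1 : ℝ) / 2) ^ (κ * ℓ) = X ^ κ := by
    rw [hX, ← pow_mul, mul_comm]
  have pr : ((1 : ℝ) / 2) ^ (2 * κ * ℓ) = X ^ (2 * κ) := by
    rw [hX, ← pow_mul, mul_comm]
  have pρ : ((1 : ℝ) / 2) ^ (b * ℓ) = X ^ b := by
    rw [hX, ← pow_mul, mul_comm]
  have pk : ((1 : ℝ) / 2) ^ ((e + 2) * ℓ) = X ^ (e + 2) := by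
    rw [hX, ← pow_mul, mul_comm]
  have pn : (2 : ℝ) ^ (n0 * ℓ) = V ^ n0 := by
    rw [hV, ← pow_mul, mul_comm]
  rw [pμ, pr, pρ]
  clear_value X V h L'
  have Xpow : ∀ m : ℕ, V ^ m * X ^ m = 1 := by
    intro m
    rw [← mul_pow, hVX, one_pow]
  have Xle : ∀ {a c : ℕ}, a ≤ c → X ^ c ≤ X ^ a := by
    intro a c hac
    exact pow_le_pow_of_le_one hX0.le hX1 hac
  have hVn : V / V ^ n0 = X ^ (e + 2) := by
    rw [div_eq_iff (by positivity)]
    have e1 : n0 = (e + 2) + 1 := by omega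
    rw [e1, pow_succ V]
    calc V = (V ^ (e + 2) * X ^ (e + 2)) * V := by rw [Xpow]; ring
      _ = X ^ (e + 2) * (V ^ (e + 2) * V) := by ring
  have hδeq : 2 * h * (7 * (2 * h * V) / 2 ^ (n0 * ℓ)) = 28 * h ^ 2 * X ^ (e + 2) := by
    rw [pn, ← hVn]
    ring
  -- apply the key theorem
  apply key (n := n0 * ℓ) (k := (e + 2) * ℓ) (K := ⌈46 / 10 * h⌉₊) (C := C)
    (σ := X ^ b * (X ^ (2 * κ)) ^ 2 * h / (400 * C * V)) hh1000
  · -- h ≤ V
    have e1 : h * X ≤ V * X := by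
      rw [hVX]
      calc h * X = (H : ℝ) * L' ^ 1 * X := by rw [hh, pow_one]
        _ ≤ 1 := k6
    exact le_of_mul_le_mul_right e1 hX0
  · positivity
  · exact pow_le_one₀ hX0.le hX1
  · positivity
  · have e1 : X ^ (2 * κ) ≤ X ^ 1 := Xle (by omega)
    rw [pow_one] at e1
    rw [pow_zero, mul_one] at k7
    linarith
  · -- hrV
    rw [hDcast]
    have e1 : X ^ (2 * κ) = X ^ κ * X ^ κ := by rw [← pow_add]; congr 1; ring
    have e2 : X ^ κ ≤ X ^ 2 := Xle hκ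
    have e3 : X ^ κ * V ≤ X := by
      calc X ^ κ * V ≤ X ^ 2 * V := mul_le_mul_of_nonneg_right e2 hV0.le
        _ = X * (V * X) := by ring
        _ = X := by rw [hVX, mul_one]
    rw [e1]
    calc 4 * ((D0 : ℝ) * L' ^ 3) * (X ^ κ * X ^ κ) * V =
          (4 * (D0 : ℝ) * L' ^ 3 * (X ^ κ * V)) * X ^ κ := by ring
      _ ≤ (4 * (D0 : ℝ) * L' ^ 3 * X) * X ^ κ := by gcongr
      _ ≤ 1 * X ^ κ := mul_le_mul_of_nonneg_right k2 (by positivity)
      _ = X ^ κ := one_mul _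
  · positivity
  · -- k
    rw [hh, hH]
    push_cast
    have : (0 : ℝ) ≤ ((e : ℝ) + 2) * L' := by positivity
    nlinarith
  · have := Nat.le_ceil (46 / 10 * h)
    linarith
  · have := Nat.ceil_lt_add_one (a := 46 / 10 * h) (by positivity)
    linarith
  · rw [hδeq]
    have e1 : X ^ (e + 2) ≤ X ^ 1 := Xle (by omega)
    rw [pow_one] at e1
    calc 28 * h ^ 2 * X ^ (e + 2) ≤ 28 * h ^ 2 * X := by gcongr
      _ = 28 * (H : ℝ) ^ 2 * L' ^ 2 * X := by rw [hh]; ring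
      _ ≤ 1 := k3
  · -- kk bound
    intro θ x y
    apply kk_bound (S := S) (by linarith) (by positivity) (pow_le_one₀ hX0.le hX1) (by positivity)
      (by positivity) (by linarith) hS1
    rw [hDcast]
    have e1 : X ^ b ≤ X * (X ^ (2 * κ)) ^ 2 := by
      rw [← pow_mul]
      calc X ^ b ≤ X ^ (4 * κ + 1) := Xle hb
        _ = X * X ^ (2 * κ * 2) := by
          rw [pow_succ]
          have : 4 * κ = 2 * κ * 2 := by ring
          rw [this]
          ring
    have hr2 : 0 < (X ^ (2 * κ)) ^ 2 := by positivity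
    calc (D0 : ℝ) * L' ^ 3 * (X ^ b * (S * (4 / (X ^ (2 * κ)) ^ 2) * 2)) ≤
          (D0 : ℝ) * L' ^ 3 * ((X * (X ^ (2 * κ)) ^ 2) * (S * (4 / (X ^ (2 * κ)) ^ 2) * 2)) := by
          gcongr
      _ = 8 * S * D0 * L' ^ 3 * X := by
          field_simp
          ring
      _ ≤ 1 := k1
  · linarith
  · exact hC1
  · exact hC2
  · positivity
  · -- the violated inequality
    rw [hδeq, pk]
    apply viol_of hD1 hh1000 hV1 (by positivity) (pow_le_one₀ hX0.le hX1) (by positivity)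
      (by positivity) hC
    · have e1 : V ^ 4 * X ^ (e + 2) = (X ^ b) ^ 2 * (X ^ (2 * κ)) ^ 4 * X ^ 2 := by
        have e2 : (X ^ b) ^ 2 * (X ^ (2 * κ)) ^ 4 * X ^ 2 = X ^ (e - 2) := by
          rw [← pow_mul, ← pow_mul, ← pow_add, ← pow_add]
          congr 1
          omega
        have e3 : X ^ (e + 2) = X ^ 4 * X ^ (e - 2) := by
          rw [← pow_add]
          congr 1
          omega
        rw [e2, e3, ← mul_assoc, Xpow, one_mul]
      have e4 : 1 + 28 * h ^ 2 ≤ (1 + 28 * (H : ℝ) ^ 2) * L' ^ 2 := by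
        rw [hh]
        nlinarith
      have e5 : X ^ 2 ≤ X := by nlinarith
      calc 240000 * C ^ 2 * V ^ 2 * (10000 * h ^ 2 * (4 * h ^ 2 * V) ^ 2 *
            (X ^ (e + 2) + 28 * h ^ 2 * X ^ (e + 2))) =
            38400000000 * C ^ 2 * (h ^ 3 * (1 + 28 * h ^ 2)) * h ^ 3 * (V ^ 4 * X ^ (e + 2)) := by
            ring
        _ = 38400000000 * C ^ 2 * (h ^ 3 * (1 + 28 * h ^ 2)) * h ^ 3 *
            ((X ^ b) ^ 2 * (X ^ (2 * κ)) ^ 4 * X ^ 2) := by rw [e1]
        _ ≤ 38400000000 * C ^ 2 * (h ^ 3 * ((1 + 28 * (H : ℝ) ^ 2) * L' ^ 2)) * h ^ 3 *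
            ((X ^ b) ^ 2 * (X ^ (2 * κ)) ^ 4 * X) := by gcongr
        _ = (38400000000 * C ^ 2 * H ^ 3 * (1 + 28 * H ^ 2) * L' ^ 5 * X) *
            ((X ^ b) ^ 2 * (X ^ (2 * κ)) ^ 4 * h ^ 3) := by
            rw [hh]
            ring
        _ ≤ 1 * ((X ^ b) ^ 2 * (X ^ (2 * κ)) ^ 4 * h ^ 3) :=
            mul_le_mul_of_nonneg_right k4 (by positivity)
        _ = (X ^ b) ^ 2 * (X ^ (2 * κ)) ^ 4 * h ^ 3 := one_mul _
    · rw [hDcast]
      set m : ℕ := b + 4 * κ + 2 with hm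
      have e1 := exp_small (μ := X ^ κ) (by positivity) m
      have e2 : (X ^ κ) ^ m ≤ X ^ m := by
        rw [← pow_mul]
        apply Xle
        nlinarith
      have e3 : V * X ^ m = X ^ b * (X ^ (2 * κ)) ^ 2 * X := by
        have e4 : X ^ m = X ^ b * (X ^ (2 * κ)) ^ 2 * X * X := by
          rw [← pow_mul, ← pow_add, mul_assoc, ← pow_two, ← pow_add]
          congr 1
          omega
        rw [e4]
        calc V * (X ^ b * (X ^ (2 * κ)) ^ 2 * X * X) =
              (V * X) * (X ^ b * (X ^ (2 * κ)) ^ 2 * X) := by ring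
          _ = X ^ b * (X ^ (2 * κ)) ^ 2 * X := by rw [hVX, one_mul]
      calc 43200 * C * ((D0 : ℝ) * L' ^ 3) * h * V * Real.exp (-(1 / (128 * X ^ κ))) ≤
            43200 * C * ((D0 : ℝ) * L' ^ 3) * h * V * (m.factorial * 128 ^ m * X ^ m) := by
            apply mul_le_mul_of_nonneg_left _ (by positivity)
            refine e1.trans ?_
            gcongr
        _ = 43200 * C * ((D0 : ℝ) * L' ^ 3) * h * (m.factorial * 128 ^ m) * (V * X ^ m) := by ring
        _ = (43200 * C * D0 * H * (m.factorial * 128 ^ m) * L' ^ 4 * X) *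
            (X ^ b * (X ^ (2 * κ)) ^ 2) := by
            rw [e3, hh]
            ring
        _ ≤ 1 * (X ^ b * (X ^ (2 * κ)) ^ 2) := by
            apply mul_le_mul_of_nonneg_right _ (by positivity)
            exact k5
        _ = X ^ b * (X ^ (2 * κ)) ^ 2 := one_mul _
  · -- the count
    set K : ℕ := ⌈46 / 10 * h⌉₊ with hK
    have hKle : K ≤ 5 * (H * ℓ) := by
      rw [hK]
      apply Nat.ceil_le.2
      push_cast
      rw [hh]
      nlinarith
    have hHℓ : 1 ≤ H * ℓ := by nlinarith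
    have hnℓ : 1 ≤ n0 * ℓ := by nlinarith
    have e8 : 4 * 8 ^ (n0 * ℓ) = 2 ^ (3 * (n0 * ℓ) + 2) := by
      have e81 : (8 : ℕ) = 2 ^ 3 := by norm_num
      rw [pow_add, e81, ← pow_mul]
      generalize 2 ^ (3 * (n0 * ℓ)) = w
      omega
    rw [e8, ← pow_mul]
    apply Nat.pow_lt_pow_right (by norm_num)
    have e9 : 3 * (n0 * ℓ) + 2 ≤ 5 * (n0 * ℓ) := by omega
    have e10 : 2 * K + 1 ≤ 11 * (H * ℓ) := by omega
    calc (3 * (n0 * ℓ) + 2) * (4 * (n0 * ℓ) * (2 * K + 1)) ≤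
          (5 * (n0 * ℓ)) * (4 * (n0 * ℓ) * (11 * (H * ℓ))) := by gcongr
      _ = 220 * n0 ^ 2 * H * ℓ ^ 3 := by ring
      _ < D0 * ℓ ^ 3 := by
          apply Nat.mul_lt_mul_of_pos_right
          · omega
          · positivity

end Pool.Agent.Helper47.MA
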